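import Mathlib

/-!
# Zero forcing, cotrees and the recursion: definitions
-/

namespace Pool.Agent.H81.CG


variable {V : Type*}

/-- `Blue G S v`: the vertex `v` is blue at the end, when the colour change rule is applied starting
with exactly the vertices of `S` blue. (A blue vertex `u` all of whose neighbours other than `w` are
blue makes its neighbour `w` blue.) -/
inductive Blue (G : SimpleGraph V) (S : Finset V) : V → Prop
  | init {v : V} (hv : v ∈ S) : Blue G S v
  | force {u w : V} (hu : Blue G S u) (huw : G.Adj u w)
      (h : ∀ x, G.Adj u x → x ≠ w → Blue G S x) : Blue G S w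

/-- `S` is a zero forcing set of `G`. -/
def IsZFS (G : SimpleGraph V) (S : Finset V) : Prop := ∀ v, Blue G S v

/-- `S` is an inclusion-minimal zero forcing set of `G`. -/
def IsMinimalZFS (G : SimpleGraph V) (S : Finset V) : Prop :=
  IsZFS G S ∧ ∀ T : Finset V, T ⊂ S → ¬ IsZFS G T

/-- The zero forcing number of `G`. -/
noncomputable def zeroForcingNumber (G : SimpleGraph V) : ℕ :=
  sInf {k | ∃ S : Finset V, IsZFS G S ∧ S.card = k}

/-- Every minimal zero forcing set of `G` is a minimum zero forcing set. -/
def WellForced (G : SimpleGraph V) : Prop :=
  ∀ S : Finset V, IsMinimalZFS G S → S.card = zeroForcingNumber G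

/-- `G` contains `P_4` as an induced subgraph (with consecutive vertices `a, b, c, d`). -/
def InducedP4 (G : SimpleGraph V) : Prop :=
  ∃ a b c d, a ≠ c ∧ a ≠ d ∧ b ≠ d ∧ G.Adj a b ∧ G.Adj b c ∧ G.Adj c d ∧
    ¬ G.Adj a c ∧ ¬ G.Adj b d ∧ ¬ G.Adj a d

/-- Binary cotrees. -/
inductive Cotree
  | leaf
  | union (l r : Cotree)
  | join (l r : Cotree)

open Classical in
/-- The subgraph of `G` induced by `A` is built as the cotree says: single vertices, disjoint unions
(no edges between the parts) and joins (all edges between the parts). -/
inductive BuiltBy (G : SimpleGraph V) : Finset V → Cotree → Prop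
  | leaf (v : V) : BuiltBy G {v} .leaf
  | union {A B : Finset V} {l r : Cotree} (hA : BuiltBy G A l) (hB : BuiltBy G B r)
      (hd : Disjoint A B) (h : ∀ x ∈ A, ∀ y ∈ B, ¬ G.Adj x y) : BuiltBy G (A ∪ B) (.union l r)
  | join {A B : Finset V} {l r : Cotree} (hA : BuiltBy G A l) (hB : BuiltBy G B r)
      (hd : Disjoint A B) (h : ∀ x ∈ A, ∀ y ∈ B, G.Adj x y) : BuiltBy G (A ∪ B) (.join l r)

/-- The type of what is left of a graph when the vertices adjacent to all others are removed. -/
inductive Core
  | none
  | edgeless
  | pure (a : ℕ)
  | mixed (a : ℕ)
  | bad

/-- The type of a join. -/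
def Core.mul : Core → Core → Core
  | .none, d => d
  | c, .none => c
  | .edgeless, .edgeless => .pure 1
  | .edgeless, .pure a => if a = 1 then .pure 1 else .mixed a
  | .pure a, .edgeless => if a = 1 then .pure 1 else .mixed a
  | .pure a, .pure b => if a = b then .pure a else .bad
  | .pure a, .mixed b => if a = b then .mixed a else .bad
  | .mixed a, .pure b => if a = b then .mixed a else .bad
  | _, _ => .bad

/-- The type of a disconnected graph, from the data `iso`, `w`, `t` below. -/
def disc (i : ℕ) (w : Option ℕ) (t : Bool) : Core :=
  match w with
  | none => .bad
  | some m =>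
    if 2 ≤ i then (if m = 0 then .edgeless else .pure (m + 1))
    else if t then .pure (m + i - 1) else .bad

/-- The data `w`, `t` of a join, from `dom` and the type of its core. -/
def joinW : Bool → Core → Option ℕ × Bool
  | true, .none => (some 1, true)
  | true, .edgeless => (some 2, true)
  | _, .pure a => (some (a + 1), true)
  | false, .mixed a => (some (a + 1), false)
  | _, _ => (none, false)

/-- The data of a graph used in the recursion. Let `H` be the graph without its isolated
vertices. Meaning of the fields: `iso` is the number of isolated vertices; `w` is `|H| - Z(H)` if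
all minimal zero forcing sets of `H` are minimum, and `none` otherwise; `t` tells (in the first case)
if moreover all minimal members of the family of the zero forcing sets of `H` that contain a closed
neighbourhood have `Z(H) + 1` elements; `dom` tells if there is a vertex adjacent to all others;
`core` is the type of what is left when the vertices adjacent to all others are removed. -/
structure State where
  iso : ℕ
  w : Option ℕ
  t : Bool
  dom : Bool
  core : Core

/-- Addition, with `none` if one of the two is `none`. -/
def addO : Option ℕ → Option ℕ → Option ℕ
  | some a, some b => some (a + b)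
  | _, _ => none

/-- The recursion. -/
def state : Cotree → State
  | .leaf => ⟨1, some 0, true, true, .none⟩
  | .union l r =>
    ⟨(state l).iso + (state r).iso, addO (state l).w (state r).w, (state l).t && (state r).t, false,
      disc ((state l).iso + (state r).iso) (addO (state l).w (state r).w)
        ((state l).t && (state r).t)⟩
  | .join l r =>
    ⟨0, (joinW ((state l).dom || (state r).dom) ((state l).core.mul (state r).core)).1,
      (joinW ((state l).dom || (state r).dom) ((state l).core.mul (state r).core)).2,
      (state l).dom || (state r).dom, (state l).core.mul (state r).core⟩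

end Pool.Agent.H81.CG
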