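import Pool.Agent.H81.CographRec4
import Pool.Agent.H81.CographDefs

/-!
# The well-forced cographs: proof
-/

set_option linter.unusedSectionVars false
set_option linter.unusedVariables false

namespace Pool.Agent.H81.CG

variable {V : Type*}

open Pool.Agent.H81.WF Classical

/-- The meaning of the types (used in the proof). -/
structure Sem (c : Core) (C : Finset V) (P0 P1 : Finset V → Prop) : Prop where
  r : R1 C P0 P1 ↔ (c = .edgeless ∨ c = .pure 1)
  q : ∀ b, 2 ≤ b → (Qa C P0 P1 b ↔ (c = .edgeless ∨ c = .pure b ∨ c = .mixed b))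
  p : ∀ b, 2 ≤ b → Qa C P0 P1 b → (Pure C P1 ↔ ∃ a, c = .pure a)
  pos1 : ∀ a, c = .pure a → 1 ≤ a
  pos2 : ∀ a, c = .mixed a → 2 ≤ a
  ne : c ≠ .none

section abstract

variable {C A1 A2 : Finset V} {P0 P1 Q0 Q1 : Finset V → Prop} {c c1 c2 : Core} {a m : ℕ}

theorem UU_iff (s : Sem c C P0 P1) : UU C P0 P1 a ↔ (c = .edgeless ∧ a = 1) ∨ c = .pure a := by
  constructor
  · rintro (⟨rfl, h⟩ | ⟨h1, h2, h3⟩)
    · rcases s.r.mp h with h | h
      · exact Or.inl ⟨h, rfl⟩
      · exact Or.inr h
    · obtain ⟨a', ha'⟩ := (s.p a h1 h2).mp h3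
      rcases (s.q a h1).mp h2 with h | h | h
      · rw [h] at ha'; cases ha'
      · exact Or.inr h
      · rw [h] at ha'; cases ha'
  · rintro (⟨h, rfl⟩ | h)
    · exact Or.inl ⟨rfl, s.r.mpr (Or.inl h)⟩
    · have h1 := s.pos1 a h
      by_cases h2 : a = 1
      · subst h2
        exact Or.inl ⟨rfl, s.r.mpr (Or.inr h)⟩
      · have hQ := (s.q a (by omega)).mpr (Or.inr (Or.inl h))
        exact Or.inr ⟨by omega, hQ, (s.p a (by omega) hQ).mpr ⟨a, h⟩⟩

theorem W_iff (s : Sem c C P0 P1) (hc : c ≠ .edgeless) :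
    ((m = 2 ∧ R1 C P0 P1) ∨ (3 ≤ m ∧ Qa C P0 P1 (m - 1))) ↔
    2 ≤ m ∧ (c = .pure (m - 1) ∨ c = .mixed (m - 1)) := by
  constructor
  · rintro (⟨rfl, h⟩ | ⟨h1, h2⟩)
    · exact ⟨le_rfl, Or.inl ((s.r.mp h).resolve_left hc)⟩
    · exact ⟨by omega, ((s.q _ (by omega)).mp h2).resolve_left hc⟩
  · rintro ⟨h1, h2 | h2⟩
    · by_cases h3 : m = 2
      · subst h3
        exact Or.inl ⟨rfl, s.r.mpr (Or.inr h2)⟩
      · exact Or.inr ⟨by omega, (s.q _ (by omega)).mpr (Or.inr (Or.inl h2))⟩
    · have := s.pos2 _ h2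
      exact Or.inr ⟨by omega, (s.q _ (by omega)).mpr (Or.inr (Or.inr h2))⟩

theorem mul_none : c1.mul c2 = .none ↔ c1 = .none ∧ c2 = .none := by
  rcases c1 with _ | _ | a | a | _ <;> rcases c2 with _ | _ | b | b | _ <;>
    simp [Core.mul] <;> split_ifs <;> simp

theorem mul_edgeless (h1 : c1 ≠ .none) (h2 : c2 ≠ .none) : c1.mul c2 ≠ .edgeless := by
  rcases c1 with _ | _ | a | a | _ <;> rcases c2 with _ | _ | b | b | _ <;>
    simp [Core.mul] at * <;> split_ifs <;> simp

theorem Sem_mul (hd : Disjoint A1 A2) (f : Fam A1 P0 P1) (g : Fam A2 Q0 Q1)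
    (s1 : Sem c1 A1 P0 P1) (s2 : Sem c2 A2 Q0 Q1) :
    Sem (c1.mul c2) (A1 ∪ A2) (J0 A1 A2 P0 P1 Q0 Q1) (J1 A1 A2 P1 Q1) := by
  have n1 := s1.ne
  have n2 := s2.ne
  have p1 := s1.pos1
  have p2 := s2.pos1
  have q1 := s1.pos2
  have q2 := s2.pos2
  have hq : ∀ b, 2 ≤ b → (Qa (A1 ∪ A2) (J0 A1 A2 P0 P1 Q0 Q1) (J1 A1 A2 P1 Q1) b ↔
      (c1 = .edgeless ∨ c1 = .pure b ∨ c1 = .mixed b) ∧
      (c2 = .edgeless ∨ c2 = .pure b ∨ c2 = .mixed b) ∧
      ((∃ a, c1 = .pure a) ∨ ∃ a, c2 = .pure a)) := by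
    intro b hb
    rw [Q_join hd f g hb, ← s1.q b hb, ← s2.q b hb]
    constructor
    · rintro ⟨h1, h2, h3⟩
      rw [s1.p b hb h1, s2.p b hb h2] at h3
      exact ⟨h1, h2, h3⟩
    · rintro ⟨h1, h2, h3⟩
      rw [← s1.p b hb h1, ← s2.p b hb h2] at h3
      exact ⟨h1, h2, h3⟩
  refine ⟨?_, ?_, ?_, ?_, ?_, ?_⟩
  · rw [R1_join hd f g, s1.r, s2.r]
    clear hq s1 s2
    rcases c1 with _ | _ | a | a | _ <;> rcases c2 with _ | _ | b | b | _ <;>
      simp [Core.mul] at * <;> (try split_ifs) <;> (try simp) <;> (try omega)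
  · intro b hb
    rw [hq b hb]
    clear hq s1 s2
    rcases c1 with _ | _ | a | a | _ <;> rcases c2 with _ | _ | a' | a' | _ <;>
      simp [Core.mul] at * <;> (try split_ifs) <;> (try simp) <;> (try omega)
  · intro b hb hQ
    have h' := (Q_join hd f g hb).mp hQ
    rw [Pure_join hd f g, s1.p b hb h'.1, s2.p b hb h'.2.1]
    have h2 := (hq b hb).mp hQ
    clear hq s1 s2 hQ h'
    rcases c1 with _ | _ | a | a | _ <;> rcases c2 with _ | _ | a' | a' | _ <;>
      simp [Core.mul] at * <;> (try split_ifs) <;> (try simp) <;> (try omega)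
  · clear hq s1 s2
    intro b
    rcases c1 with _ | _ | a | a | _ <;> rcases c2 with _ | _ | a' | a' | _ <;>
      simp [Core.mul] at * <;> (try split_ifs) <;> (try simp) <;> (try omega)
  · clear hq s1 s2
    intro b
    rcases c1 with _ | _ | a | a | _ <;> rcases c2 with _ | _ | a' | a' | _ <;>
      simp [Core.mul] at * <;> (try split_ifs) <;> (try simp) <;> (try omega)
  · intro h
    exact n1 (mul_none.mp h).1

end abstract

section semantics

variable {G : SimpleGraph V} {A A1 A2 C : Finset V} {m : ℕ} {w : Option ℕ} {t : Bool}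

/-- The meaning of `w` and `t` (used in the proof). -/
structure Good (G : SimpleGraph V) (A : Finset V) (w : Option ℕ) (t : Bool) : Prop where
  empty : nonIso G A = ∅ → w = some 0 ∧ t = true
  hw : (nonIso G A).Nonempty → ∀ m, AM (nonIso G A) (ZF G (nonIso G A)) m ↔ w = some m
  ht : (nonIso G A).Nonempty →
    ∀ m, TT (nonIso G A) (ZF G (nonIso G A)) (F1 G (nonIso G A)) m ↔ w = some m ∧ t = true

theorem Good_of_join (hn : ∀ v ∈ A, ∃ y ∈ A, G.Adj v y) (hne : A.Nonempty)
    (h1 : ∀ m, AM A (ZF G A) m ↔ w = some m)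
    (h2 : ∀ m, TT A (ZF G A) (F1 G A) m ↔ w = some m ∧ t = true) : Good G A w t := by
  refine ⟨?_, ?_, ?_⟩
  · intro h
    rw [nonIso_eq hn] at h
    exact absurd hne (by rw [h]; exact Finset.not_nonempty_empty)
  · intro _
    rwa [nonIso_eq hn]
  · intro _
    rwa [nonIso_eq hn]

theorem nonIso_props (h : (nonIso G A).Nonempty) :
    HF (nonIso G A) (ZF G (nonIso G A)) (F1 G (nonIso G A)) :=
  hf nonIso_noiso h

theorem Good_union (hd : Disjoint A1 A2) (hno : ∀ x ∈ A1, ∀ y ∈ A2, ¬ G.Adj x y)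
    {w1 w2 : Option ℕ} {t1 t2 : Bool} (g1 : Good G A1 w1 t1) (g2 : Good G A2 w2 t2) :
    Good G (A1 ∪ A2) (addO w1 w2) (t1 && t2) := by
  have hU := nonIso_union hno
  have hno' : ∀ x ∈ nonIso G A1, ∀ y ∈ nonIso G A2, ¬ G.Adj x y := fun x hx y hy =>
    hno x (nonIso_sub hx) y (nonIso_sub hy)
  have hd' : Disjoint (nonIso G A1) (nonIso G A2) := hd.mono nonIso_sub nonIso_sub
  rcases (nonIso G A1).eq_empty_or_nonempty with e1 | e1
  · obtain ⟨rfl, rfl⟩ := g1.empty e1
    have e : nonIso G (A1 ∪ A2) = nonIso G A2 := by rw [hU, e1, Finset.empty_union]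
    have ew : addO (some 0) w2 = w2 := by cases w2 <;> simp [addO]
    have et : (true && t2) = t2 := by simp
    rw [ew, et]
    refine ⟨?_, ?_, ?_⟩
    · rw [e]; exact g2.empty
    · rw [e]; exact g2.hw
    · rw [e]; exact g2.ht
  · rcases (nonIso G A2).eq_empty_or_nonempty with e2 | e2
    · obtain ⟨rfl, rfl⟩ := g2.empty e2
      have e : nonIso G (A1 ∪ A2) = nonIso G A1 := by rw [hU, e2, Finset.union_empty]
      have ew : addO w1 (some 0) = w1 := by cases w1 <;> simp [addO]
      have et : (t1 && true) = t1 := by simp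
      rw [ew, et]
      refine ⟨?_, ?_, ?_⟩
      · rw [e]; exact g1.empty
      · rw [e]; exact g1.hw
      · rw [e]; exact g1.ht
    · have h1 := nonIso_props e1
      have h2 := nonIso_props e2
      refine ⟨?_, ?_, ?_⟩
      · intro h
        rw [hU, Finset.union_eq_empty] at h
        exact absurd e1 (by rw [h.1]; exact Finset.not_nonempty_empty)
      · intro _ m
        rw [hU, U_ZF hno', AM_U hd' h1 h2]
        constructor
        · rintro ⟨m1, m2, rfl, h3, h4⟩
          rw [(g1.hw e1 m1).mp h3, (g2.hw e2 m2).mp h4]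
          rfl
        · intro h
          rcases w1 with _ | a <;> rcases w2 with _ | b
          · simp [addO] at h
          · simp [addO] at h
          · simp [addO] at h
          · simp only [addO, Option.some.injEq] at h
            exact ⟨a, b, h, (g1.hw e1 a).mpr rfl, (g2.hw e2 b).mpr rfl⟩
      · intro _ m
        rw [hU, U_ZF hno', U_F1 hno', TT_U hd' h1 h2]
        constructor
        · rintro ⟨m1, m2, rfl, h3, h4⟩
          obtain ⟨k1, k2⟩ := (g1.ht e1 m1).mp h3
          obtain ⟨k3, k4⟩ := (g2.ht e2 m2).mp h4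
          rw [k1, k2, k3, k4]
          exact ⟨rfl, rfl⟩
        · rintro ⟨h, ht⟩
          rw [Bool.and_eq_true] at ht
          rcases w1 with _ | a <;> rcases w2 with _ | b
          · simp [addO] at h
          · simp [addO] at h
          · simp [addO] at h
          · simp only [addO, Option.some.injEq] at h
            exact ⟨a, b, h, (g1.ht e1 a).mpr ⟨rfl, ht.1⟩, (g2.ht e2 b).mpr ⟨rfl, ht.2⟩⟩

theorem disc_ne {i : ℕ} : disc i w t ≠ .none := by
  unfold disc
  rcases w with _ | m
  · simp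
  · simp only
    split_ifs <;> simp

theorem Sem_disc (hd : Disjoint A1 A2) (hno : ∀ x ∈ A1, ∀ y ∈ A2, ¬ G.Adj x y)
    (hne1 : A1.Nonempty) (hne2 : A2.Nonempty) (g : Good G (A1 ∪ A2) w t)
    (hnd : ∀ y ∈ A1 ∪ A2, ∃ x ∈ A1 ∪ A2, x ≠ y ∧ ¬ G.Adj x y) :
    Sem (disc (isoS G (A1 ∪ A2)).card w t) (A1 ∪ A2) (Zm G (A1 ∪ A2)) (M1 G (A1 ∪ A2)) := by
  have f := fam hnd (hne1.mono Finset.subset_union_left)
  have hcard : 2 ≤ (A1 ∪ A2).card := by
    rw [Finset.card_union_of_disjoint hd]
    have := Finset.card_pos.mpr hne1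
    have := Finset.card_pos.mpr hne2
    omega
  have hIH : isoS G (A1 ∪ A2) ∪ nonIso G (A1 ∪ A2) = A1 ∪ A2 := iso_union
  have hdIH : Disjoint (isoS G (A1 ∪ A2)) (nonIso G (A1 ∪ A2)) := iso_disj
  have hZ : Zm G (A1 ∪ A2) = D0 (isoS G (A1 ∪ A2)) (ZF G (nonIso G (A1 ∪ A2))) := Zm_D0
  have hM : M1 G (A1 ∪ A2) = D1 (isoS G (A1 ∪ A2)) (ZF G (nonIso G (A1 ∪ A2)))
    (F1 G (nonIso G (A1 ∪ A2))) := M1_D1
  rcases (nonIso G (A1 ∪ A2)).eq_empty_or_nonempty with e | e
  · obtain ⟨rfl, rfl⟩ := g.empty e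
    have eI : isoS G (A1 ∪ A2) = A1 ∪ A2 := by rw [e, Finset.union_empty] at hIH; exact hIH
    have hc : disc (isoS G (A1 ∪ A2)).card (some 0) true = .edgeless := by
      rw [eI]
      unfold disc
      simp [hcard]
    rw [hc]
    have k0 : ∀ S, Zm G (A1 ∪ A2) S → ((A1 ∪ A2) \ S).card ≤ 1 := by
      intro S hS
      have := hS.2
      rwa [eI] at this
    refine ⟨?_, ?_, ?_, ?_, ?_, ?_⟩
    · exact ⟨fun _ => Or.inl rfl, fun _ => ⟨fun S hS => k0 S hS.1, fun S hS =>
        (k0 S hS).trans (by norm_num)⟩⟩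
    · intro b hb
      refine ⟨fun _ => Or.inl rfl, fun _ => ⟨fun S hS hc => ?_, fun S hS hn => ?_⟩⟩
      · have := k0 S hS.1
        omega
      · exact absurd (f.one S (k0 S hS)) hn
    · intro b hb hQ
      constructor
      · intro hp
        obtain ⟨X, hX, hcX⟩ := shrink (A := A1 ∪ A2) (S := A1 ∪ A2) (k := 1) (by simp) (by omega)
        obtain ⟨S', h1, h2, h3⟩ := hp X hcX
        have := k0 S' h2.1
        omega
      · rintro ⟨a, ha⟩
        cases ha
    · intro a ha; cases ha
    · intro a ha; cases ha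
    · simp
  · have h := nonIso_props e
    have gw := g.hw e
    have gt := g.ht e
    have wpos : ∀ m, w = some m → 1 ≤ m := by
      intro m hm
      obtain ⟨X, hX, hcX⟩ := shrink (A := nonIso G (A1 ∪ A2)) (S := nonIso G (A1 ∪ A2)) (k := 1)
        (by simp) h.cardpos
      have := AM_le ((gw m).mpr hm) (h.one X (by omega))
      omega
    rcases (by omega : 2 ≤ (isoS G (A1 ∪ A2)).card ∨ (isoS G (A1 ∪ A2)).card = 1 ∨
      (isoS G (A1 ∪ A2)).card = 0) with hI | hI | hI
    · -- at least two isolated vertices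
      have hR := big_R1 hdIH h hI
      have hQ : ∀ b, 2 ≤ b → (Qa (A1 ∪ A2) (Zm G (A1 ∪ A2)) (M1 G (A1 ∪ A2)) b ↔
          w = some (b - 1)) := by
        intro b hb
        have := big_Q hdIH h hI hb
        rw [hIH, ← hZ, ← hM] at this
        rw [this, gw]
      have hP := big_Pure hdIH h hI
      rw [hIH, ← hZ, ← hM] at hR
      rw [hIH, ← hM] at hP
      rcases w with _ | m
      · have hc : disc (isoS G (A1 ∪ A2)).card none t = .bad := rfl
        rw [hc]
        refine ⟨?_, ?_, ?_, ?_, ?_, ?_⟩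
        · simp [hR]
        · intro b hb
          rw [hQ b hb]; simp
        · intro b hb hq
          rw [hQ b hb] at hq; simp at hq
        · simp
        · simp
        · simp
      · have hm := wpos m rfl
        have hc : disc (isoS G (A1 ∪ A2)).card (some m) t = .pure (m + 1) := by
          unfold disc
          simp only [hI, if_true]
          rw [if_neg (by omega)]
        rw [hc]
        refine ⟨?_, ?_, ?_, ?_, ?_, ?_⟩
        · simp [hR]; omega
        · intro b hb
          rw [hQ b hb]; simp; omega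
        · intro b hb hq
          simp [hP]
        · intro a ha
          simp at ha
          omega
        · simp
        · simp
    · -- one isolated vertex
      have hR := one_R1 hdIH h hI
      have hQ : ∀ b, 2 ≤ b → (Qa (A1 ∪ A2) (Zm G (A1 ∪ A2)) (M1 G (A1 ∪ A2)) b ↔
          w = some b ∧ t = true) := by
        intro b hb
        have := one_Q hdIH h hI hb
        rw [hIH, ← hZ, ← hM] at this
        rw [this, gt]
      have hP : ∀ b, 2 ≤ b → Qa (A1 ∪ A2) (Zm G (A1 ∪ A2)) (M1 G (A1 ∪ A2)) b →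
          Pure (A1 ∪ A2) (M1 G (A1 ∪ A2)) := by
        intro b hb hq
        have := one_Pure hdIH h hI hb ((gt b).mpr ((hQ b hb).mp hq))
        rwa [hIH, ← hM] at this
      rw [hIH, ← hZ, ← hM, gt] at hR
      by_cases hgood : t = true ∧ ∃ m, w = some m
      · obtain ⟨rfl, m, rfl⟩ := hgood
        have hm := wpos m rfl
        have hc : disc (isoS G (A1 ∪ A2)).card (some m) true = .pure m := by
          unfold disc
          simp only [hI]
          simp
        rw [hc]
        refine ⟨?_, ?_, ?_, ?_, ?_, ?_⟩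
        · rw [hR]; simp
        · intro b hb
          rw [hQ b hb]; simp
        · intro b hb hq
          simp [hP b hb hq]
        · intro a ha
          simp at ha
          omega
        · simp
        · simp
      · have hc : disc (isoS G (A1 ∪ A2)).card w t = .bad := by
          unfold disc
          rcases w with _ | m
          · rfl
          · have : t = false := by
              cases t
              · rfl
              · exact absurd ⟨rfl, m, rfl⟩ hgood
            subst this
            simp only [hI]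
            simp
        have hno2 : ∀ b, ¬ (w = some b ∧ t = true) := fun b hb => hgood ⟨hb.2, b, hb.1⟩
        rw [hc]
        refine ⟨?_, ?_, ?_, ?_, ?_, ?_⟩
        · rw [hR]; simp [hno2 1]
        · intro b hb
          rw [hQ b hb]; simp [hno2 b]
        · intro b hb hq
          exact absurd ((hQ b hb).mp hq) (hno2 b)
        · simp
        · simp
        · simp
    · -- no isolated vertex
      have eI : isoS G (A1 ∪ A2) = ∅ := Finset.card_eq_zero.mp hI
      have eH : nonIso G (A1 ∪ A2) = A1 ∪ A2 := by rw [eI, Finset.empty_union] at hIH; exact hIH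
      have hn : ∀ v ∈ A1 ∪ A2, ∃ y ∈ A1 ∪ A2, G.Adj v y := by
        intro v hv
        rw [← eH] at hv
        obtain ⟨y, hy, hvy⟩ := nonIso_noiso v hv
        exact ⟨y, nonIso_sub hy, hvy⟩
      have hZm : Zm G (A1 ∪ A2) = ZF G (A1 ∪ A2) := by
        funext S; exact propext (Zm_iff_ZF hn)
      have hMF : M1 G (A1 ∪ A2) = F1 G (A1 ∪ A2) := M1_eq_F1 hn
      rw [hZm, hMF] at f ⊢
      rw [eH] at h gw gt
      have hn1 : ∀ v ∈ A1, ∃ y ∈ A1, G.Adj v y := by
        intro v hv
        obtain ⟨y, hy, hvy⟩ := hn v (Finset.mem_union_left _ hv)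
        rcases Finset.mem_union.mp hy with h1 | h1
        · exact ⟨y, h1, hvy⟩
        · exact absurd hvy (hno v hv y h1)
      have hn2 : ∀ v ∈ A2, ∃ y ∈ A2, G.Adj v y := by
        intro v hv
        obtain ⟨y, hy, hvy⟩ := hn v (Finset.mem_union_right _ hv)
        rcases Finset.mem_union.mp hy with h1 | h1
        · exact absurd hvy.symm (hno y h1 v hv)
        · exact ⟨y, h1, hvy⟩
      have h1 := hf hn1 hne1
      have h2 := hf hn2 hne2
      have hp : ∀ m, 3 ≤ m → AM (A1 ∪ A2) (ZF G (A1 ∪ A2)) m → Pure (A1 ∪ A2) (F1 G (A1 ∪ A2)) := by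
        intro m hm hA S hS
        rw [sdiff_union_card hd] at hS
        rw [U_ZF hno] at hA
        rcases (by omega : (A1 \ S).card = 1 ∧ (A2 \ S).card = 0 ∨
          (A2 \ S).card = 1 ∧ (A1 \ S).card = 0) with ⟨c1, c2⟩ | ⟨c1, c2⟩
        · obtain ⟨S', k1, k2, k3⟩ := U_pure hd h1 h2 hA hm c1 c2
          exact ⟨S', k1, by rw [U_F1 hno]; exact k2, k3⟩
        · obtain ⟨S', k1, k2, k3⟩ := U_pure hd.symm h2 h1 (m := m) (by
            rw [Finset.union_comm]
            intro S hS
            obtain ⟨S', h3, h4, h5⟩ := hA S hS.symm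
            exact ⟨S', h3, h4.symm, h5⟩) hm c1 c2
          refine ⟨S', k1, ?_, by rwa [Finset.union_comm]⟩
          rw [U_F1 hno]
          rcases k2 with k2 | k2
          · exact Or.inr k2.symm
          · exact Or.inl k2.symm
      have hR := zero_R1 h f
      have hQ : ∀ b, 2 ≤ b → (Qa (A1 ∪ A2) (ZF G (A1 ∪ A2)) (F1 G (A1 ∪ A2)) b ↔
          w = some (b + 1) ∧ t = true) := by
        intro b hb
        rw [zero_Q h f hp hb, gt]
      rw [gt] at hR
      by_cases hgood : t = true ∧ ∃ m, w = some m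
      · obtain ⟨rfl, m, rfl⟩ := hgood
        have hm : 2 ≤ m := by
          obtain ⟨X, hX, hcX⟩ := shrink (A := A1 ∪ A2) (S := A1 ∪ A2) (k := 1) (by simp) (by omega)
          obtain ⟨S', k1, k2, k3⟩ := h.ext X (f.one X (by omega))
          have := AM_le ((gw m).mpr rfl) k2
          omega
        have hc : disc (isoS G (A1 ∪ A2)).card (some m) true = .pure (m - 1) := by
          unfold disc
          simp only [hI]
          simp
        rw [hc]
        refine ⟨?_, ?_, ?_, ?_, ?_, ?_⟩
        · rw [hR]; simp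
        · intro b hb
          rw [hQ b hb]; simp; omega
        · intro b hb hq
          have : Pure (A1 ∪ A2) (F1 G (A1 ∪ A2)) := by
            have h5 := (hQ b hb).mp hq
            exact hp (b + 1) (by omega) ((gw _).mpr h5.1)
          simp [this]
        · intro a ha
          simp at ha
          omega
        · simp
        · simp
      · have hc : disc (isoS G (A1 ∪ A2)).card w t = .bad := by
          unfold disc
          rcases w with _ | m
          · rfl
          · have : t = false := by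
              cases t
              · rfl
              · exact absurd ⟨rfl, m, rfl⟩ hgood
            subst this
            simp only [hI]
            simp
        have hno2 : ∀ b, ¬ (w = some b ∧ t = true) := fun b hb => hgood ⟨hb.2, b, hb.1⟩
        rw [hc]
        refine ⟨?_, ?_, ?_, ?_, ?_, ?_⟩
        · rw [hR]; simp [hno2 2]
        · intro b hb
          rw [hQ b hb]; simp [hno2 (b + 1)]
        · intro b hb hq
          exact absurd ((hQ b hb).mp hq) (hno2 (b + 1))
        · simp
        · simp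
        · simp

end semantics

/-! ### The induction along the cotree -/

section induction

variable {G : SimpleGraph V} {A A1 A2 C K : Finset V} {m : ℕ}

/-- The invariant of the induction along the cotree. -/
structure Inv (G : SimpleGraph V) (A : Finset V) (s : State) : Prop where
  ne : A.Nonempty
  iso : (isoS G A).card = s.iso
  good : Good G A s.w s.t
  core : ∃ K C : Finset V, K ∪ C = A ∧ Disjoint K C ∧ (∀ x ∈ K, ∀ y ∈ K, x ≠ y → G.Adj x y) ∧
    (∀ x ∈ K, ∀ y ∈ C, G.Adj x y) ∧ (∀ y ∈ C, ∃ x ∈ C, x ≠ y ∧ ¬ G.Adj x y) ∧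
    (s.dom = true ↔ K.Nonempty) ∧ (s.core = .none ↔ C = ∅) ∧
    (C.Nonempty → Sem s.core C (Zm G C) (M1 G C))

theorem Inv_leaf (v : V) : Inv G {v} (state .leaf) := by
  have hno : ∀ x ∈ ({v} : Finset V), ∀ y ∈ ({v} : Finset V), ¬ G.Adj x y := by
    intro x hx y hy h
    rw [Finset.mem_singleton] at hx hy
    subst hx; subst hy
    exact G.loopless.irrefl _ h
  have hI := isoS_of_edgeless hno
  have hH : nonIso G {v} = ∅ := by
    rw [Finset.eq_empty_iff_forall_notMem]
    intro x hx
    obtain ⟨y, hy, hxy⟩ := (Finset.mem_filter.mp hx).2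
    exact hno x (nonIso_sub hx) y hy hxy
  refine ⟨Finset.singleton_nonempty v, ?_, ⟨fun _ => ⟨rfl, rfl⟩, ?_, ?_⟩, {v}, ∅, ?_, ?_, ?_, ?_, ?_,
    ?_, ?_, ?_⟩
  · rw [hI]; rfl
  · intro h; rw [hH] at h; exact absurd h Finset.not_nonempty_empty
  · intro h; rw [hH] at h; exact absurd h Finset.not_nonempty_empty
  · simp
  · simp
  · intro x hx y hy hxy
    rw [Finset.mem_singleton] at hx hy
    exact absurd (hx.trans hy.symm) hxy
  · intro x _ y hy; exact absurd hy (Finset.notMem_empty _)
  · intro y hy; exact absurd hy (Finset.notMem_empty _)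
  · simp [state]
  · simp [state]
  · intro h; exact absurd h Finset.not_nonempty_empty

theorem Inv_union {l r : Cotree} (hd : Disjoint A1 A2) (hno : ∀ x ∈ A1, ∀ y ∈ A2, ¬ G.Adj x y)
    (i1 : Inv G A1 (state l)) (i2 : Inv G A2 (state r)) : Inv G (A1 ∪ A2) (state (.union l r)) := by
  have hiso : (isoS G (A1 ∪ A2)).card = (state l).iso + (state r).iso := by
    rw [isoS_union hno, Finset.card_union_of_disjoint (hd.mono isoS_sub isoS_sub), i1.iso, i2.iso]
  have hgood := Good_union hd hno i1.good i2.good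
  have hnd : ∀ y ∈ A1 ∪ A2, ∃ x ∈ A1 ∪ A2, x ≠ y ∧ ¬ G.Adj x y := by
    intro y hy
    have hd' := Finset.disjoint_left.mp hd
    rcases Finset.mem_union.mp hy with h | h
    · obtain ⟨x, hx⟩ := i2.ne
      exact ⟨x, Finset.mem_union_right _ hx, fun e => hd' h (e ▸ hx), fun e => hno y h x hx e.symm⟩
    · obtain ⟨x, hx⟩ := i1.ne
      exact ⟨x, Finset.mem_union_left _ hx, fun e => hd' hx (e ▸ h), fun e => hno x hx y h e⟩
  have hS := Sem_disc hd hno i1.ne i2.ne hgood hnd
  rw [hiso] at hS
  have hne : (A1 ∪ A2).Nonempty := i1.ne.mono Finset.subset_union_left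
  refine ⟨hne, hiso, hgood, ∅, A1 ∪ A2, Finset.empty_union _, ?_, ?_, ?_, hnd, ?_, ?_, fun _ => hS⟩
  · simp
  · intro x hx; exact absurd hx (Finset.notMem_empty _)
  · intro x hx; exact absurd hx (Finset.notMem_empty _)
  · simp [state]
  · constructor
    · intro h; exact absurd h disc_ne
    · intro h; rw [h] at hne; exact absurd hne Finset.not_nonempty_empty

/-- The values of `w` and `t` for a join. -/
theorem joinW_spec {dom : Bool} {c : Core}
    (hn : ∀ v ∈ A, ∃ y ∈ A, G.Adj v y) (hne : A.Nonempty) (h2 : 2 ≤ A.card)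
    (hKC : K ∪ C = A) (hd : Disjoint K C)
    (hcl : ∀ x ∈ K, ∀ y ∈ K, x ≠ y → G.Adj x y) (hj : ∀ x ∈ K, ∀ y ∈ C, G.Adj x y)
    (hnd : ∀ y ∈ C, ∃ x ∈ C, x ≠ y ∧ ¬ G.Adj x y)
    (hdom : dom = true ↔ K.Nonempty) (hc : c = .none ↔ C = ∅)
    (hS : C.Nonempty → Sem c C (Zm G C) (M1 G C))
    (hJ : K = ∅ → c ≠ .edgeless ∧ (∀ m, AM A (ZF G A) m ↔
      (m = 2 ∧ R1 A (Zm G A) (M1 G A)) ∨ (3 ≤ m ∧ Qa A (Zm G A) (M1 G A) (m - 1))) ∧
      ∀ m, TT A (ZF G A) (F1 G A) m ↔ 2 ≤ m ∧ UU A (Zm G A) (M1 G A) (m - 1)) :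
    Good G A (joinW dom c).1 (joinW dom c).2 := by
  rcases K.eq_empty_or_nonempty with hK | hK
  · obtain ⟨hc1, hA, hT⟩ := hJ hK
    have hdf : dom = false := by
      cases dom
      · rfl
      · rw [hK] at hdom
        exact absurd (hdom.mp rfl) Finset.not_nonempty_empty
    have hCA : C = A := by rw [hK, Finset.empty_union] at hKC; exact hKC
    subst hCA
    have s := hS hne
    have hA' : ∀ m, AM C (ZF G C) m ↔ 2 ≤ m ∧ (c = .pure (m - 1) ∨ c = .mixed (m - 1)) := by
      intro m
      rw [hA, W_iff s hc1]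
    have hT' : ∀ m, TT C (ZF G C) (F1 G C) m ↔ 2 ≤ m ∧ c = .pure (m - 1) := by
      intro m
      rw [hT, UU_iff s]
      simp [hc1]
    have p1 := s.pos1
    have p2 := s.pos2
    have p3 := s.ne
    subst hdf
    refine Good_of_join hn hne ?_ ?_
    · intro m
      rw [hA' m]
      clear hA' hT' hA hT hS s hJ
      rcases c with _ | _ | a | a | _ <;> simp [joinW] at * <;> omega
    · intro m
      rw [hT' m]
      clear hA' hT' hA hT hS s hJ
      rcases c with _ | _ | a | a | _ <;> simp [joinW] at * <;> omega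
  · have hdt : dom = true := hdom.mpr hK
    subst hdt
    rcases C.eq_empty_or_nonempty with hC | hC
    · have hKA : K = A := by rw [hC, Finset.union_empty] at hKC; exact hKC
      subst hKA
      have hcn : c = .none := hc.mpr hC
      subst hcn
      refine Good_of_join hn hne ?_ ?_
      · intro m
        rw [clique_AM hcl h2]
        simp [joinW]
        omega
      · intro m
        rw [clique_TT hcl h2]
        simp [joinW]
        omega
    · have s := hS hC
      have f := fam hnd hC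
      have hA' : ∀ m, AM A (ZF G A) m ↔ 2 ≤ m ∧ ((c = .edgeless ∧ m - 1 = 1) ∨ c = .pure (m - 1)) := by
        intro m
        rw [← hKC, K_ZF hcl hj hK f, AM_K hd f hK, UU_iff s]
      have hT' : ∀ m, TT A (ZF G A) (F1 G A) m ↔
          2 ≤ m ∧ ((c = .edgeless ∧ m - 1 = 1) ∨ c = .pure (m - 1)) := by
        intro m
        rw [← hKC, K_ZF hcl hj hK f, K_F1 hcl hj hK f, TT_K hd f hK, UU_iff s]
      have p1 := s.pos1
      have p2 := s.pos2
      have p3 := s.ne
      refine Good_of_join hn hne ?_ ?_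
      · intro m
        rw [hA' m]
        clear hA' hT' hS s hJ
        rcases c with _ | _ | a | a | _ <;> simp [joinW] at * <;> omega
      · intro m
        rw [hT' m]
        clear hA' hT' hS s hJ
        rcases c with _ | _ | a | a | _ <;> simp [joinW] at * <;> omega

theorem Inv_join {l r : Cotree} (hd : Disjoint A1 A2) (hj : ∀ x ∈ A1, ∀ y ∈ A2, G.Adj x y)
    (i1 : Inv G A1 (state l)) (i2 : Inv G A2 (state r)) : Inv G (A1 ∪ A2) (state (.join l r)) := by
  have hne : (A1 ∪ A2).Nonempty := i1.ne.mono Finset.subset_union_left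
  have hn := join_noiso hj i1.ne i2.ne
  have hcard : 2 ≤ (A1 ∪ A2).card := by
    rw [Finset.card_union_of_disjoint hd]
    have := Finset.card_pos.mpr i1.ne
    have := Finset.card_pos.mpr i2.ne
    omega
  obtain ⟨K1, C1, e1, d1, cl1, j1, nd1, dom1, n1, s1⟩ := i1.core
  obtain ⟨K2, C2, e2, d2, cl2, j2, nd2, dom2, n2, s2⟩ := i2.core
  have k1 : K1 ⊆ A1 := e1 ▸ Finset.subset_union_left
  have k2 : K2 ⊆ A2 := e2 ▸ Finset.subset_union_left
  have c1 : C1 ⊆ A1 := e1 ▸ Finset.subset_union_right
  have c2 : C2 ⊆ A2 := e2 ▸ Finset.subset_union_right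
  have hU : (K1 ∪ K2) ∪ (C1 ∪ C2) = A1 ∪ A2 := by
    rw [Finset.union_union_union_comm, e1, e2]
  have hdis : Disjoint (K1 ∪ K2) (C1 ∪ C2) := by
    rw [Finset.disjoint_union_left, Finset.disjoint_union_right, Finset.disjoint_union_right]
    exact ⟨⟨d1, hd.mono k1 c2⟩, ⟨hd.symm.mono k2 c1, d2⟩⟩
  have hcl : ∀ x ∈ K1 ∪ K2, ∀ y ∈ K1 ∪ K2, x ≠ y → G.Adj x y := by
    intro x hx y hy hxy
    rcases Finset.mem_union.mp hx with hx | hx <;> rcases Finset.mem_union.mp hy with hy | hy
    · exact cl1 x hx y hy hxy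
    · exact hj x (k1 hx) y (k2 hy)
    · exact (hj y (k1 hy) x (k2 hx)).symm
    · exact cl2 x hx y hy hxy
  have hKC : ∀ x ∈ K1 ∪ K2, ∀ y ∈ C1 ∪ C2, G.Adj x y := by
    intro x hx y hy
    rcases Finset.mem_union.mp hx with hx | hx <;> rcases Finset.mem_union.mp hy with hy | hy
    · exact j1 x hx y hy
    · exact hj x (k1 hx) y (c2 hy)
    · exact (hj y (c1 hy) x (k2 hx)).symm
    · exact j2 x hx y hy
  have hnd : ∀ y ∈ C1 ∪ C2, ∃ x ∈ C1 ∪ C2, x ≠ y ∧ ¬ G.Adj x y := by
    intro y hy
    rcases Finset.mem_union.mp hy with hy | hy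
    · obtain ⟨x, hx, h⟩ := nd1 y hy
      exact ⟨x, Finset.mem_union_left _ hx, h⟩
    · obtain ⟨x, hx, h⟩ := nd2 y hy
      exact ⟨x, Finset.mem_union_right _ hx, h⟩
  have hdom : ((state l).dom || (state r).dom) = true ↔ (K1 ∪ K2).Nonempty := by
    rw [Bool.or_eq_true, dom1, dom2, Finset.union_nonempty]
  have hcn : (state l).core.mul (state r).core = .none ↔ C1 ∪ C2 = ∅ := by
    rw [mul_none, n1, n2, Finset.union_eq_empty]
  have hSem2 : C1.Nonempty → C2.Nonempty →
      Sem ((state l).core.mul (state r).core) (C1 ∪ C2) (Zm G (C1 ∪ C2)) (M1 G (C1 ∪ C2)) := by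
    intro h1 h2
    have hjC : ∀ x ∈ C1, ∀ y ∈ C2, G.Adj x y := fun x hx y hy => hj x (c1 hx) y (c2 hy)
    rw [join_Zm0 hjC h1 h2, join_M1 hjC h1 h2]
    exact Sem_mul (hd.mono c1 c2) (fam nd1 h1) (fam nd2 h2) (s1 h1) (s2 h2)
  have hSem : (C1 ∪ C2).Nonempty →
      Sem ((state l).core.mul (state r).core) (C1 ∪ C2) (Zm G (C1 ∪ C2)) (M1 G (C1 ∪ C2)) := by
    intro h
    rcases C1.eq_empty_or_nonempty with h1 | h1
    · have hc1 : (state l).core = .none := n1.mpr h1
      rw [h1, Finset.empty_union] at h ⊢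
      have : (state l).core.mul (state r).core = (state r).core := by
        rw [hc1]; cases (state r).core <;> rfl
      rw [this]
      exact s2 h
    · rcases C2.eq_empty_or_nonempty with h2 | h2
      · have hc2 : (state r).core = .none := n2.mpr h2
        rw [h2, Finset.union_empty] at h ⊢
        have : (state l).core.mul (state r).core = (state l).core := by
          rw [hc2]; cases (state l).core <;> rfl
        rw [this]
        exact s1 h
      · exact hSem2 h1 h2
  refine ⟨hne, ?_, ?_, K1 ∪ K2, C1 ∪ C2, hU, hdis, hcl, hKC, hnd, hdom, hcn, hSem⟩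
  · rw [isoS_eq hn]; rfl
  · refine joinW_spec hn hne hcard hU hdis hcl hKC hnd hdom hcn hSem ?_
    intro hK
    rw [Finset.union_eq_empty] at hK
    have ec1 : C1 = A1 := by rw [hK.1, Finset.empty_union] at e1; exact e1
    have ec2 : C2 = A2 := by rw [hK.2, Finset.empty_union] at e2; exact e2
    subst ec1; subst ec2
    have f1 := fam nd1 i1.ne
    have f2 := fam nd2 i2.ne
    refine ⟨mul_edgeless (s1 i1.ne).ne (s2 i2.ne).ne, ?_, ?_⟩
    · intro m
      rw [join_J0 hj i1.ne i2.ne, join_Zm0 hj i1.ne i2.ne, join_M1 hj i1.ne i2.ne]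
      exact AM_J hd f1 f2
    · intro m
      rw [join_J0 hj i1.ne i2.ne, join_Zm0 hj i1.ne i2.ne, join_M1 hj i1.ne i2.ne,
        join_J1 hj i1.ne i2.ne]
      exact TT_J hd f1 f2

theorem Inv_all {t : Cotree} (h : BuiltBy G A t) : Inv G A (state t) := by
  induction h with
  | leaf v => exact Inv_leaf v
  | union hA hB hd h ih1 ih2 => exact Inv_union hd h ih1 ih2
  | join hA hB hd h ih1 ih2 => exact Inv_join hd h ih1 ih2

theorem exists_cotree (hP : P4Free G) : ∀ (n : ℕ) (A : Finset V), A.card = n → A.Nonempty →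
    ∃ t, BuiltBy G A t := by
  intro n
  induction n using Nat.strong_induction_on with
  | _ n ih =>
    intro A hA hne
    by_cases h1 : A.card = 1
    · obtain ⟨v, rfl⟩ := Finset.card_eq_one.mp h1
      exact ⟨_, .leaf v⟩
    · have hpos := Finset.card_pos.mpr hne
      rcases dichotomy hP A.card A rfl (by omega) with
        ⟨A1, A2, hn1, hn2, hU, hd, hno⟩ | ⟨A1, A2, hn1, hn2, hU, hd, hno⟩
      · subst hU
        have c1 := Finset.card_pos.mpr hn1
        have c2 := Finset.card_pos.mpr hn2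
        rw [Finset.card_union_of_disjoint hd] at hA
        obtain ⟨t1, ht1⟩ := ih A1.card (by omega) A1 rfl hn1
        obtain ⟨t2, ht2⟩ := ih A2.card (by omega) A2 rfl hn2
        exact ⟨_, .union ht1 ht2 hd hno⟩
      · subst hU
        have c1 := Finset.card_pos.mpr hn1
        have c2 := Finset.card_pos.mpr hn2
        rw [Finset.card_union_of_disjoint hd] at hA
        obtain ⟨t1, ht1⟩ := ih A1.card (by omega) A1 rfl hn1
        obtain ⟨t2, ht2⟩ := ih A2.card (by omega) A2 rfl hn2
        exact ⟨_, .join ht1 ht2 hd (join_of_compl hd hno)⟩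

/-- Isolated vertices do not matter. -/
theorem AM_iso : AM A (ZF G A) m ↔ AM (nonIso G A) (ZF G (nonIso G A)) m := by
  have hno : ∀ x ∈ isoS G A, ∀ y ∈ nonIso G A, ¬ G.Adj x y := fun x hx y hy =>
    isoS_not hx (nonIso_sub hy)
  have hII : ∀ x ∈ isoS G A, ∀ y ∈ isoS G A, ¬ G.Adj x y := fun x hx y hy =>
    isoS_not hx (isoS_sub hy)
  have hd : Disjoint (isoS G A) (nonIso G A) := iso_disj
  have hU : isoS G A ∪ nonIso G A = A := iso_union
  have hZI : ∀ S, ZF G (isoS G A) S ↔ (isoS G A \ S).card = 0 := by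
    intro S
    constructor
    · intro h
      refine card_of_sub fun v hv => ?_
      cases h v hv with
      | init _ hS => exact hS
      | force hu hw huw _ => exact absurd huw (hII _ hu.mem _ hw)
    · intro h v hv
      exact .init hv (sub_of_card h hv)
  have hZ : ∀ S, ZF G A S ↔ (isoS G A \ S).card = 0 ∧ ZF G (nonIso G A) S := by
    intro S
    rw [← hZI, ← ZF_union hno, hU]
  have hc : ∀ S, (A \ S).card = (isoS G A \ S).card + (nonIso G A \ S).card := by
    intro S
    rw [← sdiff_union_card hd, hU]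
  constructor
  · intro h X hX
    obtain ⟨S, h1, h2, h3, h4⟩ := Iset hd X (j := 0) (by omega)
    obtain ⟨S', h5, h6, h7⟩ := h S ((hZ S).mpr ⟨h1, hX.mono' h3⟩)
    obtain ⟨h8, h9⟩ := (hZ S').mp h6
    have := hc S'
    exact ⟨S' ∩ nonIso G A, h4 S' h5, h9.inter, by rw [Finset.sdiff_inter_self_right]; omega⟩
  · intro h S hS
    obtain ⟨h1, h2⟩ := (hZ S).mp hS
    obtain ⟨X, h3, h4, h5⟩ := h S h2
    obtain ⟨S', g1, g2, g3, g4, g5, g6, g7⟩ := glue hd (subset_refl S) h3
    refine ⟨S', g1, (hZ S').mpr ⟨by omega, h4.mono' g3⟩, ?_⟩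
    rw [hc]
    omega

end induction

section main

variable [Fintype V] {G : SimpleGraph V} {m : ℕ}

theorem blue_iff {S : Finset V} {v : V} : Blue G S v ↔ BlueIn G Finset.univ S v := by
  constructor
  · intro h
    induction h with
    | init hv => exact .init (Finset.mem_univ _) hv
    | force hu huw h ihu ih => exact .force ihu (Finset.mem_univ _) huw fun x _ hx hxw => ih x hx hxw
  · intro h
    induction h with
    | init _ hv => exact .init hv
    | force hu hw huw h ihu ih =>
      exact .force ihu huw fun x hx hxw => ih x (Finset.mem_univ _) hx hxw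

theorem zfs_iff {S : Finset V} : IsZFS G S ↔ ZF G Finset.univ S :=
  ⟨fun h v _ => blue_iff.mp (h v), fun h v => blue_iff.mpr (h v (Finset.mem_univ _))⟩

theorem Z_of_AM (h : AM Finset.univ (ZF G Finset.univ) m) :
    zeroForcingNumber G + m = Fintype.card V := by
  have hc : ∀ S : Finset V, S.card + (Finset.univ \ S).card = Fintype.card V := by
    intro S
    have := Finset.card_sdiff_add_card_eq_card (Finset.subset_univ S)
    rw [Finset.card_univ] at this
    omega
  obtain ⟨S0, -, h1, h2⟩ := h Finset.univ (fun v hv => .init hv hv)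
  have e : zeroForcingNumber G = S0.card := by
    unfold zeroForcingNumber
    refine le_antisymm (Nat.sInf_le ⟨S0, zfs_iff.mpr h1, rfl⟩) ?_
    refine le_csInf ⟨_, S0, zfs_iff.mpr h1, rfl⟩ ?_
    rintro k ⟨T, hT, rfl⟩
    obtain ⟨T', h3, h4, h5⟩ := h T (zfs_iff.mp hT)
    have c1 := hc S0
    have c2 := hc T
    have c3 := card_mono_sdiff (A := Finset.univ) h3
    omega
  have := hc S0
  omega

theorem wf_iff : WellForced G ↔ ∃ m, AM Finset.univ (ZF G Finset.univ) m := by
  have hc : ∀ S : Finset V, S.card + (Finset.univ \ S).card = Fintype.card V := by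
    intro S
    have := Finset.card_sdiff_add_card_eq_card (Finset.subset_univ S)
    rw [Finset.card_univ] at this
    omega
  constructor
  · intro hW
    refine ⟨Fintype.card V - zeroForcingNumber G, ?_⟩
    have key : ∀ (n : ℕ) (S : Finset V), S.card = n → IsZFS G S →
        ∃ S', S' ⊆ S ∧ IsMinimalZFS G S' := by
      intro n
      induction n using Nat.strong_induction_on with
      | _ n ih =>
        intro S hS hZ
        by_cases hmin : ∀ T : Finset V, T ⊂ S → ¬ IsZFS G T
        · exact ⟨S, subset_rfl, hZ, hmin⟩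
        · push Not at hmin
          obtain ⟨T, hT, hTZ⟩ := hmin
          obtain ⟨S', h1, h2⟩ := ih T.card (hS ▸ Finset.card_lt_card hT) T rfl hTZ
          exact ⟨S', h1.trans hT.subset, h2⟩
    intro S hS
    obtain ⟨S', h1, h2⟩ := key S.card S rfl (zfs_iff.mpr hS)
    have h3 := hW S' h2
    have h4 := hc S'
    exact ⟨S', h1, zfs_iff.mp h2.1, by omega⟩
  · rintro ⟨m, hm⟩ S hS
    have h1 := Z_of_AM hm
    obtain ⟨S', h2, h3, h4⟩ := hm S (zfs_iff.mp hS.1)
    have h5 := hc S'
    rcases h2.eq_or_ssubset with h | h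
    · rw [← h]; omega
    · exact absurd (zfs_iff.mpr h3) (hS.2 S' h)

/-- Every finite nonempty graph without induced `P_4` is built by some cotree; and for every cotree
`t` that builds `G`, all minimal zero forcing sets of `G` are minimum if and only if the recursion
gives a number `(state t).w = some m`; this number is then `m = |V| - Z(G)`. -/
theorem main_result (G : SimpleGraph V) [Nonempty V] :
    (¬ InducedP4 G → ∃ t, BuiltBy G Finset.univ t) ∧
    ∀ t, BuiltBy G Finset.univ t →
      (WellForced G ↔ ∃ m, (state t).w = some m) ∧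
      ∀ m, (state t).w = some m → zeroForcingNumber G + m = Fintype.card V := by
  constructor
  · intro hP
    refine exists_cotree ?_ _ Finset.univ rfl Finset.univ_nonempty
    intro a b c d hab hbc hcd hac hbd
    by_contra hcon
    push Not at hcon
    obtain ⟨h1, h2, h3⟩ := hcon
    refine hP ⟨a, b, c, d, hac, ?_, hbd, hab, hbc, hcd, h1, h2, h3⟩
    rintro rfl
    exact h1 hcd.symm
  · intro t ht
    have hI := Inv_all ht
    have key : ∀ m, AM Finset.univ (ZF G Finset.univ) m ↔ (state t).w = some m := by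
      intro m
      rw [AM_iso]
      rcases (nonIso G Finset.univ).eq_empty_or_nonempty with e | e
      · rw [(hI.good.empty e).1, e]
        constructor
        · intro h
          obtain ⟨S', -, -, h3⟩ := h ∅ (fun v hv => absurd hv (Finset.notMem_empty _))
          simp at h3
          rw [h3]
        · intro h S _
          refine ⟨S, subset_rfl, fun v hv => absurd hv (Finset.notMem_empty _), ?_⟩
          simp at h ⊢
          exact h
      · exact hI.good.hw e m
    refine ⟨?_, fun m hm => Z_of_AM ((key m).mpr hm)⟩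
    rw [wf_iff]
    exact exists_congr key

end main

end Pool.Agent.H81.CG
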