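import Pool.Agent.H81.WellForcedCograph

/-!
# Uniform families on joins
-/

set_option linter.unusedSectionVars false
set_option linter.unusedVariables false

namespace Pool.Agent.H81.WF

open Classical

variable {V : Type*} {A A1 A2 S S' : Finset V} {P0 P1 Q0 Q1 : Finset V → Prop} {a m : ℕ}

/-- Every member contains a member which misses exactly `m` elements of `A`. -/
def AM (A : Finset V) (P : Finset V → Prop) (m : ℕ) : Prop :=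
  ∀ S, P S → ∃ S', S' ⊆ S ∧ P S' ∧ (A \ S').card = m

structure Fam (A : Finset V) (P0 P1 : Finset V → Prop) : Prop where
  mono0 : ∀ S S', P0 S → S ∩ A ⊆ S' → P0 S'
  mono1 : ∀ S S', P1 S → S ∩ A ⊆ S' → P1 S'
  le : ∀ S, P1 S → P0 S
  one : ∀ S, (A \ S).card ≤ 1 → P1 S
  ne : A.Nonempty

def R1 (A : Finset V) (P0 P1 : Finset V → Prop) : Prop :=
  (∀ S, P1 S → (A \ S).card ≤ 1) ∧ ∀ S, P0 S → (A \ S).card ≤ 2

def Qa (A : Finset V) (P0 P1 : Finset V → Prop) (a : ℕ) : Prop :=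
  (∀ S, P1 S → 2 ≤ (A \ S).card → ∃ S', S' ⊆ S ∧ P1 S' ∧ (A \ S').card = a) ∧
  (∀ S, P0 S → ¬ P1 S → ∃ S', S' ⊆ S ∧ P0 S' ∧ (A \ S').card = a + 1)

def Pure (A : Finset V) (P1 : Finset V → Prop) : Prop :=
  ∀ S, (A \ S).card = 1 → ∃ S', S' ⊆ S ∧ P1 S' ∧ (A \ S').card = 2

theorem between (h : S' ⊆ S) {k : ℕ} (h1 : (A \ S).card ≤ k) (h2 : k ≤ (A \ S').card) :
    ∃ S'', S' ⊆ S'' ∧ S'' ⊆ S ∧ (A \ S'').card = k := by
  obtain ⟨D, hD1, hD2, hD⟩ := Finset.exists_subsuperset_card_eq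
    (Finset.sdiff_subset_sdiff (subset_refl A) h) h1 h2
  refine ⟨S \ D, ?_, Finset.sdiff_subset, ?_⟩
  · intro x hx
    exact Finset.mem_sdiff.mpr ⟨h hx, fun hxD => (Finset.mem_sdiff.mp (hD2 hxD)).2 hx⟩
  · rw [← hD]
    congr 1
    ext x
    simp only [Finset.mem_sdiff, not_and, not_not]
    constructor
    · rintro ⟨hA, hx⟩
      by_cases hxS : x ∈ S
      · exact hx hxS
      · exact hD1 (Finset.mem_sdiff.mpr ⟨hA, hxS⟩)
    · intro hx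
      exact ⟨(Finset.mem_sdiff.mp (hD2 hx)).1, fun _ => hx⟩

/-- Shrink `S` inside `A`. -/
theorem shrink {k : ℕ} (h1 : (A \ S).card ≤ k) (h2 : k ≤ A.card) :
    ∃ X, X ⊆ S ∧ (A \ X).card = k := by
  obtain ⟨X, -, h, h'⟩ := between (A := A) (S := S) (S' := ∅) (Finset.empty_subset _) h1
    (by simpa using h2)
  exact ⟨X, h, h'⟩

theorem glue (hd : Disjoint A1 A2) {X Y : Finset V} (hX : X ⊆ S) (hY : Y ⊆ S) :
    ∃ S', S' ⊆ S ∧ X ∩ A1 ⊆ S' ∧ Y ∩ A2 ⊆ S' ∧ (A1 \ S').card = (A1 \ X).card ∧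
      (A2 \ S').card = (A2 \ Y).card ∧ S' ∩ A1 ⊆ X ∧ S' ∩ A2 ⊆ Y := by
  have hd' := Finset.disjoint_left.mp hd
  refine ⟨X ∩ A1 ∪ Y ∩ A2, ?_, Finset.subset_union_left, Finset.subset_union_right, ?_, ?_, ?_, ?_⟩
  · exact Finset.union_subset (Finset.inter_subset_left.trans hX) (Finset.inter_subset_left.trans hY)
  · congr 1
    ext x
    simp only [Finset.mem_sdiff, Finset.mem_union, Finset.mem_inter]
    constructor
    · rintro ⟨h, hn⟩; exact ⟨h, fun hx => hn (Or.inl ⟨hx, h⟩)⟩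
    · rintro ⟨h, hn⟩; exact ⟨h, fun hx => hx.elim (fun h1 => hn h1.1) (fun h1 => hd' h h1.2)⟩
  · congr 1
    ext x
    simp only [Finset.mem_sdiff, Finset.mem_union, Finset.mem_inter]
    constructor
    · rintro ⟨h, hn⟩; exact ⟨h, fun hx => hn (Or.inr ⟨hx, h⟩)⟩
    · rintro ⟨h, hn⟩; exact ⟨h, fun hx => hx.elim (fun h1 => hd' h1.2 h) (fun h1 => hn h1.1)⟩
  · intro x hx
    simp only [Finset.mem_union, Finset.mem_inter] at hx
    rcases hx with ⟨h1 | h1, h2⟩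
    · exact h1.1
    · exact absurd h1.2 (hd' h2)
  · intro x hx
    simp only [Finset.mem_union, Finset.mem_inter] at hx
    rcases hx with ⟨h1 | h1, h2⟩
    · exact absurd h2 (hd' h1.2)
    · exact h1.1

theorem card_mono_sdiff (h : S' ⊆ S) : (A \ S).card ≤ (A \ S').card :=
  Finset.card_le_card (Finset.sdiff_subset_sdiff subset_rfl h)

theorem card_mono_inter (h : S' ∩ A ⊆ S) : (A \ S).card ≤ (A \ S').card := by
  refine Finset.card_le_card fun x hx => ?_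
  rw [Finset.mem_sdiff] at hx ⊢
  exact ⟨hx.1, fun h' => hx.2 (h (Finset.mem_inter.mpr ⟨h', hx.1⟩))⟩

def J0 (A1 A2 : Finset V) (P0 P1 Q0 Q1 : Finset V → Prop) (S : Finset V) : Prop :=
  ((P0 S ∧ (A2 \ S).card = 0) ∨ (P1 S ∧ (A2 \ S).card ≤ 1)) ∨
    ((Q0 S ∧ (A1 \ S).card = 0) ∨ (Q1 S ∧ (A1 \ S).card ≤ 1))

def J1 (A1 A2 : Finset V) (P1 Q1 : Finset V → Prop) (S : Finset V) : Prop :=
  (P1 S ∧ (A2 \ S).card = 0) ∨ (Q1 S ∧ (A1 \ S).card = 0)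

theorem J0_comm : J0 A1 A2 P0 P1 Q0 Q1 = J0 A2 A1 Q0 Q1 P0 P1 := by
  funext S; exact propext or_comm

theorem J1_comm : J1 A1 A2 P1 Q1 = J1 A2 A1 Q1 P1 := by
  funext S; exact propext or_comm

section

variable (hd : Disjoint A1 A2) (f : Fam A1 P0 P1) (g : Fam A2 Q0 Q1)

include hd f g

/-- Combine `X` on `A1` with the full set on `A2`. -/
theorem full2 (X : Finset V) : ∃ S, (A1 \ S).card = (A1 \ X).card ∧ (A2 \ S).card = 0 ∧
    (∀ X', X' ⊆ S → X' ∩ A1 ⊆ X) ∧ (P0 X → P0 S) ∧ (P1 X → P1 S) ∧ (P1 S → P1 X) := by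
  obtain ⟨S, -, h1, h2, h3, h4, h5, h6⟩ := glue hd (S := X ∪ A2) (X := X) (Y := A2)
    Finset.subset_union_left Finset.subset_union_right
  refine ⟨S, h3, by rw [h4]; simp, fun X' h => (Finset.inter_subset_inter_right h).trans h5,
    fun h => f.mono0 _ _ h h1, fun h => f.mono1 _ _ h h1, fun h => f.mono1 _ _ h h5⟩

theorem famJ : Fam (A1 ∪ A2) (J0 A1 A2 P0 P1 Q0 Q1) (J1 A1 A2 P1 Q1) := by
  have e1 : ∀ {S S' : Finset V}, S ∩ (A1 ∪ A2) ⊆ S' → S ∩ A1 ⊆ S' := fun h =>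
    (Finset.inter_subset_inter_left Finset.subset_union_left).trans h
  have e2 : ∀ {S S' : Finset V}, S ∩ (A1 ∪ A2) ⊆ S' → S ∩ A2 ⊆ S' := fun h =>
    (Finset.inter_subset_inter_left Finset.subset_union_right).trans h
  refine ⟨?_, ?_, ?_, ?_, f.ne.mono Finset.subset_union_left⟩
  · intro S S' h hS
    have c1 := card_mono_inter (e1 hS)
    have c2 := card_mono_inter (e2 hS)
    rcases h with (⟨h, h'⟩ | ⟨h, h'⟩) | (⟨h, h'⟩ | ⟨h, h'⟩)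
    · exact Or.inl (Or.inl ⟨f.mono0 _ _ h (e1 hS), by omega⟩)
    · exact Or.inl (Or.inr ⟨f.mono1 _ _ h (e1 hS), by omega⟩)
    · exact Or.inr (Or.inl ⟨g.mono0 _ _ h (e2 hS), by omega⟩)
    · exact Or.inr (Or.inr ⟨g.mono1 _ _ h (e2 hS), by omega⟩)
  · intro S S' h hS
    have c1 := card_mono_inter (e1 hS)
    have c2 := card_mono_inter (e2 hS)
    rcases h with ⟨h, h'⟩ | ⟨h, h'⟩
    · exact Or.inl ⟨f.mono1 _ _ h (e1 hS), by omega⟩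
    · exact Or.inr ⟨g.mono1 _ _ h (e2 hS), by omega⟩
  · rintro S (⟨h, h'⟩ | ⟨h, h'⟩)
    · exact Or.inl (Or.inr ⟨h, by omega⟩)
    · exact Or.inr (Or.inr ⟨h, by omega⟩)
  · intro S hS
    rw [sdiff_union_card hd] at hS
    by_cases h : (A2 \ S).card = 0
    · exact Or.inl ⟨f.one S (by omega), h⟩
    · exact Or.inr ⟨g.one S (by omega), by omega⟩

theorem R1_left (h : R1 (A1 ∪ A2) (J0 A1 A2 P0 P1 Q0 Q1) (J1 A1 A2 P1 Q1)) : R1 A1 P0 P1 := by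
  constructor
  · intro X hX
    obtain ⟨S, h1, h2, h3, h4, h5, h6⟩ := full2 hd f g X
    have := h.1 S (Or.inl ⟨h5 hX, h2⟩)
    rw [sdiff_union_card hd] at this
    omega
  · intro X hX
    obtain ⟨S, h1, h2, h3, h4, h5, h6⟩ := full2 hd f g X
    have := h.2 S (Or.inl (Or.inl ⟨h4 hX, h2⟩))
    rw [sdiff_union_card hd] at this
    omega

theorem R1_join : R1 (A1 ∪ A2) (J0 A1 A2 P0 P1 Q0 Q1) (J1 A1 A2 P1 Q1) ↔
    R1 A1 P0 P1 ∧ R1 A2 Q0 Q1 := by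
  constructor
  · intro h
    refine ⟨R1_left hd f g h, R1_left hd.symm g f ?_⟩
    rwa [J0_comm, J1_comm, Finset.union_comm] at h
  · rintro ⟨h1, h2⟩
    constructor
    · rintro S (⟨h, h'⟩ | ⟨h, h'⟩)
      · have := h1.1 S h
        rw [sdiff_union_card hd]; omega
      · have := h2.1 S h
        rw [sdiff_union_card hd]; omega
    · rintro S ((⟨h, h'⟩ | ⟨h, h'⟩) | (⟨h, h'⟩ | ⟨h, h'⟩))
      · have := h1.2 S h
        rw [sdiff_union_card hd]; omega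
      · have := h1.1 S h
        rw [sdiff_union_card hd]; omega
      · have := h2.2 S h
        rw [sdiff_union_card hd]; omega
      · have := h2.1 S h
        rw [sdiff_union_card hd]; omega

theorem Pure_left (h : Pure (A1 ∪ A2) (J1 A1 A2 P1 Q1)) : Pure A1 P1 := by
  intro X hX
  obtain ⟨S, h1, h2, h3, h4, h5, h6⟩ := full2 hd f g X
  obtain ⟨S', hS', hJ, hc⟩ := h S (by rw [sdiff_union_card hd]; omega)
  rw [sdiff_union_card hd] at hc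
  have c1 := card_mono_sdiff (A := A1) hS'
  rcases hJ with ⟨h7, h8⟩ | ⟨h7, h8⟩
  · refine ⟨S' ∩ A1, h3 S' hS', f.mono1 _ _ h7 subset_rfl, ?_⟩
    rw [Finset.sdiff_inter_self_right]
    omega
  · omega

theorem Pure_join : Pure (A1 ∪ A2) (J1 A1 A2 P1 Q1) ↔ Pure A1 P1 ∧ Pure A2 Q1 := by
  constructor
  · intro h
    refine ⟨Pure_left hd f g h, Pure_left hd.symm g f ?_⟩
    rwa [J1_comm, Finset.union_comm] at h
  · rintro ⟨h1, h2⟩ S hS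
    rw [sdiff_union_card hd] at hS
    rcases (by omega : (A1 \ S).card = 1 ∧ (A2 \ S).card = 0 ∨
      (A1 \ S).card = 0 ∧ (A2 \ S).card = 1) with ⟨c1, c2⟩ | ⟨c1, c2⟩
    · obtain ⟨X, hX, hP, hc⟩ := h1 S c1
      obtain ⟨S', g1, g2, g3, g4, g5, -, -⟩ := glue hd hX (subset_refl S)
      exact ⟨S', g1, Or.inl ⟨f.mono1 _ _ hP g2, by omega⟩, by rw [sdiff_union_card hd]; omega⟩
    · obtain ⟨X, hX, hP, hc⟩ := h2 S c2
      obtain ⟨S', g1, g2, g3, g4, g5, -, -⟩ := glue hd (subset_refl S) hX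
      exact ⟨S', g1, Or.inr ⟨g.mono1 _ _ hP g3, by omega⟩, by rw [sdiff_union_card hd]; omega⟩

theorem Q_left (ha : 2 ≤ a) (h : Qa (A1 ∪ A2) (J0 A1 A2 P0 P1 Q0 Q1) (J1 A1 A2 P1 Q1) a) :
    Qa A1 P0 P1 a := by
  constructor
  · intro X hX h2X
    obtain ⟨S, h1, h2, h3, h4, h5, h6⟩ := full2 hd f g X
    obtain ⟨S', hS', hJ, hc⟩ := h.1 S (Or.inl ⟨h5 hX, h2⟩) (by rw [sdiff_union_card hd]; omega)
    rw [sdiff_union_card hd] at hc
    have c1 := card_mono_sdiff (A := A1) hS'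
    rcases hJ with ⟨h7, h8⟩ | ⟨h7, h8⟩
    · refine ⟨S' ∩ A1, h3 S' hS', f.mono1 _ _ h7 subset_rfl, ?_⟩
      rw [Finset.sdiff_inter_self_right]
      omega
    · omega
  · intro X hX hnX
    obtain ⟨S, h1, h2, h3, h4, h5, h6⟩ := full2 hd f g X
    have hX2 : 2 ≤ (A1 \ X).card := by
      by_contra hcon
      exact hnX (f.one X (by omega))
    have hnJ : ¬ J1 A1 A2 P1 Q1 S := by
      rintro (⟨h7, h8⟩ | ⟨h7, h8⟩)
      · exact hnX (h6 h7)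
      · omega
    obtain ⟨S', hS', hJ, hc⟩ := h.2 S (Or.inl (Or.inl ⟨h4 hX, h2⟩)) hnJ
    rw [sdiff_union_card hd] at hc
    have c1 := card_mono_sdiff (A := A1) hS'
    have hno : ¬ P1 S' := fun h7 => hnX (f.mono1 _ _ h7 (h3 S' hS'))
    rcases hJ with (⟨h7, h8⟩ | ⟨h7, h8⟩) | (⟨h7, h8⟩ | ⟨h7, h8⟩)
    · refine ⟨S' ∩ A1, h3 S' hS', f.mono0 _ _ h7 subset_rfl, ?_⟩
      rw [Finset.sdiff_inter_self_right]
      omega
    · exact absurd h7 hno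
    · omega
    · omega

theorem Q_suff_aux (ha : 2 ≤ a) (h1 : Qa A1 P0 P1 a) (hp : Pure A1 P1) (h2 : Qa A2 Q0 Q1 a)
    {S : Finset V} (hS : (P0 S ∧ (A2 \ S).card = 0) ∨ (P1 S ∧ (A2 \ S).card ≤ 1))
    (hn : ¬ J1 A1 A2 P1 Q1 S) :
    ∃ S', S' ⊆ S ∧ J0 A1 A2 P0 P1 Q0 Q1 S' ∧ ((A1 ∪ A2) \ S').card = a + 1 := by
  rcases hS with ⟨h3, h4⟩ | ⟨h3, h4⟩
  · obtain ⟨X, hX, hP, hc⟩ := h1.2 S h3 (fun h => hn (Or.inl ⟨h, h4⟩))
    obtain ⟨S', g1, g2, g3, g4, g5, -, -⟩ := glue hd hX (subset_refl S)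
    exact ⟨S', g1, Or.inl (Or.inl ⟨f.mono0 _ _ hP g2, by omega⟩),
      by rw [sdiff_union_card hd]; omega⟩
  · have h5 : (A2 \ S).card = 1 := by
      by_contra hcon
      exact hn (Or.inl ⟨h3, by omega⟩)
    have h6 : (A1 \ S).card ≠ 0 := fun h0 => hn (Or.inr ⟨g.one S (by omega), h0⟩)
    obtain ⟨X, hX, hP, hc⟩ : ∃ X, X ⊆ S ∧ P1 X ∧ (A1 \ X).card = a := by
      by_cases h7 : 2 ≤ (A1 \ S).card
      · exact h1.1 S h3 h7
      · obtain ⟨Y, hY, hPY, hcY⟩ := hp S (by omega)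
        obtain ⟨X, hX, hP, hc⟩ := h1.1 Y hPY (by omega)
        exact ⟨X, hX.trans hY, hP, hc⟩
    obtain ⟨S', g1, g2, g3, g4, g5, -, -⟩ := glue hd hX (subset_refl S)
    exact ⟨S', g1, Or.inl (Or.inr ⟨f.mono1 _ _ hP g2, by omega⟩),
      by rw [sdiff_union_card hd]; omega⟩

theorem Q_suff_aux2 (ha : 2 ≤ a) (h1 : Qa A1 P0 P1 a) (hp : Pure A1 P1) (h2 : Qa A2 Q0 Q1 a)
    {S : Finset V} (hS : (Q0 S ∧ (A1 \ S).card = 0) ∨ (Q1 S ∧ (A1 \ S).card ≤ 1))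
    (hn : ¬ J1 A1 A2 P1 Q1 S) :
    ∃ S', S' ⊆ S ∧ J0 A1 A2 P0 P1 Q0 Q1 S' ∧ ((A1 ∪ A2) \ S').card = a + 1 := by
  rcases hS with ⟨h3, h4⟩ | ⟨h3, h4⟩
  · obtain ⟨X, hX, hP, hc⟩ := h2.2 S h3 (fun h => hn (Or.inr ⟨h, h4⟩))
    obtain ⟨S', g1, g2, g3, g4, g5, -, -⟩ := glue hd (subset_refl S) hX
    exact ⟨S', g1, Or.inr (Or.inl ⟨g.mono0 _ _ hP g3, by omega⟩),
      by rw [sdiff_union_card hd]; omega⟩
  · have h5 : (A1 \ S).card = 1 := by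
      by_contra hcon
      exact hn (Or.inr ⟨h3, by omega⟩)
    by_cases h7 : 2 ≤ (A2 \ S).card
    · obtain ⟨X, hX, hP, hc⟩ := h2.1 S h3 h7
      obtain ⟨S', g1, g2, g3, g4, g5, -, -⟩ := glue hd (subset_refl S) hX
      exact ⟨S', g1, Or.inr (Or.inr ⟨g.mono1 _ _ hP g3, by omega⟩),
        by rw [sdiff_union_card hd]; omega⟩
    · exact Q_suff_aux hd f g ha h1 hp h2 (Or.inr ⟨f.one S (by omega), by omega⟩) hn

theorem Q_suff (ha : 2 ≤ a) (h1 : Qa A1 P0 P1 a) (hp : Pure A1 P1) (h2 : Qa A2 Q0 Q1 a) :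
    Qa (A1 ∪ A2) (J0 A1 A2 P0 P1 Q0 Q1) (J1 A1 A2 P1 Q1) a := by
  constructor
  · rintro S (⟨h3, h4⟩ | ⟨h3, h4⟩) hc2
    · rw [sdiff_union_card hd] at hc2
      obtain ⟨X, hX, hP, hc⟩ := h1.1 S h3 (by omega)
      obtain ⟨S', g1, g2, g3, g4, g5, -, -⟩ := glue hd hX (subset_refl S)
      exact ⟨S', g1, Or.inl ⟨f.mono1 _ _ hP g2, by omega⟩, by rw [sdiff_union_card hd]; omega⟩
    · rw [sdiff_union_card hd] at hc2
      obtain ⟨X, hX, hP, hc⟩ := h2.1 S h3 (by omega)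
      obtain ⟨S', g1, g2, g3, g4, g5, -, -⟩ := glue hd (subset_refl S) hX
      exact ⟨S', g1, Or.inr ⟨g.mono1 _ _ hP g3, by omega⟩, by rw [sdiff_union_card hd]; omega⟩
  · rintro S (h3 | h3) hn
    · exact Q_suff_aux hd f g ha h1 hp h2 h3 hn
    · exact Q_suff_aux2 hd f g ha h1 hp h2 h3 hn

theorem Q_pure (ha : 2 ≤ a) (h : Qa (A1 ∪ A2) (J0 A1 A2 P0 P1 Q0 Q1) (J1 A1 A2 P1 Q1) a) :
    Pure A1 P1 ∨ Pure A2 Q1 := by
  by_contra hcon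
  push Not at hcon
  obtain ⟨hp1, hp2⟩ := hcon
  unfold Pure at hp1 hp2
  push Not at hp1 hp2
  obtain ⟨X, hX, hX'⟩ := hp1
  obtain ⟨Y, hY, hY'⟩ := hp2
  obtain ⟨S, -, g2, g3, g4, g5, g6, g7⟩ := glue hd (S := X ∪ Y) (X := X) (Y := Y)
    Finset.subset_union_left Finset.subset_union_right
  have hP : P1 S := f.one S (by omega)
  obtain ⟨S', hS', hJ, hc⟩ := h.2 S (Or.inl (Or.inr ⟨hP, by omega⟩))
    (by rintro (⟨-, h⟩ | ⟨-, h⟩) <;> omega)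
  rw [sdiff_union_card hd] at hc
  have c1 := card_mono_sdiff (A := A1) hS'
  have c2 := card_mono_sdiff (A := A2) hS'
  rcases hJ with (⟨h7, h8⟩ | ⟨h7, h8⟩) | (⟨h7, h8⟩ | ⟨h7, h8⟩)
  · omega
  · obtain ⟨Z, hZ1, hZ2, hZ3⟩ := between (A := A1) (S' := S' ∩ A1) (S := X) (k := 2)
      ((Finset.inter_subset_inter_right hS').trans g6) (by omega)
      (by rw [Finset.sdiff_inter_self_right]; omega)
    exact hX' Z hZ2 (f.mono1 _ _ h7 hZ1) hZ3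
  · omega
  · obtain ⟨Z, hZ1, hZ2, hZ3⟩ := between (A := A2) (S' := S' ∩ A2) (S := Y) (k := 2)
      ((Finset.inter_subset_inter_right hS').trans g7) (by omega)
      (by rw [Finset.sdiff_inter_self_right]; omega)
    exact hY' Z hZ2 (g.mono1 _ _ h7 hZ1) hZ3

theorem Q_join (ha : 2 ≤ a) : Qa (A1 ∪ A2) (J0 A1 A2 P0 P1 Q0 Q1) (J1 A1 A2 P1 Q1) a ↔
    Qa A1 P0 P1 a ∧ Qa A2 Q0 Q1 a ∧ (Pure A1 P1 ∨ Pure A2 Q1) := by
  constructor
  · intro h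
    refine ⟨Q_left hd f g ha h, Q_left hd.symm g f ha ?_, Q_pure hd f g ha h⟩
    rwa [J0_comm, J1_comm, Finset.union_comm] at h
  · rintro ⟨h1, h2, h3 | h3⟩
    · exact Q_suff hd f g ha h1 h3 h2
    · rw [J0_comm, J1_comm, Finset.union_comm]
      exact Q_suff hd.symm g f ha h2 h3 h1

end

end Pool.Agent.H81.WF
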