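import Pool.Agent.H81.CographRec

/-!
# Uniform families on joins, second part
-/

set_option linter.unusedSectionVars false
set_option linter.unusedVariables false

namespace Pool.Agent.H81.WF

open Classical

variable {V : Type*} {A A1 A2 K C S S' : Finset V} {P0 P1 Q0 Q1 : Finset V → Prop} {a m : ℕ}

def TT (A : Finset V) (P0 P1 : Finset V → Prop) (m : ℕ) : Prop :=
  AM A P0 m ∧ 1 ≤ m ∧ AM A P1 (m - 1)

def UU (A : Finset V) (P0 P1 : Finset V → Prop) (a : ℕ) : Prop :=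
  (a = 1 ∧ R1 A P0 P1) ∨ (2 ≤ a ∧ Qa A P0 P1 a ∧ Pure A P1)

theorem UU.pos (h : UU A P0 P1 a) : 1 ≤ a := by
  rcases h with h | h <;> omega

theorem Fam.cardpos (f : Fam A P0 P1) : 1 ≤ A.card := Finset.card_pos.mpr f.ne

theorem pure_of_AM (f : Fam A P0 P1) (h : AM A P1 a) (ha : 2 ≤ a) : Pure A P1 := by
  intro S hS
  obtain ⟨S', h1, h2, h3⟩ := h S (f.one S (by omega))
  obtain ⟨T, h4, h5, h6⟩ := between (A := A) h1 (k := 2) (by omega) (by omega)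
  exact ⟨T, h5, f.mono1 _ _ h2 (Finset.inter_subset_left.trans h4), h6⟩

theorem AM_of_UU (f : Fam A P0 P1) (h : UU A P0 P1 a) : AM A P1 a := by
  intro S hS
  rcases h with ⟨rfl, h⟩ | ⟨ha, h, hp⟩
  · obtain ⟨X, h1, h2⟩ := shrink (S := S) (h.1 S hS) f.cardpos
    exact ⟨X, h1, f.one X (by omega), h2⟩
  · by_cases h2 : 2 ≤ (A \ S).card
    · exact h.1 S hS h2
    · obtain ⟨X, h3, h4⟩ := shrink (S := S) (k := 1) (by omega) f.cardpos
      obtain ⟨Y, h5, h6, h7⟩ := hp X h4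
      obtain ⟨Z, h8, h9, h10⟩ := h.1 Y h6 (by omega)
      exact ⟨Z, h8.trans (h5.trans h3), h9, h10⟩

section

variable (hd : Disjoint A1 A2) (f : Fam A1 P0 P1) (g : Fam A2 Q0 Q1)

include hd f g

theorem one_each (h1 : (A1 \ S).card ≤ 1) (h2 : (A2 \ S).card ≤ 1) :
    ∃ S', S' ⊆ S ∧ J0 A1 A2 P0 P1 Q0 Q1 S' ∧ ¬ J1 A1 A2 P1 Q1 S' ∧ (A1 \ S').card = 1 ∧
      (A2 \ S').card = 1 := by
  obtain ⟨X, hX, hcX⟩ := shrink (S := S) h1 f.cardpos
  obtain ⟨Y, hY, hcY⟩ := shrink (S := S) h2 g.cardpos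
  obtain ⟨S', g1, g2, g3, g4, g5, -, -⟩ := glue hd hX hY
  refine ⟨S', g1, Or.inl (Or.inr ⟨f.one _ (by omega), by omega⟩), ?_, by omega, by omega⟩
  rintro (⟨-, h⟩ | ⟨-, h⟩) <;> omega

theorem drop2 (h1 : P1 S) (h2 : (A2 \ S).card = 0) :
    ∃ S', S' ⊆ S ∧ P1 S' ∧ (A1 \ S').card = (A1 \ S).card ∧ (A2 \ S').card = 1 := by
  obtain ⟨Y, hY, hcY⟩ := shrink (S := S) (k := 1) (by omega) g.cardpos
  obtain ⟨S', g1, g2, g3, g4, g5, -, -⟩ := glue hd (subset_refl S) hY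
  exact ⟨S', g1, f.mono1 _ _ h1 g2, g4, by omega⟩

theorem notJ1_left (h1 : P1 S) (h2 : (A2 \ S).card = 0) :
    ∃ S', S' ⊆ S ∧ J0 A1 A2 P0 P1 Q0 Q1 S' ∧ ¬ J1 A1 A2 P1 Q1 S' := by
  by_cases h0 : (A1 \ S).card = 0
  · obtain ⟨S', h3, h4, h5, -, -⟩ := one_each hd f g (S := S) (by omega) (by omega)
    exact ⟨S', h3, h4, h5⟩
  · obtain ⟨S', h3, h4, h5, h6⟩ := drop2 hd f g h1 h2
    refine ⟨S', h3, Or.inl (Or.inr ⟨h4, by omega⟩), ?_⟩
    rintro (⟨-, h⟩ | ⟨-, h⟩) <;> omega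

theorem notJ1 (h : J0 A1 A2 P0 P1 Q0 Q1 S) :
    ∃ S', S' ⊆ S ∧ J0 A1 A2 P0 P1 Q0 Q1 S' ∧ ¬ J1 A1 A2 P1 Q1 S' := by
  by_cases h1 : J1 A1 A2 P1 Q1 S
  · rcases h1 with ⟨h2, h3⟩ | ⟨h2, h3⟩
    · exact notJ1_left hd f g h2 h3
    · obtain ⟨S', h4, h5, h6⟩ := notJ1_left hd.symm g f h2 h3
      exact ⟨S', h4, by rwa [J0_comm], by rwa [J1_comm]⟩
  · exact ⟨S, subset_rfl, h, h1⟩

theorem AM_J_aux1 (h : AM (A1 ∪ A2) (J0 A1 A2 P0 P1 Q0 Q1) 2) (h1 : P1 S)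
    (h2 : (A2 \ S).card = 0) : ((A1 ∪ A2) \ S).card ≤ 1 := by
  obtain ⟨S', h3, h4, h5, h6⟩ := drop2 hd f g h1 h2
  obtain ⟨S'', h7, h8, h9⟩ := h S' (Or.inl (Or.inr ⟨h4, by omega⟩))
  have c1 := card_mono_sdiff (A := A1 ∪ A2) h7
  rw [h9, sdiff_union_card hd] at c1
  rw [sdiff_union_card hd]
  omega

theorem AM_J_aux2 (hm : 3 ≤ m) (h : AM (A1 ∪ A2) (J0 A1 A2 P0 P1 Q0 Q1) m) (h1 : P1 S)
    (h2 : (A2 \ S).card = 0) (h3 : 2 ≤ (A1 \ S).card) :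
    ∃ S', S' ⊆ S ∧ J1 A1 A2 P1 Q1 S' ∧ ((A1 ∪ A2) \ S').card = m - 1 := by
  obtain ⟨X, h4, h5, h6, h7⟩ := drop2 hd f g h1 h2
  obtain ⟨Y, h8, h9, h10⟩ := h X (Or.inl (Or.inr ⟨h5, by omega⟩))
  have c1 := card_mono_sdiff (A := A1) h8
  have c2 := card_mono_sdiff (A := A2) h8
  rw [sdiff_union_card hd] at h10
  rcases h9 with (⟨h11, h12⟩ | ⟨h11, h12⟩) | (⟨h11, h12⟩ | ⟨h11, h12⟩)
  · omega
  · obtain ⟨T, g1, g2, g3, g4, g5, -, -⟩ := glue hd (h8.trans h4) (subset_refl S)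
    exact ⟨T, g1, Or.inl ⟨f.mono1 _ _ h11 g2, by omega⟩, by rw [sdiff_union_card hd]; omega⟩
  · omega
  · omega

theorem AM_J : AM (A1 ∪ A2) (J0 A1 A2 P0 P1 Q0 Q1) m ↔
    (m = 2 ∧ R1 (A1 ∪ A2) (J0 A1 A2 P0 P1 Q0 Q1) (J1 A1 A2 P1 Q1)) ∨
    (3 ≤ m ∧ Qa (A1 ∪ A2) (J0 A1 A2 P0 P1 Q0 Q1) (J1 A1 A2 P1 Q1) (m - 1)) := by
  constructor
  · intro h
    have hm : 2 ≤ m := by
      obtain ⟨S', h3, h4, h5, h6, h7⟩ := one_each hd f g (S := A1 ∪ A2) (by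
        rw [Finset.sdiff_eq_empty_iff_subset.mpr Finset.subset_union_left]; simp) (by
        rw [Finset.sdiff_eq_empty_iff_subset.mpr Finset.subset_union_right]; simp)
      obtain ⟨S'', h7, h8, h9⟩ := h S' h4
      have c1 := card_mono_sdiff (A := A1 ∪ A2) h7
      rw [h9, sdiff_union_card hd] at c1
      omega
    have h' : AM (A2 ∪ A1) (J0 A2 A1 Q0 Q1 P0 P1) m := by
      rwa [J0_comm, Finset.union_comm] at h
    by_cases hm2 : m = 2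
    · subst hm2
      refine Or.inl ⟨rfl, ?_, ?_⟩
      · rintro S (⟨h1, h2⟩ | ⟨h1, h2⟩)
        · exact AM_J_aux1 hd f g h h1 h2
        · rw [Finset.union_comm]
          exact AM_J_aux1 hd.symm g f h' h1 h2
      · intro S hS
        obtain ⟨S'', h7, h8, h9⟩ := h S hS
        have c1 := card_mono_sdiff (A := A1 ∪ A2) h7
        omega
    · refine Or.inr ⟨by omega, ?_, ?_⟩
      · rintro S (⟨h1, h2⟩ | ⟨h1, h2⟩) hc
        · rw [sdiff_union_card hd] at hc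
          exact AM_J_aux2 hd f g (by omega) h h1 h2 (by omega)
        · rw [sdiff_union_card hd] at hc
          obtain ⟨S', h3, h4, h5⟩ := AM_J_aux2 hd.symm g f (by omega) h' h1 h2 (by omega)
          exact ⟨S', h3, by rwa [J1_comm], by rwa [Finset.union_comm]⟩
      · intro S hS hn
        obtain ⟨S'', h7, h8, h9⟩ := h S hS
        exact ⟨S'', h7, h8, by omega⟩
  · rintro (⟨rfl, h⟩ | ⟨hm, h⟩) S hS
    · have h2 := h.2 S hS
      by_cases h3 : ((A1 ∪ A2) \ S).card = 2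
      · exact ⟨S, subset_rfl, hS, h3⟩
      · rw [sdiff_union_card hd] at h2 h3
        obtain ⟨S', h3, h4, h5, h6, h7⟩ := one_each hd f g (S := S) (by
          by_contra hcon
          exact h3 (by omega)) (by
          by_contra hcon
          exact h3 (by omega))
        exact ⟨S', h3, h4, by rw [sdiff_union_card hd]; omega⟩
    · obtain ⟨S', h1, h2, h3⟩ := notJ1 hd f g hS
      obtain ⟨S'', h4, h5, h6⟩ := h.2 S' h2 h3
      exact ⟨S'', h4.trans h1, h5, by omega⟩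

theorem TT_J : TT (A1 ∪ A2) (J0 A1 A2 P0 P1 Q0 Q1) (J1 A1 A2 P1 Q1) m ↔
    2 ≤ m ∧ UU (A1 ∪ A2) (J0 A1 A2 P0 P1 Q0 Q1) (J1 A1 A2 P1 Q1) (m - 1) := by
  have F := famJ hd f g
  constructor
  · rintro ⟨h1, h2, h3⟩
    rcases (AM_J hd f g).mp h1 with ⟨rfl, h⟩ | ⟨hm, h⟩
    · exact ⟨le_rfl, Or.inl ⟨rfl, h⟩⟩
    · exact ⟨by omega, Or.inr ⟨by omega, h, pure_of_AM F h3 (by omega)⟩⟩
  · rintro ⟨hm, h⟩
    refine ⟨(AM_J hd f g).mpr ?_, by omega, AM_of_UU F h⟩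
    rcases h with ⟨h1, h2⟩ | ⟨h1, h2, h3⟩
    · exact Or.inl ⟨by omega, h2⟩
    · exact Or.inr ⟨by omega, h2⟩

end

section

def K0 (K : Finset V) (P0 P1 : Finset V → Prop) (S : Finset V) : Prop :=
  ((K \ S).card = 0 ∧ P0 S) ∨ ((K \ S).card ≤ 1 ∧ P1 S)

def K1 (K : Finset V) (P1 : Finset V → Prop) (S : Finset V) : Prop :=
  (K \ S).card = 0 ∧ P1 S

variable (hd : Disjoint K C) (f : Fam C P0 P1) (hK : K.Nonempty)

include hd f hK

theorem Kset (X : Finset V) {j : ℕ} (hj : j ≤ 1) : ∃ S, (K \ S).card = j ∧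
    (C \ S).card = (C \ X).card ∧ X ∩ C ⊆ S ∧ (∀ S', S' ⊆ S → S' ∩ C ⊆ X) := by
  have := Finset.card_pos.mpr hK
  obtain ⟨Y, hY, hcY⟩ := shrink (A := K) (S := X ∪ K) (k := j) (by
    rw [Finset.sdiff_eq_empty_iff_subset.mpr Finset.subset_union_right]; simp) (by omega)
  obtain ⟨S', g1, g2, g3, g4, g5, g6, g7⟩ := glue hd hY (Finset.subset_union_left (s₁ := X) (s₂ := K))
  exact ⟨S', by omega, g5, g3, fun T hT => (Finset.inter_subset_inter_right hT).trans g7⟩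

theorem AM_K : AM (K ∪ C) (K0 K P0 P1) m ↔ 2 ≤ m ∧ UU C P0 P1 (m - 1) := by
  constructor
  · intro h
    obtain ⟨X1, hX1, hcX1⟩ := shrink (A := C) (S := C) (k := 1) (by simp) f.cardpos
    have hm : 2 ≤ m := by
      obtain ⟨S, h1, h2, h3, h4⟩ := Kset hd f hK X1 (j := 1) le_rfl
      obtain ⟨S', h5, h6, h7⟩ := h S (Or.inr ⟨by omega, f.one _ (by omega)⟩)
      have c1 := card_mono_sdiff (A := K ∪ C) h5
      rw [h7, sdiff_union_card hd] at c1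
      omega
    refine ⟨hm, ?_⟩
    by_cases hm2 : m = 2
    · subst hm2
      refine Or.inl ⟨rfl, ?_, ?_⟩
      · intro X hX
        obtain ⟨S, h1, h2, h3, h4⟩ := Kset hd f hK X (j := 1) le_rfl
        obtain ⟨S', h5, h6, h7⟩ := h S (Or.inr ⟨by omega, f.mono1 _ _ hX h3⟩)
        have c1 := card_mono_sdiff (A := K ∪ C) h5
        rw [h7, sdiff_union_card hd] at c1
        omega
      · intro X hX
        obtain ⟨S, h1, h2, h3, h4⟩ := Kset hd f hK X (j := 0) (by omega)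
        obtain ⟨S', h5, h6, h7⟩ := h S (Or.inl ⟨by omega, f.mono0 _ _ hX h3⟩)
        have c1 := card_mono_sdiff (A := K ∪ C) h5
        rw [h7, sdiff_union_card hd] at c1
        omega
    · have key : ∀ X, P1 X → 1 ≤ (C \ X).card → ∃ S', S' ∩ C ⊆ X ∧ P1 S' ∧ (C \ S').card = m - 1 := by
        intro X hX hc
        obtain ⟨S, h1, h2, h3, h4⟩ := Kset hd f hK X (j := 1) le_rfl
        obtain ⟨S', h5, h6, h7⟩ := h S (Or.inr ⟨by omega, f.mono1 _ _ hX h3⟩)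
        have c1 := card_mono_sdiff (A := K) h5
        rw [sdiff_union_card hd] at h7
        rcases h6 with ⟨h8, h9⟩ | ⟨h8, h9⟩
        · omega
        · exact ⟨S', h4 S' h5, h9, by omega⟩
      refine Or.inr ⟨by omega, ⟨?_, ?_⟩, ?_⟩
      · intro X hX hc
        obtain ⟨S', h1, h2, h3⟩ := key X hX (by omega)
        exact ⟨S' ∩ C, h1, f.mono1 _ _ h2 subset_rfl, by rw [Finset.sdiff_inter_self_right]; omega⟩
      · intro X hX hn
        obtain ⟨S, h1, h2, h3, h4⟩ := Kset hd f hK X (j := 0) (by omega)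
        obtain ⟨S', h5, h6, h7⟩ := h S (Or.inl ⟨by omega, f.mono0 _ _ hX h3⟩)
        rw [sdiff_union_card hd] at h7
        rcases h6 with ⟨h8, h9⟩ | ⟨h8, h9⟩
        · exact ⟨S' ∩ C, h4 S' h5, f.mono0 _ _ h9 subset_rfl,
            by rw [Finset.sdiff_inter_self_right]; omega⟩
        · exact absurd (f.mono1 _ _ h9 (h4 S' h5)) hn
      · intro X hX
        obtain ⟨S', h1, h2, h3⟩ := key X (f.one X (by omega)) (by omega)
        obtain ⟨T, h4, h5, h6⟩ := between (A := C) h1 (k := 2) (by omega)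
          (by rw [Finset.sdiff_inter_self_right]; omega)
        exact ⟨T, h5, f.mono1 _ _ h2 h4, h6⟩
  · rintro ⟨hm, h⟩
    have hA := AM_of_UU f h
    have key : ∀ S, (K \ S).card ≤ 1 → P1 S →
        ∃ S', S' ⊆ S ∧ K0 K P0 P1 S' ∧ ((K ∪ C) \ S').card = m := by
      intro S h1 h2
      obtain ⟨X, h3, h4, h5⟩ := hA S h2
      obtain ⟨Y, hY, hcY⟩ := shrink (S := S) h1 (Finset.card_pos.mpr hK)
      obtain ⟨S', g1, g2, g3, g4, g5, g6, g7⟩ := glue hd hY h3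
      exact ⟨S', g1, Or.inr ⟨by omega, f.mono1 _ _ h4 g3⟩, by rw [sdiff_union_card hd]; omega⟩
    rintro S (⟨h1, h2⟩ | ⟨h1, h2⟩)
    · by_cases h3 : P1 S
      · exact key S (by omega) h3
      · rcases h with ⟨h4, h5⟩ | ⟨h4, h5, h6⟩
        · have h6 := h5.2 S h2
          have h7 : 2 ≤ (C \ S).card := by
            by_contra hcon
            exact h3 (f.one S (by omega))
          exact ⟨S, subset_rfl, Or.inl ⟨h1, h2⟩, by rw [sdiff_union_card hd]; omega⟩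
        · obtain ⟨X, h7, h8, h9⟩ := h5.2 S h2 h3
          obtain ⟨S', g1, g2, g3, g4, g5, g6, g7⟩ := glue hd (subset_refl S) h7
          exact ⟨S', g1, Or.inl ⟨by omega, f.mono0 _ _ h8 g3⟩,
            by rw [sdiff_union_card hd]; omega⟩
    · exact key S h1 h2

theorem TT_K : TT (K ∪ C) (K0 K P0 P1) (K1 K P1) m ↔ 2 ≤ m ∧ UU C P0 P1 (m - 1) := by
  constructor
  · rintro ⟨h, -, -⟩
    exact (AM_K hd f hK).mp h
  · intro h
    refine ⟨(AM_K hd f hK).mpr h, by omega, ?_⟩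
    rintro S ⟨h1, h2⟩
    obtain ⟨X, h3, h4, h5⟩ := AM_of_UU f h.2 S h2
    obtain ⟨S', g1, g2, g3, g4, g5, g6, g7⟩ := glue hd (subset_refl S) h3
    exact ⟨S', g1, ⟨by omega, f.mono1 _ _ h4 g3⟩, by rw [sdiff_union_card hd]; omega⟩

end

end Pool.Agent.H81.WF
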