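import Pool.Agent.H81.CographRec2

/-!
# Uniform families on disjoint unions
-/

set_option linter.unusedSectionVars false
set_option linter.unusedVariables false

namespace Pool.Agent.H81.WF

open Classical

variable {V : Type*} {A A1 A2 K C H H1 H2 I S S' : Finset V} {Z0 Z1 Y0 Y1 : Finset V → Prop}
  {a b m : ℕ}

structure HF (H : Finset V) (Z0 Z1 : Finset V → Prop) : Prop where
  mono0 : ∀ S S', Z0 S → S ∩ H ⊆ S' → Z0 S'
  mono1 : ∀ S S', Z1 S → S ∩ H ⊆ S' → Z1 S'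
  le : ∀ S, Z1 S → Z0 S
  one : ∀ S, (H \ S).card ≤ 1 → Z0 S
  full : ∀ S, (H \ S).card = 0 → Z1 S
  ext : ∀ S, Z1 S → ∃ S', S' ⊆ S ∧ Z0 S' ∧ (H \ S').card = (H \ S).card + 1
  nc : (∃ S, Z0 S ∧ 2 ≤ (H \ S).card) → ∃ T, (H \ T).card = 1 ∧ Z1 T
  ne : H.Nonempty

theorem HF.cardpos (h : HF H Z0 Z1) : 1 ≤ H.card := Finset.card_pos.mpr h.ne

theorem HF.z3 (h : HF H Z0 Z1) : ∀ (n : ℕ) (S : Finset V), H.card - (H \ S).card = n → Z0 S →
    ∃ S', S' ⊆ S ∧ Z0 S' ∧ ¬ Z1 S' := by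
  intro n
  induction n using Nat.strong_induction_on with
  | _ n ih =>
    intro S hS h0
    by_cases h1 : Z1 S
    · obtain ⟨S', h2, h3, h4⟩ := h.ext S h1
      have c : (H \ S').card ≤ H.card := Finset.card_le_card Finset.sdiff_subset
      obtain ⟨S'', h5, h6, h7⟩ := ih (H.card - (H \ S').card) (by omega) S' rfl h3
      exact ⟨S'', h5.trans h2, h6, h7⟩
    · exact ⟨S, subset_rfl, h0, h1⟩

def D0 (I : Finset V) (Z0 : Finset V → Prop) (S : Finset V) : Prop :=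
  Z0 S ∧ (I \ S).card ≤ 1

def D1 (I : Finset V) (Z0 Z1 : Finset V → Prop) (S : Finset V) : Prop :=
  (Z0 S ∧ (I \ S).card ≤ 1) ∧ ((I \ S).card < I.card ∨ Z1 S)

/-- `X` on `H`, missing exactly `j` of `I`. -/
theorem Iset (hd : Disjoint I H) (X : Finset V) {j : ℕ} (hj : j ≤ I.card) : ∃ S,
    (I \ S).card = j ∧ (H \ S).card = (H \ X).card ∧ X ∩ H ⊆ S ∧
    (∀ S', S' ⊆ S → S' ∩ H ⊆ X) := by
  obtain ⟨Y, hY, hcY⟩ := shrink (A := I) (S := X ∪ I) (k := j) (by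
    rw [Finset.sdiff_eq_empty_iff_subset.mpr Finset.subset_union_right]; simp) (by omega)
  obtain ⟨S', g1, g2, g3, g4, g5, g6, g7⟩ := glue hd hY (Finset.subset_union_left (s₁ := X) (s₂ := I))
  exact ⟨S', by omega, g5, g3, fun T hT => (Finset.inter_subset_inter_right hT).trans g7⟩

section
variable (hd : Disjoint I H) (h : HF H Z0 Z1)
include hd h

/-! ### At least two isolated vertices -/

theorem big_R1 (hI : 2 ≤ I.card) : ¬ R1 (I ∪ H) (D0 I Z0) (D1 I Z0 Z1) := by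
  intro hR
  obtain ⟨X, hX, hcX⟩ := shrink (A := H) (S := H) (k := 1) (by simp) h.cardpos
  obtain ⟨S, h1, h2, h3, h4⟩ := Iset hd X (j := 1) (by omega)
  have := hR.1 S ⟨⟨h.one S (by omega), by omega⟩, Or.inl (by omega)⟩
  rw [sdiff_union_card hd] at this
  omega

theorem big_Q (hI : 2 ≤ I.card) (hb : 2 ≤ b) :
    Qa (I ∪ H) (D0 I Z0) (D1 I Z0 Z1) b ↔ AM H Z0 (b - 1) := by
  constructor
  · intro hQ
    have key : ∀ S, Z0 S → 1 ≤ (H \ S).card → ∃ S', S' ⊆ S ∧ Z0 S' ∧ (H \ S').card = b - 1 := by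
      intro X hX hc
      obtain ⟨S, h1, h2, h3, h4⟩ := Iset hd X (j := 1) (by omega)
      obtain ⟨S', h5, ⟨⟨h6, h7⟩, h8⟩, h9⟩ := hQ.1 S
        ⟨⟨h.mono0 _ _ hX h3, by omega⟩, Or.inl (by omega)⟩ (by rw [sdiff_union_card hd]; omega)
      have c1 := card_mono_sdiff (A := I) h5
      rw [sdiff_union_card hd] at h9
      exact ⟨S' ∩ H, h4 S' h5, h.mono0 _ _ h6 subset_rfl,
        by rw [Finset.sdiff_inter_self_right]; omega⟩
    intro S hS
    by_cases hc : 1 ≤ (H \ S).card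
    · exact key S hS hc
    · obtain ⟨X, hX, hcX⟩ := shrink (A := H) (S := S) (k := 1) (by omega) h.cardpos
      obtain ⟨S', h1, h2, h3⟩ := key X (h.one X (by omega)) (by omega)
      exact ⟨S', h1.trans hX, h2, h3⟩
  · intro hA
    constructor
    · rintro S ⟨⟨h1, h2⟩, -⟩ hc
      obtain ⟨X, h3, h4, h5⟩ := hA S h1
      obtain ⟨Y, hY, hcY⟩ := shrink (A := I) (S := S) (k := 1) (by omega) (by omega)
      obtain ⟨S', g1, g2, g3, g4, g5, g6, g7⟩ := glue hd hY h3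
      exact ⟨S', g1, ⟨⟨h.mono0 _ _ h4 g3, by omega⟩, Or.inl (by omega)⟩,
        by rw [sdiff_union_card hd]; omega⟩
    · rintro S ⟨h1, h2⟩ hn
      exact absurd ⟨⟨h1, h2⟩, Or.inl (by omega)⟩ hn

theorem big_Pure (hI : 2 ≤ I.card) : Pure (I ∪ H) (D1 I Z0 Z1) := by
  intro S hS
  rw [sdiff_union_card hd] at hS
  obtain ⟨X, hX, hcX⟩ := shrink (A := H) (S := S) (k := 1) (by omega) h.cardpos
  obtain ⟨Y, hY, hcY⟩ := shrink (A := I) (S := S) (k := 1) (by omega) (by omega)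
  obtain ⟨S', g1, g2, g3, g4, g5, g6, g7⟩ := glue hd hY hX
  exact ⟨S', g1, ⟨⟨h.one _ (by omega), by omega⟩, Or.inl (by omega)⟩,
    by rw [sdiff_union_card hd]; omega⟩

/-! ### One isolated vertex -/

theorem one_R1 (hI : I.card = 1) : R1 (I ∪ H) (D0 I Z0) (D1 I Z0 Z1) ↔ TT H Z0 Z1 1 := by
  constructor
  · intro hR
    refine ⟨?_, le_rfl, ?_⟩
    · intro X hX
      obtain ⟨S, h1, h2, h3, h4⟩ := Iset hd X (j := 0) (by omega)
      have := hR.1 S ⟨⟨h.mono0 _ _ hX h3, by omega⟩, Or.inl (by omega)⟩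
      rw [sdiff_union_card hd] at this
      obtain ⟨Y, hY, hcY⟩ := shrink (A := H) (S := X) (k := 1) (by omega) h.cardpos
      exact ⟨Y, hY, h.one Y (by omega), hcY⟩
    · intro X hX
      obtain ⟨S, h1, h2, h3, h4⟩ := Iset hd X (j := 1) (by omega)
      have := hR.1 S ⟨⟨h.mono0 _ _ (h.le _ hX) h3, by omega⟩, Or.inr (h.mono1 _ _ hX h3)⟩
      rw [sdiff_union_card hd] at this
      exact ⟨X, subset_rfl, hX, by omega⟩
  · rintro ⟨h1, -, h2⟩
    have e0 : ∀ S, Z0 S → (H \ S).card ≤ 1 := by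
      intro S hS
      obtain ⟨S', h3, h4, h5⟩ := h1 S hS
      have c1 := card_mono_sdiff (A := H) h3
      omega
    have e1 : ∀ S, Z1 S → (H \ S).card = 0 := by
      intro S hS
      obtain ⟨S', h3, h4, h5⟩ := h2 S hS
      have c1 := card_mono_sdiff (A := H) h3
      omega
    constructor
    · rintro S ⟨⟨h3, h4⟩, h5⟩
      have := e0 S h3
      rw [sdiff_union_card hd]
      rcases h5 with h5 | h5
      · omega
      · have := e1 S h5
        omega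
    · rintro S ⟨h3, h4⟩
      have := e0 S h3
      rw [sdiff_union_card hd]
      omega

theorem one_Q (hI : I.card = 1) (hb : 2 ≤ b) :
    Qa (I ∪ H) (D0 I Z0) (D1 I Z0 Z1) b ↔ TT H Z0 Z1 b := by
  constructor
  · intro hQ
    have hA : AM H Z0 b := by
      intro S0 hS0
      obtain ⟨X, hXS, hX0, hX1⟩ := h.z3 _ S0 rfl hS0
      obtain ⟨S, h1, h2, h3, h4⟩ := Iset hd X (j := 1) (by omega)
      obtain ⟨S', h5, ⟨h6, h7⟩, h8⟩ := hQ.2 S ⟨h.mono0 _ _ hX0 h3, by omega⟩ (by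
        rintro ⟨-, h9 | h9⟩
        · omega
        · exact hX1 (h.mono1 _ _ h9 (h4 S subset_rfl)))
      have c1 := card_mono_sdiff (A := I) h5
      rw [sdiff_union_card hd] at h8
      exact ⟨S' ∩ H, (h4 S' h5).trans hXS, h.mono0 _ _ h6 subset_rfl,
        by rw [Finset.sdiff_inter_self_right]; omega⟩
    refine ⟨hA, by omega, ?_⟩
    have key : ∀ S, Z1 S → 1 ≤ (H \ S).card → ∃ S', S' ⊆ S ∧ Z1 S' ∧ (H \ S').card = b - 1 := by
      intro X hX hc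
      obtain ⟨S, h1, h2, h3, h4⟩ := Iset hd X (j := 1) (by omega)
      obtain ⟨S', h5, ⟨⟨h6, h7⟩, h8⟩, h9⟩ := hQ.1 S
        ⟨⟨h.mono0 _ _ (h.le _ hX) h3, by omega⟩, Or.inr (h.mono1 _ _ hX h3)⟩
        (by rw [sdiff_union_card hd]; omega)
      have c1 := card_mono_sdiff (A := I) h5
      rw [sdiff_union_card hd] at h9
      rcases h8 with h8 | h8
      · omega
      · exact ⟨S' ∩ H, h4 S' h5, h.mono1 _ _ h8 subset_rfl,
          by rw [Finset.sdiff_inter_self_right]; omega⟩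
    intro S hS
    by_cases hc : 1 ≤ (H \ S).card
    · exact key S hS hc
    · obtain ⟨W, -, hW0, hWc⟩ := hA S (h.le _ hS)
      obtain ⟨T, hT1, hT2⟩ := h.nc ⟨W, hW0, by omega⟩
      have hHS : H ⊆ S := by
        rw [← Finset.sdiff_eq_empty_iff_subset, ← Finset.card_eq_zero]; omega
      have hT' : Z1 (T ∩ H) := h.mono1 _ _ hT2 subset_rfl
      obtain ⟨S', h1, h2, h3⟩ := key (T ∩ H) hT' (by rw [Finset.sdiff_inter_self_right]; omega)
      exact ⟨S', h1.trans (Finset.inter_subset_right.trans hHS), h2, h3⟩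
  · rintro ⟨hA0, hb1, hA1⟩
    constructor
    · rintro S ⟨⟨h1, h2⟩, h3⟩ hc
      by_cases h4 : (I \ S).card = 0
      · obtain ⟨X, h5, h6, h7⟩ := hA0 S h1
        obtain ⟨S', g1, g2, g3, g4, g5, g6, g7⟩ := glue hd (subset_refl S) h5
        exact ⟨S', g1, ⟨⟨h.mono0 _ _ h6 g3, by omega⟩, Or.inl (by omega)⟩,
          by rw [sdiff_union_card hd]; omega⟩
      · have h3' : Z1 S := h3.resolve_left (by omega)
        obtain ⟨X, h5, h6, h7⟩ := hA1 S h3'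
        obtain ⟨S', g1, g2, g3, g4, g5, g6, g7⟩ := glue hd (subset_refl S) h5
        exact ⟨S', g1, ⟨⟨h.mono0 _ _ (h.le _ h6) g3, by omega⟩, Or.inr (h.mono1 _ _ h6 g3)⟩,
          by rw [sdiff_union_card hd]; omega⟩
    · rintro S ⟨h1, h2⟩ -
      obtain ⟨X, h5, h6, h7⟩ := hA0 S h1
      obtain ⟨Y, hY, hcY⟩ := shrink (A := I) (S := S) (k := 1) (by omega) (by omega)
      obtain ⟨S', g1, g2, g3, g4, g5, g6, g7⟩ := glue hd hY h5
      exact ⟨S', g1, ⟨h.mono0 _ _ h6 g3, by omega⟩, by rw [sdiff_union_card hd]; omega⟩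

theorem one_Pure (hI : I.card = 1) (hb : 2 ≤ b) (hT : TT H Z0 Z1 b) :
    Pure (I ∪ H) (D1 I Z0 Z1) := by
  obtain ⟨hA0, -, hA1⟩ := hT
  intro S hS
  rw [sdiff_union_card hd] at hS
  by_cases h0 : (I \ S).card = 0
  · obtain ⟨X, h5, h6, h7⟩ := hA0 S (h.one S (by omega))
    obtain ⟨W, h8, h9, h10⟩ := between (A := H) h5 (k := 2) (by omega) (by omega)
    obtain ⟨S', g1, g2, g3, g4, g5, g6, g7⟩ := glue hd (subset_refl S) h9
    exact ⟨S', g1, ⟨⟨h.mono0 _ _ (h.mono0 _ _ h6 (Finset.inter_subset_left.trans h8)) g3,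
      by omega⟩, Or.inl (by omega)⟩, by rw [sdiff_union_card hd]; omega⟩
  · obtain ⟨X, h5, h6, h7⟩ := hA1 S (h.full S (by omega))
    obtain ⟨W, h8, h9, h10⟩ := between (A := H) h5 (k := 1) (by omega) (by omega)
    obtain ⟨S', g1, g2, g3, g4, g5, g6, g7⟩ := glue hd (subset_refl S) h9
    have hW : Z1 W := h.mono1 _ _ h6 (Finset.inter_subset_left.trans h8)
    exact ⟨S', g1, ⟨⟨h.mono0 _ _ (h.le _ hW) g3, by omega⟩, Or.inr (h.mono1 _ _ hW g3)⟩,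
      by rw [sdiff_union_card hd]; omega⟩

end

/-! ### No isolated vertex -/

section
variable (h : HF H Z0 Z1) (f : Fam H Z0 Z1)
include h f

theorem zero_R1 : R1 H Z0 Z1 ↔ TT H Z0 Z1 2 := by
  constructor
  · intro hR
    refine ⟨?_, by omega, AM_of_UU f (Or.inl ⟨rfl, hR⟩)⟩
    intro S hS
    obtain ⟨X, h1, h2, h3⟩ := h.z3 _ S rfl hS
    have c1 := hR.2 X h2
    have c2 : 2 ≤ (H \ X).card := by
      by_contra hcon
      exact h3 (f.one X (by omega))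
    exact ⟨X, h1, h2, by omega⟩
  · rintro ⟨h1, -, h2⟩
    constructor
    · intro S hS
      obtain ⟨S', h3, h4, h5⟩ := h2 S hS
      have c1 := card_mono_sdiff (A := H) h3
      omega
    · intro S hS
      obtain ⟨S', h3, h4, h5⟩ := h1 S hS
      have c1 := card_mono_sdiff (A := H) h3
      omega

theorem zero_Q (hp : ∀ m, 3 ≤ m → AM H Z0 m → Pure H Z1) (hb : 2 ≤ b) :
    Qa H Z0 Z1 b ↔ TT H Z0 Z1 (b + 1) := by
  constructor
  · intro hQ
    have hA : AM H Z0 (b + 1) := by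
      intro S hS
      obtain ⟨X, h1, h2, h3⟩ := h.z3 _ S rfl hS
      obtain ⟨S', h4, h5, h6⟩ := hQ.2 X h2 h3
      exact ⟨S', h4.trans h1, h5, h6⟩
    exact ⟨hA, by omega, AM_of_UU f (Or.inr ⟨hb, hQ, hp (b + 1) (by omega) hA⟩)⟩
  · rintro ⟨h1, -, h2⟩
    exact ⟨fun S hS _ => h2 S hS, fun S hS _ => h1 S hS⟩

end

/-! ### Two components -/

section
variable (hd : Disjoint H1 H2) (h : HF H1 Z0 Z1) (k : HF H2 Y0 Y1)
include hd h k

theorem AM_U_left (hA : AM (H1 ∪ H2) (fun S => Z0 S ∧ Y0 S) m) : ∃ m1, m1 ≤ m ∧ AM H1 Z0 m1 := by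
  have hex : ∃ n, ∃ S, Y0 S ∧ H2.card - (H2 \ S).card = n :=
    ⟨_, H2, k.one _ (by simp), rfl⟩
  obtain ⟨S2, hS2, hn⟩ := Nat.find_spec hex
  have hmin : ∀ T, Y0 T → (H2 \ T).card ≤ (H2 \ S2).card := by
    intro T hT
    have h1 := Nat.find_min' hex ⟨T, hT, rfl⟩
    have c1 : (H2 \ T).card ≤ H2.card := Finset.card_le_card Finset.sdiff_subset
    have c2 : (H2 \ S2).card ≤ H2.card := Finset.card_le_card Finset.sdiff_subset
    omega
  have key : ∀ X, Z0 X → (H2 \ S2).card ≤ m ∧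
      ∃ S', S' ⊆ X ∧ Z0 S' ∧ (H1 \ S').card = m - (H2 \ S2).card := by
    intro X hX
    obtain ⟨S, -, g2, g3, g4, g5, g6, g7⟩ := glue hd (S := X ∪ S2) (X := X) (Y := S2)
      Finset.subset_union_left Finset.subset_union_right
    obtain ⟨S', h1, ⟨h2, h3⟩, h4⟩ := hA S ⟨h.mono0 _ _ hX g2, k.mono0 _ _ hS2 g3⟩
    rw [sdiff_union_card hd] at h4
    have c1 := card_mono_sdiff (A := H2) h1
    have c2 := hmin S' h3
    exact ⟨by omega, S' ∩ H1, (Finset.inter_subset_inter_right h1).trans g6,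
      h.mono0 _ _ h2 subset_rfl, by rw [Finset.sdiff_inter_self_right]; omega⟩
  refine ⟨m - (H2 \ S2).card, by omega, fun X hX => (key X hX).2⟩

theorem AM_max (hA : AM H1 Z0 a) {S : Finset V} (hS : Z0 S) : (H1 \ S).card ≤ a := by
  obtain ⟨S', h3, h4, h5⟩ := hA S hS
  have c1 := card_mono_sdiff (A := H1) h3
  omega

end

theorem AM_le {P : Finset V → Prop} (hA : AM H P a) {S : Finset V} (hS : P S) :
    (H \ S).card ≤ a := by
  obtain ⟨S', h3, h4, h5⟩ := hA S hS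
  have c1 := card_mono_sdiff (A := H) h3
  omega

section
variable (hd : Disjoint H1 H2) (h : HF H1 Z0 Z1) (k : HF H2 Y0 Y1)
include hd h k

theorem AM_U : AM (H1 ∪ H2) (fun S => Z0 S ∧ Y0 S) m ↔
    ∃ m1 m2, m1 + m2 = m ∧ AM H1 Z0 m1 ∧ AM H2 Y0 m2 := by
  constructor
  · intro hA
    obtain ⟨m1, hm1, h1⟩ := AM_U_left hd h k hA
    obtain ⟨m2, hm2, h2⟩ := AM_U_left hd.symm k h (by
      rw [Finset.union_comm]
      intro S hS
      obtain ⟨S', h3, h4, h5⟩ := hA S hS.symm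
      exact ⟨S', h3, h4.symm, h5⟩)
    refine ⟨m1, m2, ?_, h1, h2⟩
    obtain ⟨X, -, hX, hcX⟩ := h1 H1 (h.one _ (by simp))
    obtain ⟨Y, -, hY, hcY⟩ := h2 H2 (k.one _ (by simp))
    obtain ⟨S, -, g2, g3, g4, g5, g6, g7⟩ := glue hd (S := X ∪ Y) (X := X) (Y := Y)
      Finset.subset_union_left Finset.subset_union_right
    obtain ⟨S', h4, ⟨h5, h6⟩, h7⟩ := hA S ⟨h.mono0 _ _ hX g2, k.mono0 _ _ hY g3⟩
    have c1 := card_mono_sdiff (A := H1) h4
    have c2 := card_mono_sdiff (A := H2) h4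
    have c3 := AM_le h1 h5
    have c4 := AM_le h2 h6
    rw [sdiff_union_card hd] at h7
    omega
  · rintro ⟨m1, m2, rfl, h1, h2⟩ S ⟨h3, h4⟩
    obtain ⟨X, hXS, hX, hcX⟩ := h1 S h3
    obtain ⟨Y, hYS, hY, hcY⟩ := h2 S h4
    obtain ⟨S', g1, g2, g3, g4, g5, g6, g7⟩ := glue hd hXS hYS
    exact ⟨S', g1, ⟨h.mono0 _ _ hX g2, k.mono0 _ _ hY g3⟩, by rw [sdiff_union_card hd]; omega⟩

theorem TT_U_left {m1 m2 : ℕ} (h1 : AM H1 Z0 m1) (h2 : AM H2 Y0 m2) (hm1 : 1 ≤ m1)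
    (hA : AM (H1 ∪ H2) (fun S => (Z1 S ∧ Y0 S) ∨ (Z0 S ∧ Y1 S)) (m1 + m2 - 1)) :
    TT H1 Z0 Z1 m1 := by
  refine ⟨h1, hm1, ?_⟩
  intro X hX
  obtain ⟨Y, -, hY, hcY⟩ := h2 H2 (k.one _ (by simp))
  obtain ⟨S, -, g2, g3, g4, g5, g6, g7⟩ := glue hd (S := X ∪ Y) (X := X) (Y := Y)
    Finset.subset_union_left Finset.subset_union_right
  obtain ⟨S', h4, h5, h7⟩ := hA S (Or.inl ⟨h.mono1 _ _ hX g2, k.mono0 _ _ hY g3⟩)
  have c2 := card_mono_sdiff (A := H2) h4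
  rw [sdiff_union_card hd] at h7
  rcases h5 with ⟨h5, h6⟩ | ⟨h5, h6⟩
  · have c4 := AM_le h2 h6
    exact ⟨S' ∩ H1, (Finset.inter_subset_inter_right h4).trans g6, h.mono1 _ _ h5 subset_rfl,
      by rw [Finset.sdiff_inter_self_right]; omega⟩
  · obtain ⟨W, hW1, hW2, hW3⟩ := k.ext S' h6
    have c4 := AM_le h2 hW2
    omega

theorem TT_U : TT (H1 ∪ H2) (fun S => Z0 S ∧ Y0 S) (fun S => (Z1 S ∧ Y0 S) ∨ (Z0 S ∧ Y1 S)) m ↔
    ∃ m1 m2, m1 + m2 = m ∧ TT H1 Z0 Z1 m1 ∧ TT H2 Y0 Y1 m2 := by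
  have pos1 : ∀ m1, AM H1 Z0 m1 → 1 ≤ m1 := by
    intro m1 h1
    obtain ⟨X, hX, hcX⟩ := shrink (A := H1) (S := H1) (k := 1) (by simp) h.cardpos
    have := AM_le h1 (h.one X (by omega))
    omega
  have pos2 : ∀ m1, AM H2 Y0 m1 → 1 ≤ m1 := by
    intro m1 h1
    obtain ⟨X, hX, hcX⟩ := shrink (A := H2) (S := H2) (k := 1) (by simp) k.cardpos
    have := AM_le h1 (k.one X (by omega))
    omega
  constructor
  · rintro ⟨hA, hm, hB⟩
    obtain ⟨m1, m2, rfl, h1, h2⟩ := (AM_U hd h k).mp hA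
    refine ⟨m1, m2, rfl, TT_U_left hd h k h1 h2 (pos1 _ h1) hB, ?_⟩
    refine TT_U_left hd.symm k h h2 h1 (pos2 _ h2) ?_
    rw [Finset.union_comm, add_comm]
    intro S hS
    obtain ⟨S', h3, h4, h5⟩ := hB S (hS.symm.imp And.symm And.symm)
    exact ⟨S', h3, h4.symm.imp And.symm And.symm, h5⟩
  · rintro ⟨m1, m2, rfl, ⟨h1, h2, h3⟩, h4, h5, h6⟩
    refine ⟨(AM_U hd h k).mpr ⟨m1, m2, rfl, h1, h4⟩, by omega, ?_⟩
    rintro S (⟨h7, h8⟩ | ⟨h7, h8⟩)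
    · obtain ⟨X, hXS, hX, hcX⟩ := h3 S h7
      obtain ⟨Y, hYS, hY, hcY⟩ := h4 S h8
      obtain ⟨S', g1, g2, g3, g4, g5, g6, g7⟩ := glue hd hXS hYS
      exact ⟨S', g1, Or.inl ⟨h.mono1 _ _ hX g2, k.mono0 _ _ hY g3⟩,
        by rw [sdiff_union_card hd]; omega⟩
    · obtain ⟨X, hXS, hX, hcX⟩ := h1 S h7
      obtain ⟨Y, hYS, hY, hcY⟩ := h6 S h8
      obtain ⟨S', g1, g2, g3, g4, g5, g6, g7⟩ := glue hd hXS hYS
      exact ⟨S', g1, Or.inr ⟨h.mono0 _ _ hX g2, k.mono1 _ _ hY g3⟩,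
        by rw [sdiff_union_card hd]; omega⟩

/-- Purity for a disconnected graph without isolated vertices. -/
theorem U_pure (hA : AM (H1 ∪ H2) (fun S => Z0 S ∧ Y0 S) m) (hm : 3 ≤ m) {S : Finset V}
    (h1 : (H1 \ S).card = 1) (h2 : (H2 \ S).card = 0) :
    ∃ S', S' ⊆ S ∧ ((Z1 S' ∧ Y0 S') ∨ (Z0 S' ∧ Y1 S')) ∧ ((H1 ∪ H2) \ S').card = 2 := by
  obtain ⟨Y, hYS, hcY⟩ := shrink (A := H2) (S := S) (k := 1) (by omega) k.cardpos
  obtain ⟨S1, g1, g2, g3, g4, g5, g6, g7⟩ := glue hd (subset_refl S) hYS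
  obtain ⟨S2, h3, ⟨h4, h5⟩, h6⟩ := hA S1 ⟨h.one _ (by omega), k.one _ (by omega)⟩
  rw [sdiff_union_card hd] at h6
  have c1 := card_mono_sdiff (A := H1) h3
  have c2 := card_mono_sdiff (A := H2) h3
  by_cases hc : 2 ≤ (H1 \ S2).card
  · obtain ⟨W, h8, h9, h10⟩ := between (A := H1) (h3.trans g1) (k := 2) (by omega) hc
    obtain ⟨S', k1, k2, k3, k4, k5, k6, k7⟩ := glue hd h9 (subset_refl S)
    refine ⟨S', k1, Or.inr ⟨h.mono0 _ _ (h.mono0 _ _ h4 (Finset.inter_subset_left.trans h8)) k2,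
      k.full _ (by omega)⟩, by rw [sdiff_union_card hd]; omega⟩
  · obtain ⟨T, hT1, hT2⟩ := k.nc ⟨S2, h5, by omega⟩
    have hHS : H2 ⊆ S := by
      rw [← Finset.sdiff_eq_empty_iff_subset, ← Finset.card_eq_zero]; omega
    obtain ⟨S', k1, k2, k3, k4, k5, k6, k7⟩ := glue hd (subset_refl S)
      ((Finset.inter_subset_right (s₁ := T)).trans hHS)
    rw [Finset.sdiff_inter_self_right] at k5
    exact ⟨S', k1, Or.inr ⟨h.one _ (by omega), k.mono1 _ _ (k.mono1 _ _ hT2 subset_rfl) k3⟩,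
      by rw [sdiff_union_card hd]; omega⟩

end

end Pool.Agent.H81.WF
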