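import Pool.Agent.H81.CographRec3

/-!
# Zero forcing families of graphs
-/

set_option linter.unusedSectionVars false
set_option linter.unusedVariables false

namespace Pool.Agent.H81.WF

open Classical

variable {V : Type*} {G : SimpleGraph V} {A A1 A2 K C H S S' : Finset V} {a b m : ℕ}

def F1 (G : SimpleGraph V) (H : Finset V) (S : Finset V) : Prop := ZF G H S ∧ NbIn G H S
def M1 (G : SimpleGraph V) (A : Finset V) (S : Finset V) : Prop := Zm G A S ∧ NbIn G A S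

theorem sub_of_card (h : (A \ S).card = 0) : A ⊆ S := by
  rwa [Finset.card_eq_zero, Finset.sdiff_eq_empty_iff_subset] at h

theorem card_of_sub (h : A ⊆ S) : (A \ S).card = 0 := by
  rwa [Finset.card_eq_zero, Finset.sdiff_eq_empty_iff_subset]

theorem nonIso_eq (h : ∀ v ∈ H, ∃ y ∈ H, G.Adj v y) : nonIso G H = H :=
  Finset.Subset.antisymm nonIso_sub fun v hv => Finset.mem_filter.mpr ⟨hv, h v hv⟩

theorem isoS_eq (h : ∀ v ∈ H, ∃ y ∈ H, G.Adj v y) : isoS G H = ∅ := by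
  rw [Finset.eq_empty_iff_forall_notMem]
  intro v hv
  obtain ⟨y, hy, hvy⟩ := h v (isoS_sub hv)
  exact isoS_not hv hy hvy

theorem Zm_iff_ZF (h : ∀ v ∈ H, ∃ y ∈ H, G.Adj v y) : Zm G H S ↔ ZF G H S := by
  unfold Zm
  rw [nonIso_eq h, isoS_eq h]
  simp

theorem M1_eq_F1 (h : ∀ v ∈ H, ∃ y ∈ H, G.Adj v y) : M1 G H = F1 G H := by
  funext S
  unfold M1 F1
  rw [Zm_iff_ZF h]

theorem NbIn.mono' (h : NbIn G A S) (hS : S ∩ A ⊆ S') : NbIn G A S' := h.inter.mono hS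

theorem ZF.mono' (h : ZF G A S) (hS : S ∩ A ⊆ S') : ZF G A S' := h.inter.mono hS

theorem Zm.mono' (h : Zm G A S) (hS : S ∩ A ⊆ S') : Zm G A S' := by
  refine ⟨h.1.mono' ((Finset.inter_subset_inter_left nonIso_sub).trans hS), ?_⟩
  exact (card_mono_inter ((Finset.inter_subset_inter_left isoS_sub).trans hS)).trans h.2

theorem hf (hn : ∀ v ∈ H, ∃ y ∈ H, G.Adj v y) (hne : H.Nonempty) : HF H (ZF G H) (F1 G H) := by
  have one : ∀ S, (H \ S).card ≤ 1 → ZF G H S := fun S hS => (Zm_iff_ZF hn).mp (Zm_of_card hS)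
  refine ⟨fun S S' h hS => h.mono' hS, fun S S' h hS => ⟨h.1.mono' hS, h.2.mono' hS⟩,
    fun S h => h.1, one, ?_, ?_, ?_, hne⟩
  · intro S hS
    obtain ⟨x, hx⟩ := hne
    exact ⟨one S (by omega), x, hx, sub_of_card hS hx, fun y hy _ => sub_of_card hS hy⟩
  · rintro S ⟨hZ, x, hx, hxS, hN⟩
    obtain ⟨y, hy, hxy⟩ := hn x hx
    have hyS : y ∈ S := hN y hy hxy
    have hyb : BlueIn G H (S.erase y) y :=
      .force (.init hx (Finset.mem_erase.mpr ⟨hxy.ne, hxS⟩)) hy hxy fun z hz hxz hzy =>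
        .init hz (Finset.mem_erase.mpr ⟨hzy, hN z hz hxz⟩)
    have all : ∀ v, BlueIn G H S v → BlueIn G H (S.erase y) v := by
      intro v hv
      induction hv with
      | @init v hA hS =>
        by_cases hvy : v = y
        · exact hvy ▸ hyb
        · exact .init hA (Finset.mem_erase.mpr ⟨hvy, hS⟩)
      | force hu hw huw h ihu ih => exact .force ihu hw huw ih
    refine ⟨S.erase y, Finset.erase_subset _ _, fun v hv => all v (hZ v hv), ?_⟩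
    have : H \ S.erase y = insert y (H \ S) := by
      ext z
      simp only [Finset.mem_sdiff, Finset.mem_erase, Finset.mem_insert, not_and, ne_eq]
      constructor
      · rintro ⟨h1, h2⟩
        by_cases hzy : z = y
        · exact Or.inl hzy
        · exact Or.inr ⟨h1, h2 hzy⟩
      · rintro (rfl | ⟨h1, h2⟩)
        · exact ⟨hy, fun h => absurd rfl h⟩
        · exact ⟨h1, fun _ => h2⟩
    rw [this, Finset.card_insert_of_notMem]
    exact fun h => (Finset.mem_sdiff.mp h).2 hyS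
  · rintro ⟨S, hS, hc⟩
    by_cases hcl : ∀ x ∈ H, ∀ y ∈ H, x ≠ y → G.Adj x y
    · have := clique_card (subset_refl H) hcl (fun x _ y hy _ => hy) ((Zm_iff_ZF hn).mpr hS)
      omega
    · push Not at hcl
      obtain ⟨x, hx, y, hy, hxy, hn'⟩ := hcl
      have hc1 : (H \ H.erase y).card = 1 := by
        rw [Finset.sdiff_erase hy]
        simp
      refine ⟨H.erase y, hc1, one _ (by omega), x, hx, Finset.mem_erase.mpr ⟨hxy, hx⟩, ?_⟩
      intro z hz hxz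
      refine Finset.mem_erase.mpr ⟨?_, hz⟩
      rintro rfl
      exact hn' hxz

theorem fam (hnd : ∀ y ∈ C, ∃ x ∈ C, x ≠ y ∧ ¬ G.Adj x y) (hne : C.Nonempty) :
    Fam C (Zm G C) (M1 G C) := by
  refine ⟨fun S S' h hS => h.mono' hS, fun S S' h hS => ⟨h.1.mono' hS, h.2.mono' hS⟩,
    fun S h => h.1, ?_, hne⟩
  intro S hS
  refine ⟨Zm_of_card hS, ?_⟩
  by_cases h0 : C ⊆ S
  · obtain ⟨x, hx⟩ := hne
    exact ⟨x, hx, h0 hx, fun y hy _ => h0 hy⟩
  · obtain ⟨y, hy, hyS⟩ := Finset.not_subset.mp h0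
    obtain ⟨x, hx, hxy, hn⟩ := hnd y hy
    have hin : ∀ z ∈ C, z ≠ y → z ∈ S := by
      intro z hz hzy
      by_contra hzS
      exact hzy (Finset.card_le_one.mp hS z (Finset.mem_sdiff.mpr ⟨hz, hzS⟩) y
        (Finset.mem_sdiff.mpr ⟨hy, hyS⟩))
    refine ⟨x, hx, hin x hx hxy, fun z hz hxz => hin z hz ?_⟩
    rintro rfl
    exact hn hxz

section join
variable (hj : ∀ x ∈ A1, ∀ y ∈ A2, G.Adj x y) (hn1 : A1.Nonempty) (hn2 : A2.Nonempty)
include hj hn1 hn2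

theorem join_noiso : ∀ v ∈ A1 ∪ A2, ∃ y ∈ A1 ∪ A2, G.Adj v y := by
  intro v hv
  have := join_nonIso hj hn1 hn2
  rw [← this] at hv
  obtain ⟨y, hy, h⟩ := nonIso_noiso v hv
  exact ⟨y, nonIso_sub hy, h⟩

theorem join_ZF_iff : ZF G (A1 ∪ A2) S ↔ J0 A1 A2 (Zm G A1) (M1 G A1) (Zm G A2) (M1 G A2) S := by
  have hj' : ∀ x ∈ A2, ∀ y ∈ A1, G.Adj x y := fun x hx y hy => (hj y hy x hx).symm
  constructor
  · intro h
    have hZ1 := join_Zm hj h
    have hZ2 : Zm G A2 S := join_Zm hj' (by rwa [Finset.union_comm])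
    rcases join_nec hj h with h3 | h3 | ⟨h3, h4⟩ | ⟨h3, h4⟩
    · exact Or.inl (Or.inl ⟨hZ1, card_of_sub h3⟩)
    · exact Or.inr (Or.inl ⟨hZ2, card_of_sub h3⟩)
    · exact Or.inl (Or.inr ⟨⟨hZ1, h4⟩, h3⟩)
    · exact Or.inr (Or.inr ⟨⟨hZ2, h4⟩, h3⟩)
  · rintro ((⟨h, h'⟩ | ⟨h, h'⟩) | (⟨h, h'⟩ | ⟨h, h'⟩))
    · exact join_suff hj hn2 h (Or.inl (sub_of_card h'))
    · exact join_suff hj hn2 h.1 (Or.inr ⟨h', h.2⟩)
    · rw [Finset.union_comm]
      exact join_suff hj' hn1 h (Or.inl (sub_of_card h'))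
    · rw [Finset.union_comm]
      exact join_suff hj' hn1 h.1 (Or.inr ⟨h', h.2⟩)

theorem join_F1_iff : F1 G (A1 ∪ A2) S ↔ J1 A1 A2 (M1 G A1) (M1 G A2) S := by
  have hj' : ∀ x ∈ A2, ∀ y ∈ A1, G.Adj x y := fun x hx y hy => (hj y hy x hx).symm
  constructor
  · rintro ⟨h, hN⟩
    have hZ1 := join_Zm hj h
    have hZ2 : Zm G A2 S := join_Zm hj' (by rwa [Finset.union_comm])
    rcases join_Nb_nec hj hN with ⟨h3, h4⟩ | ⟨h3, h4⟩
    · exact Or.inl ⟨⟨hZ1, h4⟩, card_of_sub h3⟩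
    · exact Or.inr ⟨⟨hZ2, h4⟩, card_of_sub h3⟩
  · rintro (⟨h, h'⟩ | ⟨h, h'⟩)
    · exact ⟨join_suff hj hn2 h.1 (Or.inl (sub_of_card h')), join_Nb_suff (sub_of_card h') h.2⟩
    · rw [Finset.union_comm]
      exact ⟨join_suff hj' hn1 h.1 (Or.inl (sub_of_card h')), join_Nb_suff (sub_of_card h') h.2⟩

theorem join_J0 : ZF G (A1 ∪ A2) = J0 A1 A2 (Zm G A1) (M1 G A1) (Zm G A2) (M1 G A2) := by
  funext S; exact propext (join_ZF_iff hj hn1 hn2)

theorem join_Zm0 : Zm G (A1 ∪ A2) = J0 A1 A2 (Zm G A1) (M1 G A1) (Zm G A2) (M1 G A2) := by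
  funext S; exact propext ((Zm_iff_ZF (join_noiso hj hn1 hn2)).trans (join_ZF_iff hj hn1 hn2))

theorem join_J1 : F1 G (A1 ∪ A2) = J1 A1 A2 (M1 G A1) (M1 G A2) := by
  funext S; exact propext (join_F1_iff hj hn1 hn2)

theorem join_M1 : M1 G (A1 ∪ A2) = J1 A1 A2 (M1 G A1) (M1 G A2) := by
  rw [M1_eq_F1 (join_noiso hj hn1 hn2), join_J1 hj hn1 hn2]

end join

section clique
variable (hcl : ∀ x ∈ K, ∀ y ∈ K, x ≠ y → G.Adj x y)
include hcl

theorem clique_Zm : Zm G K S ↔ (K \ S).card ≤ 1 :=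
  ⟨fun h => clique_card (subset_refl K) hcl (fun x _ y hy _ => hy) h, Zm_of_card⟩

theorem clique_Nb (hne : K.Nonempty) : NbIn G K S ↔ (K \ S).card = 0 := by
  constructor
  · rintro ⟨x, hx, hxS, hN⟩
    refine card_of_sub fun y hy => ?_
    by_cases hxy : x = y
    · exact hxy ▸ hxS
    · exact hN y hy (hcl x hx y hy hxy)
  · intro h
    obtain ⟨x, hx⟩ := hne
    exact ⟨x, hx, sub_of_card h hx, fun y hy _ => sub_of_card h hy⟩

theorem K_ZF (hj : ∀ x ∈ K, ∀ y ∈ C, G.Adj x y) (hK : K.Nonempty) (f : Fam C (Zm G C) (M1 G C)) :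
    ZF G (K ∪ C) = K0 K (Zm G C) (M1 G C) := by
  funext S
  rw [join_J0 hj hK f.ne]
  apply propext
  unfold J0 K0
  constructor
  · rintro ((⟨h, h'⟩ | ⟨h, h'⟩) | (⟨h, h'⟩ | ⟨h, h'⟩))
    · exact Or.inr ⟨(clique_Zm hcl).mp h, f.one S (by omega)⟩
    · exact Or.inl ⟨(clique_Nb hcl hK).mp h.2, f.le _ (f.one S h')⟩
    · exact Or.inl ⟨h', h⟩
    · exact Or.inr ⟨h', h⟩
  · rintro (⟨h, h'⟩ | ⟨h, h'⟩)
    · exact Or.inr (Or.inl ⟨h', h⟩)
    · exact Or.inr (Or.inr ⟨h', h⟩)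

theorem K_F1 (hj : ∀ x ∈ K, ∀ y ∈ C, G.Adj x y) (hK : K.Nonempty) (f : Fam C (Zm G C) (M1 G C)) :
    F1 G (K ∪ C) = K1 K (M1 G C) := by
  funext S
  rw [join_J1 hj hK f.ne]
  apply propext
  unfold J1 K1
  constructor
  · rintro (⟨h, h'⟩ | ⟨h, h'⟩)
    · exact ⟨(clique_Nb hcl hK).mp h.2, f.one S (by omega)⟩
    · exact ⟨h', h⟩
  · rintro ⟨h, h'⟩
    exact Or.inr ⟨h', h⟩

theorem clique_noiso (h2 : 2 ≤ K.card) : ∀ v ∈ K, ∃ y ∈ K, G.Adj v y := by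
  intro v hv
  obtain ⟨y, hy, hyv⟩ := Finset.exists_mem_ne (by omega : 1 < K.card) v
  exact ⟨y, hy, hcl v hv y hy (Ne.symm hyv)⟩

theorem clique_AM (h2 : 2 ≤ K.card) : AM K (ZF G K) m ↔ m = 1 := by
  have hn := clique_noiso hcl h2
  constructor
  · intro h
    obtain ⟨X, hX, hcX⟩ := shrink (A := K) (S := K) (k := 1) (by simp) (by omega)
    obtain ⟨S', h1, h3, h4⟩ := h X ((Zm_iff_ZF hn).mp ((clique_Zm hcl).mpr (by omega)))
    have c1 := card_mono_sdiff (A := K) h1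
    have c2 := (clique_Zm hcl).mp ((Zm_iff_ZF hn).mpr h3)
    omega
  · rintro rfl S hS
    have c2 := (clique_Zm hcl).mp ((Zm_iff_ZF hn).mpr hS)
    obtain ⟨X, hX, hcX⟩ := shrink (A := K) (S := S) (k := 1) (by omega) (by omega)
    exact ⟨X, hX, (Zm_iff_ZF hn).mp ((clique_Zm hcl).mpr (by omega)), hcX⟩

theorem clique_TT (h2 : 2 ≤ K.card) : TT K (ZF G K) (F1 G K) m ↔ m = 1 := by
  constructor
  · rintro ⟨h, -, -⟩
    exact (clique_AM hcl h2).mp h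
  · rintro rfl
    refine ⟨(clique_AM hcl h2).mpr rfl, le_rfl, ?_⟩
    rintro S ⟨h1, h3⟩
    exact ⟨S, subset_rfl, ⟨h1, h3⟩,
      (clique_Nb hcl (Finset.card_pos.mp (by omega))).mp h3⟩

end clique

/-! ### Disjoint unions -/

theorem Zm_D0 : Zm G A = D0 (isoS G A) (ZF G (nonIso G A)) := rfl

theorem M1_D1 : M1 G A = D1 (isoS G A) (ZF G (nonIso G A)) (F1 G (nonIso G A)) := by
  funext S
  apply propext
  unfold M1 D1
  rw [Nb_iff]
  have e : (∃ i ∈ isoS G A, i ∈ S) ↔ (isoS G A \ S).card < (isoS G A).card := by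
    constructor
    · rintro ⟨i, hi, hiS⟩
      refine Finset.card_lt_card (Finset.ssubset_iff_subset_ne.mpr ⟨Finset.sdiff_subset, ?_⟩)
      intro h
      rw [← h] at hi
      exact (Finset.mem_sdiff.mp hi).2 hiS
    · intro h
      by_contra hcon
      push Not at hcon
      have : isoS G A \ S = isoS G A := by
        ext x
        rw [Finset.mem_sdiff]
        exact ⟨fun h => h.1, fun h => ⟨h, hcon x h⟩⟩
      rw [this] at h
      omega
  rw [e]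
  constructor
  · rintro ⟨h1, h2 | h2⟩
    · exact ⟨h1, Or.inl h2⟩
    · exact ⟨h1, Or.inr ⟨h1.1, h2⟩⟩
  · rintro ⟨h1, h2 | h2⟩
    · exact ⟨h1, Or.inl h2⟩
    · exact ⟨h1, Or.inr h2.2⟩

section union
variable (hno : ∀ x ∈ A1, ∀ y ∈ A2, ¬ G.Adj x y)
include hno

theorem isoS_union : isoS G (A1 ∪ A2) = isoS G A1 ∪ isoS G A2 := by
  ext v
  simp only [isoS, Finset.mem_filter, Finset.mem_union]
  constructor
  · rintro ⟨h | h, h2⟩
    · exact Or.inl ⟨h, fun ⟨y, hy, hvy⟩ => h2 ⟨y, Or.inl hy, hvy⟩⟩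
    · exact Or.inr ⟨h, fun ⟨y, hy, hvy⟩ => h2 ⟨y, Or.inr hy, hvy⟩⟩
  · rintro (⟨h, h2⟩ | ⟨h, h2⟩)
    · refine ⟨Or.inl h, ?_⟩
      rintro ⟨y, hy | hy, hvy⟩
      · exact h2 ⟨y, hy, hvy⟩
      · exact hno v h y hy hvy
    · refine ⟨Or.inr h, ?_⟩
      rintro ⟨y, hy | hy, hvy⟩
      · exact hno y hy v h hvy.symm
      · exact h2 ⟨y, hy, hvy⟩

theorem nonIso_union : nonIso G (A1 ∪ A2) = nonIso G A1 ∪ nonIso G A2 := by
  ext v
  simp only [nonIso, Finset.mem_filter, Finset.mem_union]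
  constructor
  · rintro ⟨h | h, y, hy | hy, hvy⟩
    · exact Or.inl ⟨h, y, hy, hvy⟩
    · exact absurd hvy (hno v h y hy)
    · exact absurd hvy.symm (hno y hy v h)
    · exact Or.inr ⟨h, y, hy, hvy⟩
  · rintro (⟨h, y, hy, hvy⟩ | ⟨h, y, hy, hvy⟩)
    · exact ⟨Or.inl h, y, Or.inl hy, hvy⟩
    · exact ⟨Or.inr h, y, Or.inr hy, hvy⟩

theorem U_ZF : ZF G (A1 ∪ A2) = fun S => ZF G A1 S ∧ ZF G A2 S := by
  funext S; exact propext (ZF_union hno)

theorem U_F1 : F1 G (A1 ∪ A2) = fun S => (F1 G A1 S ∧ ZF G A2 S) ∨ (ZF G A1 S ∧ F1 G A2 S) := by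
  funext S
  apply propext
  unfold F1
  rw [ZF_union hno, NbIn_union hno]
  tauto

end union

end Pool.Agent.H81.WF
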