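import Pool.Agent.H81.JoinThm

/-!
# Graphs with a vertex adjacent to all others
-/

set_option linter.unusedSectionVars false
set_option linter.unusedVariables false

namespace Pool.Agent.H81.CG

open Pool.Agent.H81.WF Classical

variable {V : Type*} {G : SimpleGraph V} {A A1 A2 : Finset V} {m : ℕ} {u : V}

section
variable (hu : u ∉ A) (hadj : ∀ v ∈ A, G.Adj u v)
include hu hadj

theorem cone_iff {S : Finset V} : ZF G (insert u A) S ↔
    ZF G (nonIso G A) S ∧ (isoS G A \ S).card ≤ 1 ∧
      (u ∈ S ∨ (∃ i ∈ isoS G A, i ∈ S) ∨ NbIn G (nonIso G A) S) := by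
  have hcone : Cone G u (isoS G A) (nonIso G A) := by
    refine ⟨fun h => hu (isoS_sub h), fun h => hu (nonIso_sub h), iso_disj, ?_, ?_, nonIso_noiso⟩
    · intro v hv
      rw [iso_union] at hv
      exact hadj v hv
    · intro i hi y hy
      rw [iso_union] at hy
      exact isoS_not hi hy
  have := cone_ZF (S := S) hcone
  rwa [iso_union] at this

theorem cone_card (S : Finset V) : (insert u A \ S).card =
    (({u} : Finset V) \ S).card + (isoS G A \ S).card + (nonIso G A \ S).card := by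
  have h1 : Disjoint ({u} : Finset V) A := Finset.disjoint_singleton_left.mpr hu
  rw [Finset.insert_eq, sdiff_union_card h1, add_assoc]
  congr 1
  conv_lhs => rw [← iso_union (G := G) (A := A)]
  exact sdiff_union_card iso_disj

end

theorem u_card {S : Finset V} : (({u} : Finset V) \ S).card = 0 ↔ u ∈ S := by
  rw [Finset.card_eq_zero, Finset.sdiff_eq_empty_iff_subset, Finset.singleton_subset_iff]

theorem u_card_le (S : Finset V) : (({u} : Finset V) \ S).card ≤ 1 :=
  (Finset.card_le_card Finset.sdiff_subset).trans (by simp)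

/-- Choose a subset with prescribed traces on `{u}`, `isoS`, `nonIso`. -/
theorem tri (hu : u ∉ A) {S X : Finset V} {j k : ℕ} (hX : X ⊆ S)
    (hj1 : (({u} : Finset V) \ S).card ≤ j) (hj2 : j ≤ 1)
    (hk1 : (isoS G A \ S).card ≤ k) (hk2 : k ≤ (isoS G A).card) :
    ∃ S', S' ⊆ S ∧ (({u} : Finset V) \ S').card = j ∧ (isoS G A \ S').card = k ∧
      (nonIso G A \ S').card = (nonIso G A \ X).card ∧ X ∩ nonIso G A ⊆ S' ∧
      ∀ T, T ⊆ S' → T ∩ nonIso G A ⊆ X := by
  obtain ⟨Y, hY, hcY⟩ := shrink (A := isoS G A) (S := S) hk1 hk2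
  obtain ⟨Z, hZ, hcZ⟩ := shrink (A := ({u} : Finset V)) (S := S) hj1 (by simpa using hj2)
  obtain ⟨W, g1, g2, g3, g4, g5, g6, g7⟩ := glue (S := S) (iso_disj (G := G) (A := A)) hY hX
  have h1 : Disjoint ({u} : Finset V) A := Finset.disjoint_singleton_left.mpr hu
  obtain ⟨T, k1, k2, k3, k4, k5, k6, k7⟩ := glue h1 hZ g1
  have e1 : ∀ C : Finset V, C ⊆ A → (C \ T).card = (C \ W).card := by
    intro C hC
    congr 1
    ext x
    rw [Finset.mem_sdiff, Finset.mem_sdiff]
    constructor
    · rintro ⟨h2, h3⟩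
      exact ⟨h2, fun h4 => h3 (k3 (Finset.mem_inter.mpr ⟨h4, hC h2⟩))⟩
    · rintro ⟨h2, h3⟩
      exact ⟨h2, fun h4 => h3 (k7 (Finset.mem_inter.mpr ⟨h4, hC h2⟩))⟩
  refine ⟨T, k1, by omega, by rw [e1 _ isoS_sub]; omega, by rw [e1 _ nonIso_sub]; omega, ?_, ?_⟩
  · intro x hx
    exact k3 (Finset.mem_inter.mpr ⟨g3 hx, nonIso_sub (Finset.mem_inter.mp hx).2⟩)
  · intro T' hT' x hx
    obtain ⟨h2, h3⟩ := Finset.mem_inter.mp hx
    exact g7 (Finset.mem_inter.mpr ⟨k7 (Finset.mem_inter.mpr ⟨hT' h2, nonIso_sub h3⟩), h3⟩)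

section
variable (hu : u ∉ A) (hadj : ∀ v ∈ A, G.Adj u v)
include hu hadj

theorem exI (S : Finset V) : (∃ i ∈ isoS G A, i ∈ S) ↔ (isoS G A \ S).card < (isoS G A).card := by
  constructor
  · rintro ⟨i, hi, hiS⟩
    refine Finset.card_lt_card (Finset.ssubset_iff_subset_ne.mpr ⟨Finset.sdiff_subset, ?_⟩)
    intro h
    rw [← h] at hi
    exact (Finset.mem_sdiff.mp hi).2 hiS
  · intro h
    by_contra hcon
    push Not at hcon
    have : isoS G A \ S = isoS G A := by
      ext x
      rw [Finset.mem_sdiff]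
      exact ⟨fun h => h.1, fun h => ⟨h, hcon x h⟩⟩
    rw [this] at h
    omega

/-- Membership in the family of zero forcing sets of the cone, by cardinalities. -/
theorem cone_iff' {S : Finset V} : ZF G (insert u A) S ↔
    ZF G (nonIso G A) S ∧ (isoS G A \ S).card ≤ 1 ∧
      ((({u} : Finset V) \ S).card = 0 ∨ (isoS G A \ S).card < (isoS G A).card ∨
        NbIn G (nonIso G A) S) := by
  rw [cone_iff hu hadj, u_card, exI hu hadj]

/-- `X` on `nonIso`, missing `j` of `{u}` and `k` of `isoS`. -/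
theorem tri' (X : Finset V) {j k : ℕ} (hj : j ≤ 1) (hk : k ≤ (isoS G A).card) :
    ∃ S, (({u} : Finset V) \ S).card = j ∧ (isoS G A \ S).card = k ∧
      (nonIso G A \ S).card = (nonIso G A \ X).card ∧ X ∩ nonIso G A ⊆ S ∧
      ∀ T, T ⊆ S → T ∩ nonIso G A ⊆ X := by
  obtain ⟨S, -, k2, k3, k4, k5, k6⟩ := tri (G := G) hu (S := X ∪ insert u A) (X := X) (j := j)
    (k := k) Finset.subset_union_left (by
      rw [Finset.sdiff_eq_empty_iff_subset.mpr]
      · simp
      · intro x hx
        rw [Finset.mem_singleton] at hx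
        exact Finset.mem_union_right _ (hx ▸ Finset.mem_insert_self _ _)) hj (by
      rw [Finset.sdiff_eq_empty_iff_subset.mpr]
      · simp
      · exact isoS_sub.trans ((Finset.subset_insert u A).trans Finset.subset_union_right)) hk
  exact ⟨S, k2, k3, k4, k5, k6⟩

theorem cone_many (hI : 2 ≤ (isoS G A).card) :
    (∃ m, AM (insert u A) (ZF G (insert u A)) m) ↔
      ∃ m, AM (nonIso G A) (ZF G (nonIso G A)) m := by
  constructor
  · rintro ⟨m, h⟩
    refine ⟨m - 2, fun X hX => ?_⟩
    obtain ⟨S, k2, k3, k4, k5, k6⟩ := tri' hu hadj X (j := 1) (k := 1) le_rfl (by omega)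
    obtain ⟨S', h1, h2, h3⟩ := h S ((cone_iff' hu hadj).mpr
      ⟨hX.mono' k5, by omega, Or.inr (Or.inl (by omega))⟩)
    obtain ⟨h4, h5, -⟩ := (cone_iff' hu hadj).mp h2
    rw [cone_card hu hadj] at h3
    have c1 := card_mono_sdiff (A := ({u} : Finset V)) h1
    have c2 := card_mono_sdiff (A := isoS G A) h1
    have c3 := u_card_le (u := u) S'
    exact ⟨S' ∩ nonIso G A, k6 S' h1, h4.inter, by rw [Finset.sdiff_inter_self_right]; omega⟩
  · rintro ⟨m, h⟩
    refine ⟨m + 2, fun S hS => ?_⟩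
    obtain ⟨h4, h5, -⟩ := (cone_iff' hu hadj).mp hS
    obtain ⟨X, hX, hXZ, hXc⟩ := h S h4
    obtain ⟨S', k1, k2, k3, k4, k5, k6⟩ := tri (G := G) hu (S := S) (X := X) (j := 1) (k := 1) hX
      (u_card_le _) le_rfl h5 (by omega)
    exact ⟨S', k1, (cone_iff' hu hadj).mpr ⟨hXZ.mono' k5, by omega, Or.inr (Or.inl (by omega))⟩,
      by rw [cone_card hu hadj]; omega⟩

theorem cone_few (hI : (isoS G A).card ≤ 1) :
    (∃ m, AM (insert u A) (ZF G (insert u A)) m) ↔
      (nonIso G A = ∅ ∨ ∃ m, TT (nonIso G A) (ZF G (nonIso G A)) (F1 G (nonIso G A)) m) := by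
  rcases (nonIso G A).eq_empty_or_nonempty with e | e
  · refine ⟨fun _ => Or.inl e, fun _ => ⟨(isoS G A).card, fun S hS => ?_⟩⟩
    obtain ⟨h4, h5, h6⟩ := (cone_iff' hu hadj).mp hS
    have hno : ¬ NbIn G (nonIso G A) S := by
      rintro ⟨x, hx, -⟩
      rw [e] at hx
      exact absurd hx (Finset.notMem_empty _)
    have hz : ∀ T : Finset V, (nonIso G A \ T).card = 0 := by intro T; rw [e]; simp
    have c3 := u_card_le (u := u) S
    have c4 : (isoS G A \ S).card ≤ (isoS G A).card := Finset.card_le_card Finset.sdiff_subset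
    by_cases hc : (({u} : Finset V) \ S).card + (isoS G A \ S).card = (isoS G A).card
    · exact ⟨S, subset_rfl, hS, by rw [cone_card hu hadj, hz S]; omega⟩
    · have h7 : (({u} : Finset V) \ S).card = 0 ∧ (isoS G A \ S).card = 0 ∧
          (isoS G A).card = 1 := by
        rcases h6 with h6 | h6 | h6
        · omega
        · omega
        · exact absurd h6 hno
      obtain ⟨S', k1, k2, k3, k4, k5, k6⟩ := tri (G := G) hu (S := S) (X := S) (j := 1) (k := 0)
        subset_rfl (u_card_le _) le_rfl (by omega) (by omega)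
      exact ⟨S', k1, (cone_iff' hu hadj).mpr ⟨h4.mono' k5, by omega, Or.inr (Or.inl (by omega))⟩,
        by rw [cone_card hu hadj, hz S']; omega⟩
  · have h := nonIso_props e
    constructor
    · rintro ⟨m, hA⟩
      refine Or.inr ⟨m - (isoS G A).card, ?_⟩
      have key : ∀ X, F1 G (nonIso G A) X → (isoS G A).card + 1 ≤ m ∧ ∃ S', S' ⊆ X ∧
          F1 G (nonIso G A) S' ∧ (nonIso G A \ S').card = m - (isoS G A).card - 1 := by
        intro X hX
        obtain ⟨S, k2, k3, k4, k5, k6⟩ := tri' hu hadj X (j := 1) (k := (isoS G A).card) le_rfl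
          le_rfl
        obtain ⟨S', h1, h2, h3⟩ := hA S ((cone_iff' hu hadj).mpr
          ⟨hX.1.mono' k5, by omega, Or.inr (Or.inr (hX.2.mono' k5))⟩)
        obtain ⟨h4, h5, h6⟩ := (cone_iff' hu hadj).mp h2
        rw [cone_card hu hadj] at h3
        have c1 := card_mono_sdiff (A := ({u} : Finset V)) h1
        have c2 := card_mono_sdiff (A := isoS G A) h1
        have c3 := u_card_le (u := u) S'
        have c4 : (isoS G A \ S').card ≤ (isoS G A).card := Finset.card_le_card Finset.sdiff_subset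
        have hN : NbIn G (nonIso G A) S' := by
          rcases h6 with h6 | h6 | h6
          · omega
          · omega
          · exact h6
        exact ⟨by omega, S' ∩ nonIso G A, k6 S' h1, ⟨h4.inter, hN.inter⟩,
          by rw [Finset.sdiff_inter_self_right]; omega⟩
      have hpos := (key (nonIso G A) (h.full _ (by simp))).1
      refine ⟨fun X hX => ?_, by omega, fun X hX => (key X hX).2⟩
      obtain ⟨S, k2, k3, k4, k5, k6⟩ := tri' hu hadj X (j := 0) (k := (isoS G A).card) (by omega)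
        le_rfl
      obtain ⟨S', h1, h2, h3⟩ := hA S ((cone_iff' hu hadj).mpr
        ⟨hX.mono' k5, by omega, Or.inl k2⟩)
      obtain ⟨h4, h5, h6⟩ := (cone_iff' hu hadj).mp h2
      rw [cone_card hu hadj] at h3
      have c2 := card_mono_sdiff (A := isoS G A) h1
      have c3 := u_card_le (u := u) S'
      have c4 : (isoS G A \ S').card ≤ (isoS G A).card := Finset.card_le_card Finset.sdiff_subset
      by_cases hx : (({u} : Finset V) \ S').card = 0
      · exact ⟨S' ∩ nonIso G A, k6 S' h1, h4.inter,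
          by rw [Finset.sdiff_inter_self_right]; omega⟩
      · have hN : NbIn G (nonIso G A) S' := by
          rcases h6 with h6 | h6 | h6
          · exact absurd h6 hx
          · omega
          · exact h6
        obtain ⟨T, hT1, hT2, hT3⟩ := h.ext (S' ∩ nonIso G A) ⟨h4.inter, hN.inter⟩
        rw [Finset.sdiff_inter_self_right] at hT3
        exact ⟨T, hT1.trans (k6 S' h1), hT2, by omega⟩
    · rintro (h0 | ⟨m, hT⟩)
      · exact absurd e (by rw [h0]; exact Finset.not_nonempty_empty)
      · obtain ⟨hT0, hm, hT1⟩ := hT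
        refine ⟨m + (isoS G A).card, fun S hS => ?_⟩
        obtain ⟨h4, h5, h6⟩ := (cone_iff' hu hadj).mp hS
        have c3 := u_card_le (u := u) S
        have c4 : (isoS G A \ S).card ≤ (isoS G A).card := Finset.card_le_card Finset.sdiff_subset
        by_cases hx : (({u} : Finset V) \ S).card = 0
        · obtain ⟨X, hX, hXZ, hXc⟩ := hT0 S h4
          obtain ⟨S', k1, k2, k3, k4, k5, k6⟩ := tri (G := G) hu (S := S) (X := X) (j := 0)
            (k := (isoS G A).card) hX (by omega) (by omega) c4 le_rfl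
          exact ⟨S', k1, (cone_iff' hu hadj).mpr ⟨hXZ.mono' k5, by omega, Or.inl k2⟩,
            by rw [cone_card hu hadj]; omega⟩
        · by_cases hy : (isoS G A \ S).card < (isoS G A).card
          · obtain ⟨X, hX, hXZ, hXc⟩ := hT0 S h4
            obtain ⟨S', k1, k2, k3, k4, k5, k6⟩ := tri (G := G) hu (S := S) (X := X) (j := 1)
              (k := 0) hX (by omega) (by omega) (by omega) (by omega)
            exact ⟨S', k1, (cone_iff' hu hadj).mpr ⟨hXZ.mono' k5, by omega,
              Or.inr (Or.inl (by omega))⟩, by rw [cone_card hu hadj]; omega⟩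
          · have hN : NbIn G (nonIso G A) S := by
              rcases h6 with h6 | h6 | h6
              · exact absurd h6 hx
              · exact absurd h6 hy
              · exact h6
            obtain ⟨X, hX, hXF, hXc⟩ := hT1 S ⟨h4, hN⟩
            obtain ⟨S', k1, k2, k3, k4, k5, k6⟩ := tri (G := G) hu (S := S) (X := X) (j := 1)
              (k := (isoS G A).card) hX (by omega) (by omega) c4 le_rfl
            exact ⟨S', k1, (cone_iff' hu hadj).mpr ⟨hXF.1.mono' k5, by omega,
              Or.inr (Or.inr (hXF.2.mono' k5))⟩, by rw [cone_card hu hadj]; omega⟩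

end

/-- Splitting a disjoint union under a cone. -/
theorem few_union (hd : Disjoint A1 A2) (hno : ∀ x ∈ A1, ∀ y ∈ A2, ¬ G.Adj x y) :
    (nonIso G (A1 ∪ A2) = ∅ ∨ ∃ m, TT (nonIso G (A1 ∪ A2)) (ZF G (nonIso G (A1 ∪ A2)))
      (F1 G (nonIso G (A1 ∪ A2))) m) ↔
    (nonIso G A1 = ∅ ∨ ∃ m, TT (nonIso G A1) (ZF G (nonIso G A1)) (F1 G (nonIso G A1)) m) ∧
    (nonIso G A2 = ∅ ∨ ∃ m, TT (nonIso G A2) (ZF G (nonIso G A2)) (F1 G (nonIso G A2)) m) := by
  have hU := nonIso_union hno
  have hno' : ∀ x ∈ nonIso G A1, ∀ y ∈ nonIso G A2, ¬ G.Adj x y := fun x hx y hy =>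
    hno x (nonIso_sub hx) y (nonIso_sub hy)
  have hd' : Disjoint (nonIso G A1) (nonIso G A2) := hd.mono nonIso_sub nonIso_sub
  rcases (nonIso G A1).eq_empty_or_nonempty with e1 | e1
  · rw [hU, e1, Finset.empty_union]
    simp
  · rcases (nonIso G A2).eq_empty_or_nonempty with e2 | e2
    · rw [hU, e2, Finset.union_empty]
      simp
    · have n1 : ¬ nonIso G A1 = ∅ := Finset.nonempty_iff_ne_empty.mp e1
      have n2 : ¬ nonIso G A2 = ∅ := Finset.nonempty_iff_ne_empty.mp e2
      have n3 : ¬ nonIso G (A1 ∪ A2) = ∅ := by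
        rw [hU, Finset.union_eq_empty]
        exact fun h => n1 h.1
      simp only [n1, n2, n3, false_or]
      have h1 := nonIso_props e1
      have h2 := nonIso_props e2
      rw [hU, U_ZF hno', U_F1 hno']
      constructor
      · rintro ⟨m, hm⟩
        obtain ⟨m1, m2, -, h3, h4⟩ := (TT_U hd' h1 h2).mp hm
        exact ⟨⟨m1, h3⟩, m2, h4⟩
      · rintro ⟨⟨m1, h3⟩, m2, h4⟩
        exact ⟨m1 + m2, (TT_U hd' h1 h2).mpr ⟨m1, m2, rfl, h3, h4⟩⟩

theorem cone_main [Fintype V] (hu : ∀ v, v ≠ u → G.Adj u v) :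
    ((∃ v w, v ≠ w ∧ (v ≠ u ∧ ∀ x, G.Adj v x → x = u) ∧ (w ≠ u ∧ ∀ x, G.Adj w x → x = u)) →
      (WellForced G ↔ WellForced (G.induce {v | v ≠ u}))) ∧
    ((∀ v w, (v ≠ u ∧ ∀ x, G.Adj v x → x = u) → (w ≠ u ∧ ∀ x, G.Adj w x → x = u) → v = w) →
      ∀ A B : Finset V, (∀ v, v ≠ u ↔ v ∈ A ∨ v ∈ B) → Disjoint A B →
        (∀ x ∈ A, ∀ y ∈ B, ¬ G.Adj x y) →
        (WellForced G ↔ WellForced (G.induce (insert u (A : Set V))) ∧
          WellForced (G.induce (insert u (B : Set V))))) := by
  have hu0 : u ∉ (Finset.univ.erase u : Finset V) := Finset.notMem_erase _ _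
  have hadj0 : ∀ v ∈ (Finset.univ.erase u : Finset V), G.Adj u v := fun v hv =>
    hu v (Finset.mem_erase.mp hv).1
  have hins : insert u (Finset.univ.erase u : Finset V) = Finset.univ :=
    Finset.insert_erase (Finset.mem_univ u)
  have hiso : ∀ v, v ∈ isoS G (Finset.univ.erase u : Finset V) ↔
      (v ≠ u ∧ ∀ x, G.Adj v x → x = u) := by
    intro v
    unfold isoS
    rw [Finset.mem_filter]
    simp only [Finset.mem_erase, Finset.mem_univ, and_true]
    constructor
    · rintro ⟨h1, h2⟩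
      refine ⟨h1, fun x hx => ?_⟩
      by_contra hxu
      exact h2 ⟨x, hxu, hx⟩
    · rintro ⟨h1, h2⟩
      refine ⟨h1, ?_⟩
      rintro ⟨y, hy, hvy⟩
      exact hy (h2 y hvy)
  have hWF : WellForced G ↔ ∃ m, AM (insert u (Finset.univ.erase u : Finset V))
      (ZF G (insert u (Finset.univ.erase u : Finset V))) m := by
    rw [hins]; exact wf_iff
  constructor
  · rintro ⟨v, w, hvw, hv, hw⟩
    have h2 : 2 ≤ (isoS G (Finset.univ.erase u : Finset V)).card :=
      Finset.one_lt_card.mpr ⟨v, (hiso v).mpr hv, w, (hiso w).mpr hw, hvw⟩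
    have e : ((Finset.univ.erase u : Finset V) : Set V) = {v | v ≠ u} := by
      ext v; simp
    rw [hWF, cone_many hu0 hadj0 h2, ← e, ind_wf]
    exact exists_congr fun m => AM_iso.symm
  · intro h A B hAB hd hno
    have hA0 : (Finset.univ.erase u : Finset V) = A ∪ B := by
      ext v
      simp only [Finset.mem_erase, Finset.mem_univ, and_true, Finset.mem_union]
      exact hAB v
    have hc : (isoS G (A ∪ B)).card ≤ 1 := by
      rw [← hA0, Finset.card_le_one]
      exact fun v hv w hw => h v w ((hiso v).mp hv) ((hiso w).mp hw)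
    rw [hA0] at hWF hu0 hadj0
    have hcA : (isoS G A).card ≤ 1 :=
      (Finset.card_le_card (by rw [isoS_union hno]; exact Finset.subset_union_left)).trans hc
    have hcB : (isoS G B).card ≤ 1 :=
      (Finset.card_le_card (by rw [isoS_union hno]; exact Finset.subset_union_right)).trans hc
    have huA : u ∉ A := fun h => hu0 (Finset.mem_union_left _ h)
    have huB : u ∉ B := fun h => hu0 (Finset.mem_union_right _ h)
    have eA : ((insert u A : Finset V) : Set V) = insert u (A : Set V) := Finset.coe_insert _ _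
    have eB : ((insert u B : Finset V) : Set V) = insert u (B : Set V) := Finset.coe_insert _ _
    rw [hWF, cone_few hu0 hadj0 hc, ← eA, ← eB, ind_wf, ind_wf,
      cone_few huA (fun v hv => hadj0 v (Finset.mem_union_left _ hv)) hcA,
      cone_few huB (fun v hv => hadj0 v (Finset.mem_union_right _ hv)) hcB]
    exact few_union hd hno

end Pool.Agent.H81.CG
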