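import Mathlib

/-!
# Disconnected and edgeless induced subgraphs
-/

namespace Pool.Agent.H81.CG

variable {V : Type*}

/-- The subgraph of `G` induced by `A` is disconnected: `A` is the disjoint union of two nonempty
sets without edges between them. -/
def Disconnected (G : SimpleGraph V) (A : Finset V) : Prop :=
  ∃ X Y : Finset V, X.Nonempty ∧ Y.Nonempty ∧ (∀ v, v ∈ A ↔ v ∈ X ∨ v ∈ Y) ∧ Disjoint X Y ∧
    ∀ x ∈ X, ∀ y ∈ Y, ¬ G.Adj x y

/-- The subgraph of `G` induced by `A` has no edge. -/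
def Edgeless (G : SimpleGraph V) (A : Finset V) : Prop := ∀ x ∈ A, ∀ y ∈ A, ¬ G.Adj x y

end Pool.Agent.H81.CG
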