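import Pool.Agent.H81.CographMain
import Pool.Agent.H81.JoinDefs

/-!
# Joins of disconnected graphs
-/

set_option linter.unusedSectionVars false
set_option linter.unusedVariables false

namespace Pool.Agent.H81.CG

open Pool.Agent.H81.WF Classical

variable {V ι : Type*} {G : SimpleGraph V} {A B1 B2 C : Finset V} {m : ℕ}

theorem AM_unique {P : Finset V → Prop} {m1 m2 : ℕ} {S : Finset V} (hS : P S)
    (h1 : AM A P m1) (h2 : AM A P m2) : m1 = m2 := by
  obtain ⟨X, hX, hPX, hcX⟩ := h1 S hS
  obtain ⟨Y, hY, hPY, hcY⟩ := h2 S hS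
  have c1 := AM_le h2 hPX
  have c2 := AM_le h1 hPY
  omega

theorem Good_exists (A : Finset V) : ∃ w t, Good G A w t := by
  rcases (nonIso G A).eq_empty_or_nonempty with e | e
  · exact ⟨some 0, true, fun _ => ⟨rfl, rfl⟩,
      fun h => absurd h (by rw [e]; exact Finset.not_nonempty_empty),
      fun h => absurd h (by rw [e]; exact Finset.not_nonempty_empty)⟩
  · have h := nonIso_props e
    have h0 : ZF G (nonIso G A) (nonIso G A) := h.one _ (by simp)
    have hne : ¬ nonIso G A = ∅ := Finset.nonempty_iff_ne_empty.mp e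
    by_cases h1 : ∃ m, AM (nonIso G A) (ZF G (nonIso G A)) m
    · obtain ⟨m, hm⟩ := h1
      refine ⟨some m, decide (TT (nonIso G A) (ZF G (nonIso G A)) (F1 G (nonIso G A)) m),
        fun h => absurd h hne, fun _ m' => ?_, fun _ m' => ?_⟩
      · constructor
        · intro h'
          rw [AM_unique h0 hm h']
        · intro h'
          rw [Option.some.injEq] at h'
          exact h' ▸ hm
      · constructor
        · intro h'
          have := AM_unique h0 hm h'.1
          subst this
          exact ⟨rfl, by simpa using h'⟩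
        · rintro ⟨h2, h3⟩
          rw [Option.some.injEq] at h2
          subst h2
          simpa using h3
    · refine ⟨none, true, fun h => absurd h hne, fun _ m' => ?_, fun _ m' => ?_⟩
      · constructor
        · intro h'; exact absurd ⟨m', h'⟩ h1
        · intro h'; simp at h'
      · constructor
        · intro h'; exact absurd ⟨m', h'.1⟩ h1
        · intro h'; simp at h'

theorem Disconnected.nd (h : Disconnected G A) : ∀ y ∈ A, ∃ x ∈ A, x ≠ y ∧ ¬ G.Adj x y := by
  obtain ⟨X, Y, ⟨x, hx⟩, ⟨y, hy⟩, hU, hd, hno⟩ := h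
  have hd' := Finset.disjoint_left.mp hd
  intro v hv
  rcases (hU v).mp hv with h | h
  · exact ⟨y, (hU y).mpr (Or.inr hy), fun e => hd' h (e ▸ hy), fun e => hno v h y hy e.symm⟩
  · exact ⟨x, (hU x).mpr (Or.inl hx), fun e => hd' hx (e ▸ h), fun e => hno x hx v h e⟩

theorem Disconnected.ne (h : Disconnected G A) : A.Nonempty := by
  obtain ⟨X, Y, ⟨x, hx⟩, -, hU, -⟩ := h
  exact ⟨x, (hU x).mpr (Or.inl hx)⟩

theorem Disconnected.fam (h : Disconnected G A) : Fam A (Zm G A) (M1 G A) :=
  Pool.Agent.H81.WF.fam h.nd h.ne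

theorem edgeless_zm (he : Edgeless G A) {S : Finset V} (hS : Zm G A S) : (A \ S).card ≤ 1 := by
  have := hS.2
  rwa [isoS_of_edgeless he] at this

theorem edgeless_R1 (he : Edgeless G A) : R1 A (Zm G A) (M1 G A) :=
  ⟨fun S hS => edgeless_zm he hS.1, fun S hS => (edgeless_zm he hS).trans (by norm_num)⟩

theorem edgeless_Q (h : Disconnected G A) (he : Edgeless G A) (b : ℕ) :
    Qa A (Zm G A) (M1 G A) b := by
  refine ⟨fun S hS hc => ?_, fun S hS hn => ?_⟩
  · have := edgeless_zm he hS.1
    omega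
  · exact absurd (h.fam.one S (edgeless_zm he hS)) hn

theorem nonedgeless_pure (h : Disconnected G A) (he : ¬ Edgeless G A) {b : ℕ} (hb : 2 ≤ b)
    (hQ : Qa A (Zm G A) (M1 G A) b) : Pure A (M1 G A) := by
  obtain ⟨X, Y, hX, hY, hU, hd, hno⟩ := h
  have hA : A = X ∪ Y := by
    ext v
    rw [hU v, Finset.mem_union]
  have hnd := Disconnected.nd ⟨X, Y, hX, hY, hU, hd, hno⟩
  obtain ⟨w, t, hg⟩ := Good_exists (G := G) A
  rw [hA] at hnd hg hQ ⊢
  have s := Sem_disc hd hno hX hY hg hnd
  have hc1 : disc (isoS G (X ∪ Y)).card w t ≠ .edgeless := by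
    intro hc
    have hw : w = some 0 := by
      unfold disc at hc
      rcases w with _ | k
      · simp at hc
      · simp only at hc
        split_ifs at hc with h1 h2
        rw [h2]
    rcases (nonIso G (X ∪ Y)).eq_empty_or_nonempty with e | e
    · refine he fun x hx y hy hxy => ?_
      rw [hA] at hx hy
      have := mem_nonIso hx hy hxy
      rw [e] at this
      exact absurd this (Finset.notMem_empty _)
    · have h := nonIso_props e
      have h1 := (hg.hw e 0).mpr hw
      obtain ⟨T, hT, hcT⟩ := shrink (A := nonIso G (X ∪ Y)) (S := nonIso G (X ∪ Y)) (k := 1)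
        (by simp) h.cardpos
      have := AM_le h1 (h.one T (by omega))
      omega
  have hc2 : ∀ a, disc (isoS G (X ∪ Y)).card w t ≠ .mixed a := by
    intro a hc
    unfold disc at hc
    rcases w with _ | k
    · simp at hc
    · simp only at hc
      split_ifs at hc
  refine (s.p b hb hQ).mpr ⟨b, ?_⟩
  rcases (s.q b hb).mp hQ with h1 | h1 | h1
  · exact absurd h1 hc1
  · exact h1
  · exact absurd h1 (hc2 b)

section multi

variable (B : ι → Finset V) (hj : ∀ i j, i ≠ j → ∀ x ∈ B i, ∀ y ∈ B j, G.Adj x y)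
  (hD : ∀ i, Disconnected G (B i))

include hj hD

theorem multi_ind : ∀ s : Finset ι, s.Nonempty →
    (∀ y ∈ s.biUnion B, ∃ x ∈ s.biUnion B, x ≠ y ∧ ¬ G.Adj x y) ∧ (s.biUnion B).Nonempty ∧
    (R1 (s.biUnion B) (Zm G (s.biUnion B)) (M1 G (s.biUnion B)) ↔
      ∀ i ∈ s, R1 (B i) (Zm G (B i)) (M1 G (B i))) ∧
    (Pure (s.biUnion B) (M1 G (s.biUnion B)) ↔ ∀ i ∈ s, Pure (B i) (M1 G (B i))) ∧
    (∀ b, 2 ≤ b → (Qa (s.biUnion B) (Zm G (s.biUnion B)) (M1 G (s.biUnion B)) b ↔
      (∀ i ∈ s, Qa (B i) (Zm G (B i)) (M1 G (B i)) b) ∧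
      ∀ i ∈ s, ∀ j ∈ s, i ≠ j → Pure (B i) (M1 G (B i)) ∨ Pure (B j) (M1 G (B j)))) := by
  intro s
  induction s using Finset.induction_on with
  | empty => intro h; exact absurd h Finset.not_nonempty_empty
  | insert k s hk ih =>
    intro _
    rcases s.eq_empty_or_nonempty with rfl | hs
    · have e : (insert k (∅ : Finset ι)).biUnion B = B k := by simp
      rw [e]
      refine ⟨(hD k).nd, (hD k).ne, by simp, by simp, ?_⟩
      intro b hb
      constructor
      · intro h
        refine ⟨fun i hi => ?_, fun i hi j hj' hij => ?_⟩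
        · simp at hi
          exact hi ▸ h
        · simp at hi hj'
          exact absurd (hi.trans hj'.symm) hij
      · intro h
        exact h.1 k (Finset.mem_insert_self _ _)
    · obtain ⟨h1, h2, h3, h4, h5⟩ := ih hs
      have e : (insert k s).biUnion B = B k ∪ s.biUnion B := Finset.biUnion_insert
      have hjk : ∀ x ∈ B k, ∀ y ∈ s.biUnion B, G.Adj x y := by
        intro x hx y hy
        obtain ⟨i, hi, hyi⟩ := Finset.mem_biUnion.mp hy
        exact hj k i (fun e => hk (e ▸ hi)) x hx y hyi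
      have hd := join_disj hjk
      have f1 := (hD k).fam
      have f2 := fam h1 h2
      have ne1 := (hD k).ne
      rw [e]
      refine ⟨?_, ne1.mono Finset.subset_union_left, ?_, ?_, ?_⟩
      · intro y hy
        rcases Finset.mem_union.mp hy with h | h
        · obtain ⟨x, hx, hx'⟩ := (hD k).nd y h
          exact ⟨x, Finset.mem_union_left _ hx, hx'⟩
        · obtain ⟨x, hx, hx'⟩ := h1 y h
          exact ⟨x, Finset.mem_union_right _ hx, hx'⟩
      · rw [join_Zm0 hjk ne1 h2, join_M1 hjk ne1 h2, R1_join hd f1 f2, h3]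
        simp
      · rw [join_M1 hjk ne1 h2, Pure_join hd f1 f2, h4]
        simp
      · intro b hb
        rw [join_Zm0 hjk ne1 h2, join_M1 hjk ne1 h2, Q_join hd f1 f2 hb, h5 b hb, h4]
        constructor
        · rintro ⟨g1, ⟨g2, g3⟩, g4⟩
          refine ⟨?_, ?_⟩
          · intro i hi
            rcases Finset.mem_insert.mp hi with rfl | hi
            · exact g1
            · exact g2 i hi
          · intro i hi j hj' hij
            rcases Finset.mem_insert.mp hi with hi1 | hi1
            · rcases Finset.mem_insert.mp hj' with hj1 | hj1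
              · exact absurd (hi1.trans hj1.symm) hij
              · rw [hi1]
                exact g4.imp id fun g => g j hj1
            · rcases Finset.mem_insert.mp hj' with hj1 | hj1
              · rw [hj1]
                exact (g4.imp id fun g => g i hi1).symm
              · exact g3 i hi1 j hj1 hij
        · rintro ⟨g1, g2⟩
          refine ⟨g1 k (Finset.mem_insert_self _ _),
            ⟨fun i hi => g1 i (Finset.mem_insert_of_mem hi), fun i hi j hj' =>
              g2 i (Finset.mem_insert_of_mem hi) j (Finset.mem_insert_of_mem hj')⟩, ?_⟩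
          by_cases hp : Pure (B k) (M1 G (B k))
          · exact Or.inl hp
          · refine Or.inr fun i hi => ?_
            exact (g2 k (Finset.mem_insert_self _ _) i (Finset.mem_insert_of_mem hi)
              (fun e => hk (e ▸ hi))).resolve_left hp

theorem multi_AM (s : Finset ι) (k l : ι) (hk : k ∈ s) (hl : l ∈ s) (hkl : k ≠ l) :
    AM (s.biUnion B) (ZF G (s.biUnion B)) m ↔
      (m = 2 ∧ ∀ i ∈ s, R1 (B i) (Zm G (B i)) (M1 G (B i))) ∨
      (3 ≤ m ∧ (∀ i ∈ s, Qa (B i) (Zm G (B i)) (M1 G (B i)) (m - 1)) ∧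
        ∀ i ∈ s, ∀ j ∈ s, i ≠ j → Pure (B i) (M1 G (B i)) ∨ Pure (B j) (M1 G (B j))) := by
  have hs : (s.erase k).Nonempty := ⟨l, Finset.mem_erase.mpr ⟨hkl.symm, hl⟩⟩
  have e : s.biUnion B = B k ∪ (s.erase k).biUnion B := by
    rw [← Finset.biUnion_insert, Finset.insert_erase hk]
  obtain ⟨h1, h2, h3, h4, h5⟩ := multi_ind B hj hD (s.erase k) hs
  obtain ⟨g1, g2, g3, g4, g5⟩ := multi_ind B hj hD s ⟨k, hk⟩
  have hjk : ∀ x ∈ B k, ∀ y ∈ (s.erase k).biUnion B, G.Adj x y := by
    intro x hx y hy
    obtain ⟨i, hi, hyi⟩ := Finset.mem_biUnion.mp hy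
    exact hj k i (fun e => Finset.notMem_erase k s (e ▸ hi)) x hx y hyi
  have hd := join_disj hjk
  have f1 := (hD k).fam
  have f2 := fam h1 h2
  have ne1 := (hD k).ne
  have key : AM (s.biUnion B) (ZF G (s.biUnion B)) m ↔
      (m = 2 ∧ R1 (s.biUnion B) (Zm G (s.biUnion B)) (M1 G (s.biUnion B))) ∨
      (3 ≤ m ∧ Qa (s.biUnion B) (Zm G (s.biUnion B)) (M1 G (s.biUnion B)) (m - 1)) := by
    rw [e, join_J0 hjk ne1 h2, join_Zm0 hjk ne1 h2, join_M1 hjk ne1 h2]
    exact AM_J hd f1 f2
  rw [key, g3]
  constructor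
  · rintro (h | ⟨h6, h7⟩)
    · exact Or.inl h
    · exact Or.inr ⟨h6, (g5 _ (by omega)).mp h7⟩
  · rintro (h | ⟨h6, h7⟩)
    · exact Or.inl h
    · exact Or.inr ⟨h6, (g5 _ (by omega)).mpr h7⟩

end multi

/-! ### Transfer to induced subgraphs -/

section transfer

theorem ind_blue_to {S : Finset (A : Set V)} {v : (A : Set V)}
    (h : Blue (G.induce (A : Set V)) S v) :
    BlueIn G A (S.map (Function.Embedding.subtype _)) v := by
  induction h with
  | @init v hv =>
    exact .init (Finset.mem_coe.mp v.2) (Finset.mem_map_of_mem _ hv)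
  | @force u w hu huw h ihu ih =>
    refine .force ihu (Finset.mem_coe.mp w.2) huw fun x hx hux hxw => ?_
    exact ih ⟨x, Finset.mem_coe.mpr hx⟩ hux fun e => hxw (congrArg Subtype.val e)

theorem ind_blue_from {S : Finset (A : Set V)} {v : V}
    (h : BlueIn G A (S.map (Function.Embedding.subtype _)) v) :
    ∀ hv : v ∈ (A : Set V), Blue (G.induce (A : Set V)) S ⟨v, hv⟩ := by
  induction h with
  | @init v hA hS =>
    intro hv
    obtain ⟨s, hs, hsv⟩ := Finset.mem_map.mp hS
    have : s = ⟨v, hv⟩ := Subtype.ext hsv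
    exact .init (this ▸ hs)
  | @force u w hu hw huw h ihu ih =>
    intro hv
    have huA : u ∈ (A : Set V) := Finset.mem_coe.mpr hu.mem
    refine Blue.force (G := G.induce (A : Set V)) (u := ⟨u, huA⟩) (ihu huA)
      (SimpleGraph.comap_adj.mpr huw) fun x hux hxw => ?_
    exact ih x (Finset.mem_coe.mp x.2) hux (fun e => hxw (Subtype.ext e)) x.2

theorem ind_zfs_iff {S : Finset (A : Set V)} :
    IsZFS (G.induce (A : Set V)) S ↔ ZF G A (S.map (Function.Embedding.subtype _)) := by
  constructor
  · intro h v hv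
    exact ind_blue_to (h ⟨v, Finset.mem_coe.mpr hv⟩)
  · rintro h ⟨v, hv⟩
    exact ind_blue_from (h v (Finset.mem_coe.mp hv)) hv

theorem univ_card {W : Type*} [Fintype W] (T : Finset W) :
    T.card + (Finset.univ \ T).card = Fintype.card W := by
  have := Finset.card_sdiff_add_card_eq_card (Finset.subset_univ T)
  rw [Finset.card_univ] at this
  omega

theorem sub_card_add {S : Finset V} (h : S ⊆ A) : S.card + (A \ S).card = A.card := by
  have := Finset.card_sdiff_add_card_eq_card h
  omega

theorem ind_card (S : Finset (A : Set V)) :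
    S.card + (A \ S.map (Function.Embedding.subtype _)).card = Fintype.card (A : Set V) := by
  have h : S.map (Function.Embedding.subtype _) ⊆ A := by
    intro v hv
    obtain ⟨x, _, rfl⟩ := Finset.mem_map.mp hv
    exact Finset.mem_coe.mp x.2
  have := sub_card_add h
  rw [Finset.card_map] at this
  simpa using this

theorem ind_AM : AM Finset.univ (ZF (G.induce (A : Set V)) Finset.univ) m ↔ AM A (ZF G A) m := by
  constructor
  · intro h S hS
    have e : ((S ∩ A).subtype (· ∈ (A : Set V))).map (Function.Embedding.subtype _) = S ∩ A :=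
      Finset.subtype_map_of_mem fun x hx => Finset.mem_coe.mpr (Finset.mem_inter.mp hx).2
    have h1 : IsZFS (G.induce (A : Set V)) ((S ∩ A).subtype (· ∈ (A : Set V))) := by
      rw [ind_zfs_iff, e]
      exact hS.inter
    obtain ⟨T, hT, hTZ, hTc⟩ := h _ (zfs_iff.mp h1)
    refine ⟨T.map (Function.Embedding.subtype _), ?_, ind_zfs_iff.mp (zfs_iff.mpr hTZ), ?_⟩
    · refine (Finset.map_subset_map.mpr hT).trans ?_
      rw [e]
      exact Finset.inter_subset_left
    · have e1 := ind_card T
      have e2 := univ_card T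
      omega
  · intro h S hS
    obtain ⟨T, hT, hTZ, hTc⟩ := h _ (ind_zfs_iff.mp (zfs_iff.mpr hS))
    have hTA : ∀ x ∈ T, x ∈ (A : Set V) := by
      intro x hx
      obtain ⟨y, _, rfl⟩ := Finset.mem_map.mp (hT hx)
      exact y.2
    have e : (T.subtype (· ∈ (A : Set V))).map (Function.Embedding.subtype _) = T :=
      Finset.subtype_map_of_mem hTA
    refine ⟨T.subtype (· ∈ (A : Set V)), ?_, ?_, ?_⟩
    · intro x hx
      obtain ⟨y, hy, hyx⟩ := Finset.mem_map.mp (hT (Finset.mem_subtype.mp hx))
      have : y = x := Subtype.ext hyx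
      exact this ▸ hy
    · refine zfs_iff.mp (ind_zfs_iff.mpr ?_)
      rw [e]; exact hTZ
    · have e1 := ind_card (T.subtype (· ∈ (A : Set V)))
      have e2 := univ_card (W := (A : Set V)) (T.subtype (· ∈ (A : Set V)))
      rw [e, hTc] at e1
      omega

theorem ind_wf : WellForced (G.induce (A : Set V)) ↔ ∃ m, AM A (ZF G A) m := by
  rw [wf_iff]
  exact exists_congr fun m => ind_AM

theorem ind_Z (h : AM A (ZF G A) m) : zeroForcingNumber (G.induce (A : Set V)) + m = A.card := by
  have := Z_of_AM (ind_AM.mpr h)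
  rw [this]
  simp

end transfer

/-- The cone over a disconnected graph. -/
theorem cone_AM (hD : Disconnected G A) {u : V} (hu : u ∉ A) (hadj : ∀ v ∈ A, G.Adj u v) :
    AM (insert u A) (ZF G (insert u A)) m ↔ 2 ≤ m ∧ UU A (Zm G A) (M1 G A) (m - 1) := by
  have hd : Disjoint ({u} : Finset V) A := Finset.disjoint_singleton_left.mpr hu
  have hcl : ∀ x ∈ ({u} : Finset V), ∀ y ∈ ({u} : Finset V), x ≠ y → G.Adj x y := by
    intro x hx y hy hxy
    rw [Finset.mem_singleton] at hx hy
    exact absurd (hx.trans hy.symm) hxy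
  have hj : ∀ x ∈ ({u} : Finset V), ∀ y ∈ A, G.Adj x y := by
    intro x hx y hy
    rw [Finset.mem_singleton] at hx
    exact hx ▸ hadj y hy
  rw [Finset.insert_eq, K_ZF hcl hj (Finset.singleton_nonempty u) hD.fam]
  exact AM_K hd hD.fam (Finset.singleton_nonempty u)

theorem join_main [Fintype V] [Fintype ι] (B : ι → Finset V) (u : ι → V)
    (hι : ∃ i j : ι, i ≠ j) (hcov : ∀ v, ∃ i, v ∈ B i)
    (hj : ∀ i j, i ≠ j → ∀ x ∈ B i, ∀ y ∈ B j, G.Adj x y) (hD : ∀ i, Disconnected G (B i))
    (hu : ∀ i, u i ∉ B i) :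
    WellForced G ↔
      (∀ i, WellForced (G.induce ((insert (u i) (B i) : Finset V) : Set V))) ∧
      ((∀ i j, (B i).card + zeroForcingNumber (G.induce ((insert (u j) (B j) : Finset V) : Set V)) =
          (B j).card + zeroForcingNumber (G.induce ((insert (u i) (B i) : Finset V) : Set V))) ∨
       ∃ k, Edgeless G (B k) ∧ ∀ i j, i ≠ k → j ≠ k →
        (B i).card + zeroForcingNumber (G.induce ((insert (u j) (B j) : Finset V) : Set V)) =
          (B j).card + zeroForcingNumber (G.induce ((insert (u i) (B i) : Finset V) : Set V))) := by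
  have hadj : ∀ i, ∀ v ∈ B i, G.Adj (u i) v := by
    intro i v hv
    obtain ⟨j, hju⟩ := hcov (u i)
    exact hj j i (fun e => hu i (e ▸ hju)) (u i) hju v hv
  have hcone : ∀ i m, AM (insert (u i) (B i)) (ZF G (insert (u i) (B i))) m ↔
      2 ≤ m ∧ UU (B i) (Zm G (B i)) (M1 G (B i)) (m - 1) := fun i m =>
    cone_AM (hD i) (hu i) (hadj i)
  have hwf : ∀ i, WellForced (G.induce ((insert (u i) (B i) : Finset V) : Set V)) ↔
      ∃ a, 1 ≤ a ∧ UU (B i) (Zm G (B i)) (M1 G (B i)) a := by
    intro i
    rw [ind_wf]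
    constructor
    · rintro ⟨m, hm⟩
      have := (hcone i m).mp hm
      exact ⟨m - 1, by omega, this.2⟩
    · rintro ⟨a, h1, h2⟩
      exact ⟨a + 1, (hcone i (a + 1)).mpr ⟨by omega, h2⟩⟩
  have hZ : ∀ i a, UU (B i) (Zm G (B i)) (M1 G (B i)) a →
      zeroForcingNumber (G.induce ((insert (u i) (B i) : Finset V) : Set V)) + a =
        (B i).card := by
    intro i a h
    have h1 := h.pos
    have h2 := ind_Z ((hcone i (a + 1)).mpr ⟨by omega, h⟩)
    rw [Finset.card_insert_of_notMem (hu i)] at h2
    omega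
  have huniv : (Finset.univ : Finset ι).biUnion B = Finset.univ := by
    rw [Finset.eq_univ_iff_forall]
    intro v
    obtain ⟨i, hi⟩ := hcov v
    exact Finset.mem_biUnion.mpr ⟨i, Finset.mem_univ _, hi⟩
  obtain ⟨k0, l0, hkl⟩ := hι
  have hmain : ∀ m, AM Finset.univ (ZF G Finset.univ) m ↔
      (m = 2 ∧ ∀ i, R1 (B i) (Zm G (B i)) (M1 G (B i))) ∨
      (3 ≤ m ∧ (∀ i, Qa (B i) (Zm G (B i)) (M1 G (B i)) (m - 1)) ∧
        ∀ i j, i ≠ j → Pure (B i) (M1 G (B i)) ∨ Pure (B j) (M1 G (B j))) := by
    intro m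
    have := multi_AM (m := m) B hj hD Finset.univ k0 l0 (Finset.mem_univ _) (Finset.mem_univ _) hkl
    rw [huniv] at this
    rw [this]
    simp
  rw [wf_iff]
  constructor
  · rintro ⟨m, hm⟩
    rcases (hmain m).mp hm with ⟨rfl, h⟩ | ⟨h1, h2, h3⟩
    · have hUU : ∀ i, UU (B i) (Zm G (B i)) (M1 G (B i)) 1 := fun i => Or.inl ⟨rfl, h i⟩
      refine ⟨fun i => (hwf i).mpr ⟨1, le_rfl, hUU i⟩, Or.inl fun i j => ?_⟩
      have e1 := hZ i 1 (hUU i)
      have e2 := hZ j 1 (hUU j)
      omega
    · by_cases hp : ∀ i, Pure (B i) (M1 G (B i))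
      · have hUU : ∀ i, UU (B i) (Zm G (B i)) (M1 G (B i)) (m - 1) := fun i =>
          Or.inr ⟨by omega, h2 i, hp i⟩
        refine ⟨fun i => (hwf i).mpr ⟨m - 1, by omega, hUU i⟩, Or.inl fun i j => ?_⟩
        have e1 := hZ i _ (hUU i)
        have e2 := hZ j _ (hUU j)
        omega
      · push Not at hp
        obtain ⟨k, hk⟩ := hp
        have hke : Edgeless G (B k) := by
          by_contra hcon
          exact hk (nonedgeless_pure (hD k) hcon (by omega) (h2 k))
        have hUU : ∀ i, i ≠ k → UU (B i) (Zm G (B i)) (M1 G (B i)) (m - 1) := fun i hi =>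
          Or.inr ⟨by omega, h2 i, (h3 i k hi).resolve_right hk⟩
        refine ⟨fun i => ?_, Or.inr ⟨k, hke, fun i j hi hj' => ?_⟩⟩
        · by_cases hi : i = k
          · subst hi
            exact (hwf i).mpr ⟨1, le_rfl, Or.inl ⟨rfl, edgeless_R1 hke⟩⟩
          · exact (hwf i).mpr ⟨m - 1, by omega, hUU i hi⟩
        · have e1 := hZ i _ (hUU i hi)
          have e2 := hZ j _ (hUU j hj')
          omega
  · rintro ⟨hW, hcase⟩
    choose a ha1 ha2 using fun i => (hwf i).mp (hW i)
    have hZa : ∀ i, zeroForcingNumber (G.induce ((insert (u i) (B i) : Finset V) : Set V)) + a i =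
        (B i).card := fun i => hZ i _ (ha2 i)
    rcases hcase with h | ⟨k, hke, h⟩
    · have hall : ∀ i, a i = a k0 := by
        intro i
        have e1 := hZa i
        have e2 := hZa k0
        have e3 := h i k0
        omega
      by_cases h1 : a k0 = 1
      · refine ⟨2, (hmain 2).mpr (Or.inl ⟨rfl, fun i => ?_⟩)⟩
        rcases ha2 i with ⟨-, h2⟩ | ⟨h2, -⟩
        · exact h2
        · have := hall i; omega
      · refine ⟨a k0 + 1, (hmain _).mpr (Or.inr ⟨?_, fun i => ?_, fun i j _ => ?_⟩)⟩
        · have := ha1 k0; omega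
        · rcases ha2 i with ⟨h2, -⟩ | ⟨-, h2, -⟩
          · have := hall i; omega
          · rw [hall i] at h2
            exact h2
        · rcases ha2 i with ⟨h2, -⟩ | ⟨-, -, h2⟩
          · have := hall i; omega
          · exact Or.inl h2
    · obtain ⟨l, hl⟩ : ∃ l, l ≠ k := by
        by_cases h1 : k0 = k
        · exact ⟨l0, fun e => hkl (h1.trans e.symm)⟩
        · exact ⟨k0, h1⟩
      have hall : ∀ i, i ≠ k → a i = a l := by
        intro i hi
        have e1 := hZa i
        have e2 := hZa l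
        have e3 := h i l hi hl
        omega
      by_cases h1 : a l = 1
      · refine ⟨2, (hmain 2).mpr (Or.inl ⟨rfl, fun i => ?_⟩)⟩
        by_cases hi : i = k
        · subst hi; exact edgeless_R1 hke
        · rcases ha2 i with ⟨-, h2⟩ | ⟨h2, -⟩
          · exact h2
          · have := hall i hi; omega
      · have hP : ∀ i, i ≠ k → Pure (B i) (M1 G (B i)) := by
          intro i hi
          rcases ha2 i with ⟨h2, -⟩ | ⟨-, -, h2⟩
          · have := hall i hi; omega
          · exact h2
        refine ⟨a l + 1, (hmain _).mpr (Or.inr ⟨?_, fun i => ?_, fun i j hij => ?_⟩)⟩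
        · have := ha1 l; omega
        · by_cases hi : i = k
          · subst hi; exact edgeless_Q (hD i) hke _
          · rcases ha2 i with ⟨h2, -⟩ | ⟨-, h2, -⟩
            · have := hall i hi; omega
            · rw [hall i hi] at h2
              exact h2
        · by_cases hi : i = k
          · subst hi
            exact Or.inr (hP j (Ne.symm hij))
          · exact Or.inl (hP i hi)

/-- The same with induced subgraphs on sets. -/
theorem join_main' [Fintype V] [Fintype ι] (B : ι → Finset V) (u : ι → V)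
    (hι : ∃ i j : ι, i ≠ j) (hcov : ∀ v, ∃ i, v ∈ B i)
    (hj : ∀ i j, i ≠ j → ∀ x ∈ B i, ∀ y ∈ B j, G.Adj x y) (hD : ∀ i, Disconnected G (B i))
    (hu : ∀ i, u i ∉ B i) :
    WellForced G ↔
      (∀ i, WellForced (G.induce (insert (u i) (B i : Set V)))) ∧
      ((∀ i j, (B i).card + zeroForcingNumber (G.induce (insert (u j) (B j : Set V))) =
          (B j).card + zeroForcingNumber (G.induce (insert (u i) (B i : Set V)))) ∨
       ∃ k, Edgeless G (B k) ∧ ∀ i j, i ≠ k → j ≠ k →
        (B i).card + zeroForcingNumber (G.induce (insert (u j) (B j : Set V))) =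
          (B j).card + zeroForcingNumber (G.induce (insert (u i) (B i : Set V)))) := by
  have e : ∀ i, ((insert (u i) (B i) : Finset V) : Set V) = insert (u i) (B i : Set V) :=
    fun i => Finset.coe_insert _ _
  have h1 : ∀ i, WellForced (G.induce (insert (u i) (B i : Set V))) ↔
      WellForced (G.induce ((insert (u i) (B i) : Finset V) : Set V)) := fun i => by rw [e i]
  have h2 : ∀ i, zeroForcingNumber (G.induce (insert (u i) (B i : Set V))) =
      zeroForcingNumber (G.induce ((insert (u i) (B i) : Finset V) : Set V)) :=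
    fun i => by rw [e i]
  simp only [h1, h2]
  exact join_main B u hι hcov hj hD hu

end Pool.Agent.H81.CG
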