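import Mathlib

/-!
# Zero forcing inside induced subgraphs

`BlueIn G A S v` says that `v` becomes blue when the colour change rule is applied in the induced
subgraph `G[A]`, starting from the blue set `S ∩ A`.
-/

namespace Pool.Agent.H81.WF

variable {V : Type*} [DecidableEq V] (G : SimpleGraph V)

/-- `v` becomes blue in the induced subgraph `G[A]`, starting from `S ∩ A`. -/
inductive BlueIn (A S : Finset V) : V → Prop
  | init {v : V} (hA : v ∈ A) (hS : v ∈ S) : BlueIn A S v
  | force {u w : V} (hu : BlueIn A S u) (hw : w ∈ A) (huw : G.Adj u w)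
      (h : ∀ x ∈ A, G.Adj u x → x ≠ w → BlueIn A S x) : BlueIn A S w

variable {G} {A A' S S' : Finset V}

theorem BlueIn.mem {v : V} (h : BlueIn G A S v) : v ∈ A := by
  cases h <;> assumption

theorem BlueIn.mono {v : V} (h : BlueIn G A S v) (hS : S ⊆ S') : BlueIn G A S' v := by
  induction h with
  | init hA hS1 => exact .init hA (hS hS1)
  | force hu hw huw h ihu ih => exact .force ihu hw huw ih

variable (G)

/-- `S ∩ A` is a zero forcing set of `G[A]`. -/
def ZF (A S : Finset V) : Prop := ∀ v ∈ A, BlueIn G A S v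

/-- `S` contains a closed neighbourhood of `G[A]`. -/
def NbIn (A S : Finset V) : Prop := ∃ x ∈ A, x ∈ S ∧ ∀ y ∈ A, G.Adj x y → y ∈ S

/-- Every member of the family `P` contains a member of the family that lies in `A` and has exactly
`z` elements. -/
def Uni (P : Finset V → Prop) (A : Finset V) (z : ℕ) : Prop :=
  ∀ S, P S → ∃ S0, S0 ⊆ S ∧ S0 ⊆ A ∧ P S0 ∧ S0.card = z

/-- The induction statement. -/
def T (A : Finset V) : Prop :=
  ∃ z, Uni (ZF G A) A z ∧
    ((∀ v ∈ A, ∃ y ∈ A, G.Adj v y) → Uni (fun S => ZF G A S ∧ NbIn G A S) A (z + 1))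

variable {G}

theorem ZF.mono (h : ZF G A S) (hS : S ⊆ S') : ZF G A S' := fun v hv => (h v hv).mono hS

theorem NbIn.mono (h : NbIn G A S) (hS : S ⊆ S') : NbIn G A S' := by
  obtain ⟨x, hx, hxS, h⟩ := h
  exact ⟨x, hx, hS hxS, fun y hy hxy => hS (h y hy hxy)⟩

/-! ### Disjoint unions -/

section union

variable {A1 A2 : Finset V}

theorem blue_union_left (hno : ∀ x ∈ A1, ∀ y ∈ A2, ¬ G.Adj x y) {v : V}
    (h : BlueIn G (A1 ∪ A2) S v) : v ∈ A1 → BlueIn G A1 S v := by
  induction h with
  | init hA hS => exact fun hv => .init hv hS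
  | @force u w hu hw huw h ihu ih =>
    intro hw1
    have hu1 : u ∈ A1 := by
      rcases Finset.mem_union.mp hu.mem with h1 | h1
      · exact h1
      · exact absurd huw.symm (hno w hw1 u h1)
    exact .force (ihu hu1) hw1 huw fun x hx hux hxw =>
      ih x (Finset.mem_union_left _ hx) hux hxw hx

theorem blue_left_union (hno : ∀ x ∈ A1, ∀ y ∈ A2, ¬ G.Adj x y) {v : V}
    (h : BlueIn G A1 S v) : BlueIn G (A1 ∪ A2) S v := by
  induction h with
  | init hA hS => exact .init (Finset.mem_union_left _ hA) hS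
  | @force u w hu hw huw h ihu ih =>
    refine .force ihu (Finset.mem_union_left _ hw) huw fun x hx hux hxw => ?_
    rcases Finset.mem_union.mp hx with h1 | h1
    · exact ih x h1 hux hxw
    · exact absurd hux (hno u hu.mem x h1)

theorem ZF_union (hno : ∀ x ∈ A1, ∀ y ∈ A2, ¬ G.Adj x y) :
    ZF G (A1 ∪ A2) S ↔ ZF G A1 S ∧ ZF G A2 S := by
  have hno' : ∀ x ∈ A2, ∀ y ∈ A1, ¬ G.Adj x y := fun x hx y hy h => hno y hy x hx h.symm
  constructor
  · intro h
    refine ⟨fun v hv => blue_union_left hno (h v (Finset.mem_union_left _ hv)) hv,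
      fun v hv => ?_⟩
    have h1 := h v (Finset.mem_union_right _ hv)
    rw [Finset.union_comm] at h1
    exact blue_union_left hno' h1 hv
  · rintro ⟨h1, h2⟩ v hv
    rcases Finset.mem_union.mp hv with h | h
    · exact blue_left_union hno (h1 v h)
    · have := blue_left_union hno' (h2 v h)
      rwa [Finset.union_comm] at this

theorem NbIn_union (hno : ∀ x ∈ A1, ∀ y ∈ A2, ¬ G.Adj x y) :
    NbIn G (A1 ∪ A2) S ↔ NbIn G A1 S ∨ NbIn G A2 S := by
  constructor
  · rintro ⟨x, hx, hxS, h⟩
    rcases Finset.mem_union.mp hx with h1 | h1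
    · exact Or.inl ⟨x, h1, hxS, fun y hy => h y (Finset.mem_union_left _ hy)⟩
    · exact Or.inr ⟨x, h1, hxS, fun y hy => h y (Finset.mem_union_right _ hy)⟩
  · rintro (⟨x, hx, hxS, h⟩ | ⟨x, hx, hxS, h⟩)
    · refine ⟨x, Finset.mem_union_left _ hx, hxS, fun y hy hxy => ?_⟩
      rcases Finset.mem_union.mp hy with h1 | h1
      · exact h y h1 hxy
      · exact absurd hxy (hno x hx y h1)
    · refine ⟨x, Finset.mem_union_right _ hx, hxS, fun y hy hxy => ?_⟩
      rcases Finset.mem_union.mp hy with h1 | h1
      · exact absurd hxy.symm (hno y h1 x hx)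
      · exact h y h1 hxy

theorem T_union (hd : Disjoint A1 A2) (hno : ∀ x ∈ A1, ∀ y ∈ A2, ¬ G.Adj x y)
    (h1 : T G A1) (h2 : T G A2) : T G (A1 ∪ A2) := by
  obtain ⟨z1, hZ1, hN1⟩ := h1
  obtain ⟨z2, hZ2, hN2⟩ := h2
  have comb : ∀ {B1 B2 : Finset V} {k1 k2 : ℕ}, B1 ⊆ A1 → B2 ⊆ A2 → B1.card = k1 →
      B2.card = k2 → (B1 ∪ B2).card = k1 + k2 := by
    intro B1 B2 k1 k2 hB1 hB2 e1 e2
    rw [Finset.card_union_of_disjoint (hd.mono hB1 hB2), e1, e2]
  refine ⟨z1 + z2, ?_, ?_⟩
  · intro S hS
    rw [ZF_union hno] at hS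
    obtain ⟨B1, hB1S, hB1A, hB1, hc1⟩ := hZ1 S hS.1
    obtain ⟨B2, hB2S, hB2A, hB2, hc2⟩ := hZ2 S hS.2
    refine ⟨B1 ∪ B2, Finset.union_subset hB1S hB2S, Finset.union_subset_union hB1A hB2A, ?_,
      comb hB1A hB2A hc1 hc2⟩
    rw [ZF_union hno]
    exact ⟨hB1.mono Finset.subset_union_left, hB2.mono Finset.subset_union_right⟩
  · intro hiso S hS
    have hi1 : ∀ v ∈ A1, ∃ y ∈ A1, G.Adj v y := by
      intro v hv
      obtain ⟨y, hy, hvy⟩ := hiso v (Finset.mem_union_left _ hv)
      rcases Finset.mem_union.mp hy with h | h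
      · exact ⟨y, h, hvy⟩
      · exact absurd hvy (hno v hv y h)
    have hi2 : ∀ v ∈ A2, ∃ y ∈ A2, G.Adj v y := by
      intro v hv
      obtain ⟨y, hy, hvy⟩ := hiso v (Finset.mem_union_right _ hv)
      rcases Finset.mem_union.mp hy with h | h
      · exact absurd hvy.symm (hno y h v hv)
      · exact ⟨y, h, hvy⟩
    obtain ⟨hSZ, hSN⟩ := hS
    rw [ZF_union hno] at hSZ
    rw [NbIn_union hno] at hSN
    rcases hSN with hSN | hSN
    · obtain ⟨B1, hB1S, hB1A, hB1, hc1⟩ := hN1 hi1 S ⟨hSZ.1, hSN⟩
      obtain ⟨B2, hB2S, hB2A, hB2, hc2⟩ := hZ2 S hSZ.2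
      refine ⟨B1 ∪ B2, Finset.union_subset hB1S hB2S, Finset.union_subset_union hB1A hB2A,
        ⟨?_, ?_⟩, ?_⟩
      · rw [ZF_union hno]
        exact ⟨hB1.1.mono Finset.subset_union_left, hB2.mono Finset.subset_union_right⟩
      · rw [NbIn_union hno]
        exact Or.inl (hB1.2.mono Finset.subset_union_left)
      · rw [comb hB1A hB2A hc1 hc2]; omega
    · obtain ⟨B1, hB1S, hB1A, hB1, hc1⟩ := hZ1 S hSZ.1
      obtain ⟨B2, hB2S, hB2A, hB2, hc2⟩ := hN2 hi2 S ⟨hSZ.2, hSN⟩
      refine ⟨B1 ∪ B2, Finset.union_subset hB1S hB2S, Finset.union_subset_union hB1A hB2A,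
        ⟨?_, ?_⟩, ?_⟩
      · rw [ZF_union hno]
        exact ⟨hB1.mono Finset.subset_union_left, hB2.1.mono Finset.subset_union_right⟩
      · rw [NbIn_union hno]
        exact Or.inr (hB2.2.mono Finset.subset_union_right)
      · rw [comb hB1A hB2A hc1 hc2]; omega

end union

/-! ### Cones -/

section cone

variable {u : V} {I H : Finset V}

/-- The data of a cone: `u` is adjacent to all of `I ∪ H`, the vertices in `I` are isolated in
`G[I ∪ H]`, and `G[H]` has no isolated vertices. -/
structure Cone (G : SimpleGraph V) (u : V) (I H : Finset V) : Prop where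
  uI : u ∉ I
  uH : u ∉ H
  disj : Disjoint I H
  adj : ∀ v ∈ I ∪ H, G.Adj u v
  iso : ∀ i ∈ I, ∀ y ∈ I ∪ H, ¬ G.Adj i y
  noiso : ∀ v ∈ H, ∃ y ∈ H, G.Adj v y

theorem cone_ZF (hc : Cone G u I H) :
    ZF G (insert u (I ∪ H)) S ↔ ZF G H S ∧ (I \ S).card ≤ 1 ∧
      (u ∈ S ∨ (∃ i ∈ I, i ∈ S) ∨ NbIn G H S) := by
  have hmem : ∀ x, x ∈ insert u (I ∪ H) ↔ x = u ∨ x ∈ I ∨ x ∈ H := by
    intro x; simp [Finset.mem_insert, Finset.mem_union]
  have isoH : ∀ i ∈ I, ∀ y ∈ H, ¬ G.Adj i y := fun i hi y hy =>
    hc.iso i hi y (Finset.mem_union_right _ hy)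
  constructor
  · intro h
    refine ⟨?_, ?_, ?_⟩
    · have key : ∀ v, BlueIn G (insert u (I ∪ H)) S v → v ∈ H → BlueIn G H S v := by
        intro v hv
        induction hv with
        | init hA hS => exact fun hv => .init hv hS
        | @force a w ha hw haw h ihu ih =>
          intro hwH
          rcases (hmem a).mp ha.mem with rfl | haI | haH
          · obtain ⟨y, hy, hwy⟩ := hc.noiso w hwH
            have hyu : G.Adj a y := hc.adj y (Finset.mem_union_right _ hy)
            have hall : ∀ x ∈ H, x ≠ w → BlueIn G H S x := fun x hx hxw =>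
              ih x ((hmem x).mpr (Or.inr (Or.inr hx)))
                (hc.adj x (Finset.mem_union_right _ hx)) hxw hx
            exact .force (hall y hy hwy.ne') hwH hwy.symm fun x hx _ hxw => hall x hx hxw
          · exact absurd haw (isoH a haI w hwH)
          · exact .force (ihu haH) hwH haw fun x hx hax hxw =>
              ih x ((hmem x).mpr (Or.inr (Or.inr hx))) hax hxw hx
      exact fun v hv => key v (h v ((hmem v).mpr (Or.inr (Or.inr hv)))) hv
    · rw [Finset.card_le_one]
      intro i hi j hj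
      by_contra hij
      rw [Finset.mem_sdiff] at hi hj
      have key : ∀ v, BlueIn G (insert u (I ∪ H)) S v → v ≠ i ∧ v ≠ j := by
        intro v hv
        induction hv with
        | init hA hS =>
          constructor
          · rintro rfl; exact hi.2 hS
          · rintro rfl; exact hj.2 hS
        | @force a w ha hw haw h ihu ih =>
          have hau : ∀ t ∈ I, G.Adj a t → a = u := by
            intro t ht hat
            rcases (hmem a).mp ha.mem with h1 | h1 | h1
            · exact h1
            · exact absurd hat.symm (hc.iso t ht a (Finset.mem_union_left _ h1))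
            · exact absurd hat.symm (isoH t ht a h1)
          constructor
          · rintro rfl
            have h1 := hau w hi.1 haw
            subst h1
            exact (ih j ((hmem j).mpr (Or.inr (Or.inl hj.1)))
              (hc.adj j (Finset.mem_union_left _ hj.1)) (Ne.symm hij)).2 rfl
          · rintro rfl
            have h1 := hau w hj.1 haw
            subst h1
            exact (ih i ((hmem i).mpr (Or.inr (Or.inl hi.1)))
              (hc.adj i (Finset.mem_union_left _ hi.1)) hij).1 rfl
      exact (key i (h i ((hmem i).mpr (Or.inr (Or.inl hi.1))))).1 rfl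
    · by_contra hcon
      push Not at hcon
      obtain ⟨huS, hIS, hN⟩ := hcon
      have key : ∀ v, BlueIn G (insert u (I ∪ H)) S v → v ∈ S := by
        intro v hv
        induction hv with
        | init hA hS => exact hS
        | @force a w ha hw haw h ihu ih =>
          exfalso
          rcases (hmem a).mp ha.mem with rfl | haI | haH
          · exact huS ihu
          · exact hIS a haI ihu
          · by_cases hwu : w = u
            · subst hwu
              apply hN
              refine ⟨a, haH, ihu, fun y hy hay => ?_⟩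
              exact ih y ((hmem y).mpr (Or.inr (Or.inr hy))) hay
                (fun e => hc.uH (e ▸ hy))
            · exact huS (ih u ((hmem u).mpr (Or.inl rfl))
                (hc.adj a (Finset.mem_union_right _ haH)).symm (Ne.symm hwu))
      exact huS (key u (h u ((hmem u).mpr (Or.inl rfl))))
  · rintro ⟨hZ, hI, hor⟩
    have hu : BlueIn G (insert u (I ∪ H)) S u := by
      rcases hor with h | ⟨i, hi, hiS⟩ | ⟨x, hx, hxS, hxN⟩
      · exact .init ((hmem u).mpr (Or.inl rfl)) h
      · refine .force (.init ((hmem i).mpr (Or.inr (Or.inl hi))) hiS)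
          ((hmem u).mpr (Or.inl rfl)) (hc.adj i (Finset.mem_union_left _ hi)).symm ?_
        intro x hx hix hxu
        rcases (hmem x).mp hx with h1 | h1 | h1
        · exact absurd h1 hxu
        · exact absurd hix (hc.iso i hi x (Finset.mem_union_left _ h1))
        · exact absurd hix (isoH i hi x h1)
      · refine .force (.init ((hmem x).mpr (Or.inr (Or.inr hx))) hxS)
          ((hmem u).mpr (Or.inl rfl)) (hc.adj x (Finset.mem_union_right _ hx)).symm ?_
        intro y hy hxy hyu
        rcases (hmem y).mp hy with h1 | h1 | h1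
        · exact absurd h1 hyu
        · exact absurd hxy.symm (isoH y h1 x hx)
        · exact .init hy (hxN y h1 hxy)
    have hH : ∀ v, BlueIn G H S v → BlueIn G (insert u (I ∪ H)) S v := by
      intro v hv
      induction hv with
      | init hA hS => exact .init ((hmem _).mpr (Or.inr (Or.inr hA))) hS
      | @force a w ha hw haw h ihu ih =>
        refine .force ihu ((hmem w).mpr (Or.inr (Or.inr hw))) haw ?_
        intro x hx hax hxw
        rcases (hmem x).mp hx with h1 | h1 | h1
        · exact h1 ▸ hu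
        · exact absurd hax.symm (isoH x h1 a ha.mem)
        · exact ih x h1 hax hxw
    intro v hv
    rcases (hmem v).mp hv with h1 | h1 | h1
    · exact h1 ▸ hu
    · by_cases hvS : v ∈ S
      · exact .init hv hvS
      · refine .force hu hv (hc.adj v (Finset.mem_union_left _ h1)) ?_
        intro x hx hux hxv
        rcases (hmem x).mp hx with h2 | h2 | h2
        · exact h2 ▸ hu
        · by_cases hxS : x ∈ S
          · exact .init hx hxS
          · exact absurd (Finset.card_le_one.mp hI x (Finset.mem_sdiff.mpr ⟨h2, hxS⟩) v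
              (Finset.mem_sdiff.mpr ⟨h1, hvS⟩)) hxv
        · exact hH x (hZ x h2)
    · exact hH v (hZ v h1)

theorem cone_Nb (hc : Cone G u I H) (hne : (I ∪ H).Nonempty) :
    (ZF G (insert u (I ∪ H)) S ∧ NbIn G (insert u (I ∪ H)) S) ↔ u ∈ S ∧ ZF G H S ∧
      (I \ S).card ≤ 1 ∧ ((∃ i ∈ I, i ∈ S) ∨ NbIn G H S) := by
  have hmem : ∀ x, x ∈ insert u (I ∪ H) ↔ x = u ∨ x ∈ I ∨ x ∈ H := by
    intro x; simp [Finset.mem_insert, Finset.mem_union]
  have isoH : ∀ i ∈ I, ∀ y ∈ H, ¬ G.Adj i y := fun i hi y hy =>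
    hc.iso i hi y (Finset.mem_union_right _ hy)
  rw [cone_ZF hc]
  constructor
  · rintro ⟨⟨hZ, hI, -⟩, x, hx, hxS, hxN⟩
    have huS : u ∈ S := by
      rcases (hmem x).mp hx with h1 | h1 | h1
      · exact h1 ▸ hxS
      · exact hxN u ((hmem u).mpr (Or.inl rfl)) (hc.adj x (Finset.mem_union_left _ h1)).symm
      · exact hxN u ((hmem u).mpr (Or.inl rfl)) (hc.adj x (Finset.mem_union_right _ h1)).symm
    refine ⟨huS, hZ, hI, ?_⟩
    rcases (hmem x).mp hx with h1 | h1 | h1
    · subst h1
      have hall : ∀ y ∈ I ∪ H, y ∈ S := fun y hy =>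
        hxN y (Finset.mem_insert_of_mem hy) (hc.adj y hy)
      obtain ⟨y, hy⟩ := hne
      rcases Finset.mem_union.mp hy with h2 | h2
      · exact Or.inl ⟨y, h2, hall y hy⟩
      · exact Or.inr ⟨y, h2, hall y hy, fun t ht _ => hall t (Finset.mem_union_right _ ht)⟩
    · exact Or.inl ⟨x, h1, hxS⟩
    · exact Or.inr ⟨x, h1, hxS, fun y hy hxy => hxN y ((hmem y).mpr (Or.inr (Or.inr hy))) hxy⟩
  · rintro ⟨huS, hZ, hI, hor⟩
    refine ⟨⟨hZ, hI, Or.inl huS⟩, ?_⟩
    rcases hor with ⟨i, hi, hiS⟩ | ⟨x, hx, hxS, hxN⟩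
    · refine ⟨i, (hmem i).mpr (Or.inr (Or.inl hi)), hiS, fun y hy hiy => ?_⟩
      rcases (hmem y).mp hy with h1 | h1 | h1
      · exact h1 ▸ huS
      · exact absurd hiy (hc.iso i hi y (Finset.mem_union_left _ h1))
      · exact absurd hiy (isoH i hi y h1)
    · refine ⟨x, (hmem x).mpr (Or.inr (Or.inr hx)), hxS, fun y hy hxy => ?_⟩
      rcases (hmem y).mp hy with h1 | h1 | h1
      · exact h1 ▸ huS
      · exact absurd hxy.symm (isoH y h1 x hx)
      · exact hxN y h1 hxy

/-- The part of a family condition that concerns `I`, `H` and a closed neighbourhood. -/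
theorem cone_pick (hc : Cone G u I H) {z : ℕ} (hZ : Uni (ZF G H) H z)
    (hN : Uni (fun S => ZF G H S ∧ NbIn G H S) H (z + 1)) {S : Finset V}
    (h1 : ZF G H S) (h2 : (I \ S).card ≤ 1) (h3 : (∃ i ∈ I, i ∈ S) ∨ NbIn G H S) :
    ∃ S0, S0 ⊆ S ∧ S0 ⊆ I ∪ H ∧ (ZF G H S0 ∧ (I \ S0).card ≤ 1 ∧
      ((∃ i ∈ I, i ∈ S0) ∨ NbIn G H S0)) ∧ S0.card = z + max 1 (I.card - 1) := by
  have hcardI : (I ∩ S).card + (I \ S).card = I.card := Finset.card_inter_add_card_sdiff I S
  by_cases hI2 : 2 ≤ I.card
  · obtain ⟨B, hBS, hBH, hB, hBc⟩ := hZ S h1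
    obtain ⟨J, hJ, hJc⟩ := Finset.exists_subset_card_eq (s := I ∩ S) (n := I.card - 1) (by omega)
    have hJI : J ⊆ I := hJ.trans Finset.inter_subset_left
    have hJS : J ⊆ S := hJ.trans Finset.inter_subset_right
    have hdisj : Disjoint J B := hc.disj.mono hJI hBH
    refine ⟨J ∪ B, Finset.union_subset hJS hBS, Finset.union_subset_union hJI hBH, ⟨?_, ?_, ?_⟩,
      ?_⟩
    · exact hB.mono Finset.subset_union_right
    · have e1 : (I \ J).card = I.card - J.card := Finset.card_sdiff_of_subset hJI
      have e2 : (I \ (J ∪ B)).card ≤ (I \ J).card :=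
        Finset.card_le_card (Finset.sdiff_subset_sdiff subset_rfl Finset.subset_union_left)
      omega
    · have : J.Nonempty := by
        rw [← Finset.card_pos]; omega
      obtain ⟨j, hj⟩ := this
      exact Or.inl ⟨j, hJI hj, Finset.mem_union_left _ hj⟩
    · rw [Finset.card_union_of_disjoint hdisj, hBc, hJc]
      omega
  · have hmax : max 1 (I.card - 1) = 1 := by omega
    rw [hmax]
    rcases h3 with ⟨i, hi, hiS⟩ | h3
    · obtain ⟨B, hBS, hBH, hB, hBc⟩ := hZ S h1
      have hiB : i ∉ B := fun h => Finset.disjoint_left.mp hc.disj hi (hBH h)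
      refine ⟨insert i B, ?_, ?_, ⟨?_, ?_, ?_⟩, ?_⟩
      · exact Finset.insert_subset hiS hBS
      · exact Finset.insert_subset (Finset.mem_union_left _ hi)
          (hBH.trans Finset.subset_union_right)
      · exact hB.mono (Finset.subset_insert _ _)
      · have : (I \ insert i B).card ≤ I.card := Finset.card_le_card Finset.sdiff_subset
        omega
      · exact Or.inl ⟨i, hi, Finset.mem_insert_self _ _⟩
      · rw [Finset.card_insert_of_notMem hiB, hBc]
    · obtain ⟨B, hBS, hBH, hB, hBc⟩ := hN S ⟨h1, h3⟩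
      refine ⟨B, hBS, hBH.trans Finset.subset_union_right, ⟨hB.1, ?_, Or.inr hB.2⟩, hBc⟩
      have : (I \ B).card ≤ I.card := Finset.card_le_card Finset.sdiff_subset
      omega

theorem T_cone (hc : Cone G u I H) (hT : T G H) : T G (insert u (I ∪ H)) := by
  obtain ⟨z, hZ, hN0⟩ := hT
  have hN := hN0 hc.noiso
  have hun : u ∉ I ∪ H := by
    rw [Finset.mem_union]; rintro (h | h)
    · exact hc.uI h
    · exact hc.uH h
  refine ⟨z + max 1 (I.card - 1), ?_, ?_⟩
  · intro S hS
    rw [cone_ZF hc] at hS
    obtain ⟨h1, h2, h3⟩ := hS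
    by_cases h4 : (∃ i ∈ I, i ∈ S) ∨ NbIn G H S
    · obtain ⟨S0, hS0, hS0A, ⟨g1, g2, g3⟩, hcard⟩ := cone_pick hc hZ hN h1 h2 h4
      refine ⟨S0, hS0, hS0A.trans (Finset.subset_insert _ _), ?_, hcard⟩
      rw [cone_ZF hc]
      exact ⟨g1, g2, Or.inr g3⟩
    · have huS : u ∈ S := by
        rcases h3 with h | h
        · exact h
        · exact absurd h h4
      have hI1 : I.card ≤ 1 := by
        have : I \ S = I := by
          rw [Finset.sdiff_eq_self_iff_disjoint, Finset.disjoint_left]
          intro i hi hiS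
          exact h4 (Or.inl ⟨i, hi, hiS⟩)
        rwa [this] at h2
      obtain ⟨B, hBS, hBH, hB, hBc⟩ := hZ S h1
      have huB : u ∉ B := fun h => hc.uH (hBH h)
      refine ⟨insert u B, Finset.insert_subset huS hBS, ?_, ?_, ?_⟩
      · exact Finset.insert_subset_insert _ (hBH.trans Finset.subset_union_right)
      · rw [cone_ZF hc]
        refine ⟨hB.mono (Finset.subset_insert _ _), ?_, Or.inl (Finset.mem_insert_self _ _)⟩
        exact (Finset.card_le_card Finset.sdiff_subset).trans hI1
      · rw [Finset.card_insert_of_notMem huB, hBc]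
        omega
  · intro hiso S hS
    have hne : (I ∪ H).Nonempty := by
      obtain ⟨y, hy, huy⟩ := hiso u (Finset.mem_insert_self _ _)
      rcases Finset.mem_insert.mp hy with h | h
      · exact absurd (h ▸ huy) (G.loopless.irrefl u)
      · exact ⟨y, h⟩
    rw [cone_Nb hc hne] at hS
    obtain ⟨huS, h1, h2, h4⟩ := hS
    obtain ⟨S0, hS0, hS0A, ⟨g1, g2, g3⟩, hcard⟩ := cone_pick hc hZ hN h1 h2 h4
    have huS0 : u ∉ S0 := fun h => hun (hS0A h)
    refine ⟨insert u S0, Finset.insert_subset huS hS0, Finset.insert_subset_insert _ hS0A, ?_, ?_⟩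
    · refine (cone_Nb hc hne).mpr ⟨Finset.mem_insert_self _ _, g1.mono (Finset.subset_insert _ _), ?_, ?_⟩
      · exact (Finset.card_le_card (Finset.sdiff_subset_sdiff subset_rfl
          (Finset.subset_insert _ _))).trans g2
      · rcases g3 with ⟨i, hi, hi0⟩ | g3
        · exact Or.inl ⟨i, hi, Finset.mem_insert_of_mem hi0⟩
        · exact Or.inr (g3.mono (Finset.subset_insert _ _))
    · rw [Finset.card_insert_of_notMem huS0, hcard]

end cone

/-! ### Trivially perfect graphs -/

theorem T_empty : T G (∅ : Finset V) := by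
  refine ⟨0, ?_, ?_⟩
  · intro S _
    exact ⟨∅, Finset.empty_subset _, subset_rfl, fun v hv => absurd hv (Finset.notMem_empty _), rfl⟩
  · rintro - S ⟨-, x, hx, -⟩
    exact absurd hx (Finset.notMem_empty _)

theorem T_all (hG : ∀ a b c d, G.Adj a b → G.Adj b c → G.Adj c d → a ≠ c → b ≠ d →
    G.Adj a c ∨ G.Adj b d) : ∀ (n : ℕ) (A : Finset V), A.card = n → T G A := by
  classical
  intro n
  induction n using Nat.strong_induction_on with
  | _ n ih =>
    intro A hA
    rcases A.eq_empty_or_nonempty with rfl | hne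
    · exact T_empty
    obtain ⟨u, huA, hmax⟩ := Finset.exists_max_image A (fun v => (A.filter (G.Adj v)).card) hne
    by_cases huniv : ∀ v ∈ A, v ≠ u → G.Adj u v
    · set B := A.erase u with hB
      set I := B.filter (fun v => ¬ ∃ y ∈ B, G.Adj v y) with hI
      set H := B.filter (fun v => ∃ y ∈ B, G.Adj v y) with hH
      have hIH : I ∪ H = B := by
        rw [hI, hH, Finset.union_comm]
        exact Finset.filter_union_filter_not_eq _ _
      have huB : u ∉ B := Finset.notMem_erase _ _
      have hcone : Cone G u I H := by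
        refine ⟨fun h => huB (Finset.mem_filter.mp h).1, fun h => huB (Finset.mem_filter.mp h).1,
          ?_, ?_, ?_, ?_⟩
        · rw [Finset.disjoint_left]
          intro v hv hv2
          exact (Finset.mem_filter.mp hv).2 (Finset.mem_filter.mp hv2).2
        · intro v hv
          rw [hIH, hB, Finset.mem_erase] at hv
          exact huniv v hv.2 hv.1
        · intro i hi y hy hiy
          rw [hIH] at hy
          exact (Finset.mem_filter.mp hi).2 ⟨y, hy, hiy⟩
        · intro v hv
          obtain ⟨hvB, y, hy, hvy⟩ := Finset.mem_filter.mp hv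
          exact ⟨y, Finset.mem_filter.mpr ⟨hy, v, hvB, hvy.symm⟩, hvy⟩
      have hAe : insert u (I ∪ H) = A := by
        rw [hIH, hB, Finset.insert_erase huA]
      rw [← hAe]
      refine T_cone hcone (ih H.card ?_ H rfl)
      have h1 : H.card ≤ B.card := Finset.card_le_card (Finset.filter_subset _ _)
      have h2 : B.card < A.card := Finset.card_erase_lt_of_mem huA
      omega
    · push Not at huniv
      obtain ⟨t, htA, htu, hut⟩ := huniv
      set A1 := insert u (A.filter (G.Adj u)) with hA1
      set A2 := A \ A1 with hA2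
      have hA1A : A1 ⊆ A := Finset.insert_subset huA (Finset.filter_subset _ _)
      have hU : A1 ∪ A2 = A := Finset.union_sdiff_of_subset hA1A
      have htA2 : t ∈ A2 := by
        rw [hA2, Finset.mem_sdiff, hA1, Finset.mem_insert, Finset.mem_filter]
        refine ⟨htA, ?_⟩
        rintro (h | h)
        · exact htu h
        · exact hut h.2
      have hno : ∀ x ∈ A1, ∀ y ∈ A2, ¬ G.Adj x y := by
        intro x hx y hy hxy
        rw [hA2, Finset.mem_sdiff, hA1, Finset.mem_insert, Finset.mem_filter] at hy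
        push Not at hy
        obtain ⟨hyA, hyu, hyn⟩ := hy
        have huy : ¬ G.Adj u y := hyn hyA
        rw [hA1, Finset.mem_insert, Finset.mem_filter] at hx
        rcases hx with rfl | ⟨hxA, hux⟩
        · exact huy hxy
        · have hsub : insert y (insert u ((A.filter (G.Adj u)).erase x)) ⊆
              A.filter (G.Adj x) := by
            intro a ha
            rw [Finset.mem_insert, Finset.mem_insert, Finset.mem_erase, Finset.mem_filter] at ha
            rw [Finset.mem_filter]
            rcases ha with rfl | rfl | ⟨hax, haA, hua⟩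
            · exact ⟨hyA, hxy⟩
            · exact ⟨huA, hux.symm⟩
            · refine ⟨haA, ?_⟩
              rcases hG a u x y hua.symm hux hxy hax (Ne.symm hyu) with h | h
              · exact h.symm
              · exact absurd h huy
          have hcard := Finset.card_le_card hsub
          have h1 : u ∉ (A.filter (G.Adj u)).erase x := by
            rw [Finset.mem_erase, Finset.mem_filter]
            rintro ⟨-, -, h⟩
            exact G.loopless.irrefl u h
          have h2 : y ∉ insert u ((A.filter (G.Adj u)).erase x) := by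
            rw [Finset.mem_insert, Finset.mem_erase, Finset.mem_filter]
            rintro (h | ⟨-, -, h⟩)
            · exact hyu h
            · exact huy h
          have h3 : x ∈ A.filter (G.Adj u) := Finset.mem_filter.mpr ⟨hxA, hux⟩
          rw [Finset.card_insert_of_notMem h2, Finset.card_insert_of_notMem h1,
            Finset.card_erase_of_mem h3] at hcard
          have h4 := hmax x hxA
          have h5 : 0 < (A.filter (G.Adj u)).card := Finset.card_pos.mpr ⟨x, h3⟩

          omega
      rw [← hU]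
      have hdisj : Disjoint A1 A2 := Finset.disjoint_sdiff
      have hcU : A1.card + A2.card = A.card := by
        rw [← Finset.card_union_of_disjoint hdisj, hU]
      have hp1 : 0 < A1.card := Finset.card_pos.mpr ⟨u, Finset.mem_insert_self _ _⟩
      have hp2 : 0 < A2.card := Finset.card_pos.mpr ⟨t, htA2⟩
      exact T_union hdisj hno (ih A1.card (by omega) A1 rfl) (ih A2.card (by omega) A2 rfl)

end Pool.Agent.H81.WF
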