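import Pool.Agent.H81.WellForcedJoin

/-!
# Cographs without the forbidden configuration are well-forced
-/

namespace Pool.Agent.H81.WF

open Classical

variable {V : Type*} {G : SimpleGraph V} {A S S' : Finset V}

/-- `G` has no induced path on four vertices. -/
def P4Free (G : SimpleGraph V) : Prop :=
  ∀ a b c d, G.Adj a b → G.Adj b c → G.Adj c d → a ≠ c → b ≠ d →
    G.Adj a c ∨ G.Adj b d ∨ G.Adj a d

/-- `p, q, s, t` induce `2 K_1 + K_2` or `K_1 + P_3` (`p` isolated, `s ~ t`, `q` not adjacent to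
`s`). -/
def XPat (G : SimpleGraph V) (p q s t : V) : Prop :=
  p ≠ q ∧ q ≠ s ∧ ¬ G.Adj p q ∧ ¬ G.Adj p s ∧ ¬ G.Adj p t ∧ G.Adj s t ∧ ¬ G.Adj q s

/-- `x` is adjacent to `p, q, s, t`. -/
def JX (G : SimpleGraph V) (x p q s t : V) : Prop :=
  G.Adj x p ∧ G.Adj x q ∧ G.Adj x s ∧ G.Adj x t

def XFree (G : SimpleGraph V) (A : Finset V) : Prop :=
  ∀ p ∈ A, ∀ q ∈ A, ∀ s ∈ A, ∀ t ∈ A, ¬ XPat G p q s t

def EFree (G : SimpleGraph V) (A : Finset V) : Prop :=
  ∀ a ∈ A, ∀ c ∈ A, a ≠ c → ¬ G.Adj a c → ∀ p ∈ A, ∀ q ∈ A, ∀ s ∈ A, ∀ t ∈ A,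
    XPat G p q s t → JX G a p q s t → JX G c p q s t → False

def FFree (G : SimpleGraph V) (A : Finset V) : Prop :=
  ∀ a ∈ A, ∀ b ∈ A, ∀ c ∈ A, a ≠ c → G.Adj a b → ¬ G.Adj a c →
    ∀ p ∈ A, ∀ q ∈ A, ∀ s ∈ A, ∀ t ∈ A,
    XPat G p q s t → JX G a p q s t → JX G b p q s t → JX G c p q s t → False

theorem XFree.sub {B : Finset V} (h : XFree G A) (hB : B ⊆ A) : XFree G B :=
  fun p hp q hq s hs t ht => h p (hB hp) q (hB hq) s (hB hs) t (hB ht)

theorem EFree.sub {B : Finset V} (h : EFree G A) (hB : B ⊆ A) : EFree G B :=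
  fun a ha c hc h1 h2 p hp q hq s hs t ht =>
    h a (hB ha) c (hB hc) h1 h2 p (hB hp) q (hB hq) s (hB hs) t (hB ht)

theorem FFree.sub {B : Finset V} (h : FFree G A) (hB : B ⊆ A) : FFree G B :=
  fun a ha b hb c hc h1 h2 h3 p hp q hq s hs t ht =>
    h a (hB ha) b (hB hb) c (hB hc) h1 h2 h3 p (hB hp) q (hB hq) s (hB hs) t (hB ht)

/-! ### The dichotomy for cographs -/

/-- `G[A]` is disconnected. -/
def Disc (G : SimpleGraph V) (A : Finset V) : Prop :=
  ∃ A1 A2 : Finset V, A1.Nonempty ∧ A2.Nonempty ∧ A1 ∪ A2 = A ∧ Disjoint A1 A2 ∧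
    ∀ x ∈ A1, ∀ y ∈ A2, ¬ G.Adj x y

theorem P4Free.compl (h : P4Free G) : P4Free Gᶜ := by
  intro a b c d hab hbc hcd hac hbd
  by_contra hcon
  push Not at hcon
  obtain ⟨h1, h2, h3⟩ := hcon
  simp only [SimpleGraph.compl_adj, not_and, not_not] at *
  have e1 := h1 hac
  have e2 := h2 hbd
  have had : a ≠ d := by
    rintro rfl
    exact hcd.2 e1.symm
  have e3 := h3 had
  rcases h c a d b e1.symm e3 e2.symm hcd.1 hab.1 with h4 | h4 | h4
  · exact hcd.2 h4
  · exact hab.2 h4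
  · exact hbc.2 h4.symm

theorem disc_step (hP : P4Free G) {v w : V} {B1 B2 : Finset V} (hv1 : v ∉ B1) (hv2 : v ∉ B2)
    (hd : Disjoint B1 B2) (hn2 : B2.Nonempty) (hno : ∀ x ∈ B1, ∀ y ∈ B2, ¬ G.Adj x y)
    (hw : w ∈ B1) (hvw : ¬ G.Adj v w) : Disc G (insert v (B1 ∪ B2)) := by
  by_cases hz : ∃ z ∈ B2, G.Adj v z
  · obtain ⟨z, hz, hvz⟩ := hz
    refine ⟨B1.filter (fun x => ¬ G.Adj v x), insert v (B1.filter (fun x => G.Adj v x) ∪ B2),
      ⟨w, Finset.mem_filter.mpr ⟨hw, hvw⟩⟩, ⟨v, Finset.mem_insert_self _ _⟩, ?_, ?_, ?_⟩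
    · ext x
      simp only [Finset.mem_union, Finset.mem_filter, Finset.mem_insert]
      tauto
    · rw [Finset.disjoint_left]
      intro x hx hx2
      simp only [Finset.mem_union, Finset.mem_filter, Finset.mem_insert] at hx hx2
      rcases hx2 with h | h | h
      · exact hv1 (h ▸ hx.1)
      · exact hx.2 h.2
      · exact Finset.disjoint_left.mp hd hx.1 h
    · intro x hx y hy hxy
      simp only [Finset.mem_union, Finset.mem_filter, Finset.mem_insert] at hx hy
      rcases hy with h | h | h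
      · subst h; exact hx.2 hxy.symm
      · have hyz : y ≠ z := by
          rintro rfl
          exact hno x hx.1 y hz hxy
        have hxv : x ≠ v := fun e => hv1 (e ▸ hx.1)
        rcases hP x y v z hxy h.2.symm hvz hxv hyz with h1 | h1 | h1
        · exact hx.2 h1.symm
        · exact hno y h.1 z hz h1
        · exact hno x hx.1 z hz h1
      · exact hno x hx.1 y h hxy
  · push Not at hz
    refine ⟨B2, insert v B1, hn2, ⟨v, Finset.mem_insert_self _ _⟩, ?_, ?_, ?_⟩
    · ext x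
      simp only [Finset.mem_union, Finset.mem_insert]
      tauto
    · rw [Finset.disjoint_left]
      intro x hx hx2
      rcases Finset.mem_insert.mp hx2 with h | h
      · exact hv2 (h ▸ hx)
      · exact Finset.disjoint_left.mp hd h hx
    · intro x hx y hy hxy
      rcases Finset.mem_insert.mp hy with h | h
      · subst h; exact hz x hx hxy.symm
      · exact hno y h x hx hxy.symm

theorem disc_insert (hP : P4Free G) {v : V} (hv : v ∈ A) (hD : Disc G (A.erase v)) :
    Disc G A ∨ Disc Gᶜ A := by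
  obtain ⟨B1, B2, hn1, hn2, hU, hd, hno⟩ := hD
  have hv1 : v ∉ B1 := fun h => Finset.notMem_erase v A (hU ▸ Finset.mem_union_left _ h)
  have hv2 : v ∉ B2 := fun h => Finset.notMem_erase v A (hU ▸ Finset.mem_union_right _ h)
  have hA : insert v (B1 ∪ B2) = A := by rw [hU, Finset.insert_erase hv]
  by_cases hall : ∀ w ∈ A.erase v, G.Adj v w
  · right
    refine ⟨{v}, A.erase v, Finset.singleton_nonempty _, ?_, ?_, ?_, ?_⟩
    · obtain ⟨x, hx⟩ := hn1
      exact ⟨x, hU ▸ Finset.mem_union_left _ hx⟩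
    · rw [← Finset.insert_eq, Finset.insert_erase hv]
    · rw [Finset.disjoint_singleton_left]
      exact Finset.notMem_erase v A
    · intro x hx y hy h
      rw [Finset.mem_singleton] at hx
      subst hx
      exact ((SimpleGraph.compl_adj _ _ _).mp h).2 (hall y hy)
  · left
    push Not at hall
    obtain ⟨w, hw, hvw⟩ := hall
    rw [← hU] at hw
    rw [← hA]
    rcases Finset.mem_union.mp hw with h | h
    · exact disc_step hP hv1 hv2 hd hn2 hno h hvw
    · rw [Finset.union_comm]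
      exact disc_step hP hv2 hv1 hd.symm hn1 (fun x hx y hy hxy => hno y hy x hx hxy.symm) h hvw

theorem dichotomy (hP : P4Free G) : ∀ (n : ℕ) (A : Finset V), A.card = n → 2 ≤ n →
    Disc G A ∨ Disc Gᶜ A := by
  intro n
  induction n with
  | zero => intro A _ h; omega
  | succ n ih =>
    intro A hA hn
    have hne : A.Nonempty := by rw [← Finset.card_pos]; omega
    obtain ⟨v, hv⟩ := hne
    have hcard : (A.erase v).card = n := by rw [Finset.card_erase_of_mem hv]; omega
    by_cases h2 : 2 ≤ n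
    · rcases ih (A.erase v) hcard h2 with h | h
      · exact disc_insert hP hv h
      · have := disc_insert hP.compl hv h
        rw [compl_compl] at this
        exact this.symm
    · have h1 : (A.erase v).card = 1 := by omega
      obtain ⟨w, hw⟩ := Finset.card_eq_one.mp h1
      have hU : {v} ∪ A.erase v = A := by rw [← Finset.insert_eq, Finset.insert_erase hv]
      have hd : Disjoint {v} (A.erase v) := by
        rw [Finset.disjoint_singleton_left]; exact Finset.notMem_erase v A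
      by_cases hvw : G.Adj v w
      · right
        refine ⟨{v}, A.erase v, Finset.singleton_nonempty _, ⟨w, by rw [hw]; simp⟩, hU, hd, ?_⟩
        intro x hx y hy h
        rw [Finset.mem_singleton] at hx
        rw [hw, Finset.mem_singleton] at hy
        subst hx; subst hy
        exact ((SimpleGraph.compl_adj _ _ _).mp h).2 hvw
      · left
        refine ⟨{v}, A.erase v, Finset.singleton_nonempty _, ⟨w, by rw [hw]; simp⟩, hU, hd, ?_⟩
        intro x hx y hy h
        rw [Finset.mem_singleton] at hx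
        rw [hw, Finset.mem_singleton] at hy
        subst hx; subst hy
        exact hvw h

/-- The two halves of a disconnection of the complement are completely joined. -/
theorem join_of_compl {A1 A2 : Finset V} (hd : Disjoint A1 A2)
    (h : ∀ x ∈ A1, ∀ y ∈ A2, ¬ Gᶜ.Adj x y) : ∀ x ∈ A1, ∀ y ∈ A2, G.Adj x y := by
  intro x hx y hy
  by_contra hxy
  refine h x hx y hy ((SimpleGraph.compl_adj _ _ _).mpr ⟨?_, hxy⟩)
  rintro rfl
  exact Finset.disjoint_left.mp hd hx hy

/-! ### `X`-free cographs -/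

theorem clique_card {B : Finset V} (hB : B ⊆ A) (hcl : ∀ x ∈ B, ∀ y ∈ B, x ≠ y → G.Adj x y)
    (hno : ∀ x ∈ B, ∀ y ∈ A, G.Adj x y → y ∈ B) (hZ : Zm G A S) : (B \ S).card ≤ 1 := by
  rw [Finset.card_le_one]
  intro w1 h1 w2 h2
  by_contra hne
  rw [Finset.mem_sdiff] at h1 h2
  have hadj := hcl w1 h1.1 w2 h2.1 hne
  have hm1 : w1 ∈ nonIso G A := mem_nonIso (hB h1.1) (hB h2.1) hadj
  have hm2 : w2 ∈ nonIso G A := mem_nonIso (hB h2.1) (hB h1.1) hadj.symm
  have key : ∀ v, BlueIn G (nonIso G A) S v → v ≠ w1 ∧ v ≠ w2 := by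
    intro v hv
    induction hv with
    | init hA hS =>
      constructor
      · rintro rfl; exact h1.2 hS
      · rintro rfl; exact h2.2 hS
    | @force a w ha hw haw h ihu ih =>
      constructor
      · rintro rfl
        have haB : a ∈ B := hno w h1.1 a (nonIso_sub ha.mem) haw.symm
        exact (ih w2 hm2 (hcl a haB w2 h2.1 ihu.2) (Ne.symm hne)).2 rfl
      · rintro rfl
        have haB : a ∈ B := hno w h2.1 a (nonIso_sub ha.mem) haw.symm
        exact (ih w1 hm1 (hcl a haB w1 h1.1 ihu.1) hne).1 rfl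
  exact (key w1 (hZ.1 w1 hm1)).1 rfl

theorem two_cliques {A1 A2 : Finset V} (hn2 : A2.Nonempty)
    (hd : Disjoint A1 A2) (hno : ∀ x ∈ A1, ∀ y ∈ A2, ¬ G.Adj x y) (hX : XFree G (A1 ∪ A2))
    {s t : V} (hs : s ∈ A1) (ht : t ∈ A1) (hst : G.Adj s t) :
    (∀ x ∈ A1, ∀ y ∈ A1, x ≠ y → G.Adj x y) ∧ (∀ x ∈ A2, ∀ y ∈ A2, x ≠ y → G.Adj x y) := by
  have l : ∀ {x}, x ∈ A1 → x ∈ A1 ∪ A2 := fun h => Finset.mem_union_left _ h
  have r : ∀ {x}, x ∈ A2 → x ∈ A1 ∪ A2 := fun h => Finset.mem_union_right _ h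
  have hne : ∀ x ∈ A1, ∀ y ∈ A2, y ≠ x := by
    intro x hx y hy e
    exact Finset.disjoint_left.mp hd hx (e ▸ hy)
  constructor
  · intro u hu v hv huv
    by_contra hnadj
    obtain ⟨p, hp⟩ := hn2
    by_cases hy : ∃ y ∈ A1, G.Adj u y
    · obtain ⟨y, hy, huy⟩ := hy
      exact hX p (r hp) v (l hv) u (l hu) y (l hy) ⟨hne v hv p hp, huv.symm,
        fun h => hno v hv p hp h.symm, fun h => hno u hu p hp h.symm,
        fun h => hno y hy p hp h.symm, huy, fun h => hnadj h.symm⟩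
    · push Not at hy
      refine hX p (r hp) u (l hu) s (l hs) t (l ht) ⟨hne u hu p hp, ?_,
        fun h => hno u hu p hp h.symm, fun h => hno s hs p hp h.symm,
        fun h => hno t ht p hp h.symm, hst, hy s hs⟩
      rintro rfl
      exact hy t ht hst
  · intro p hp q hq hpq
    by_contra hnadj
    exact hX p (r hp) q (r hq) s (l hs) t (l ht) ⟨hpq, hne s hs q hq, hnadj,
      fun h => hno s hs p hp h.symm, fun h => hno t ht p hp h.symm, hst,
      fun h => hno s hs q hq h.symm⟩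

theorem R_of_cliques {A1 A2 : Finset V} (hd : Disjoint A1 A2)
    (hno : ∀ x ∈ A1, ∀ y ∈ A2, ¬ G.Adj x y)
    (hnd : ∀ y ∈ A1 ∪ A2, ∃ x ∈ A1 ∪ A2, x ≠ y ∧ ¬ G.Adj x y)
    (h1 : ∀ x ∈ A1, ∀ y ∈ A1, x ≠ y → G.Adj x y) (h2 : ∀ x ∈ A2, ∀ y ∈ A2, x ≠ y → G.Adj x y) :
    R G (A1 ∪ A2) := by
  have c1 : ∀ S, Zm G (A1 ∪ A2) S → (A1 \ S).card ≤ 1 := by
    intro S hZ
    refine clique_card Finset.subset_union_left h1 ?_ hZ
    intro x hx y hy hxy
    rcases Finset.mem_union.mp hy with h | h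
    · exact h
    · exact absurd hxy (hno x hx y h)
  have c2 : ∀ S, Zm G (A1 ∪ A2) S → (A2 \ S).card ≤ 1 := by
    intro S hZ
    refine clique_card Finset.subset_union_right h2 ?_ hZ
    intro x hx y hy hxy
    rcases Finset.mem_union.mp hy with h | h
    · exact absurd hxy.symm (hno y h x hx)
    · exact h
  refine ⟨hnd, ?_, ?_⟩
  · rintro S hZ ⟨x, hx, hxS, hN⟩
    have k1 := c1 S hZ
    have k2 := c2 S hZ
    rw [sdiff_union_card hd]
    rcases Finset.mem_union.mp hx with h | h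
    · have : A1 ⊆ S := by
        intro y hy
        by_cases hxy : x = y
        · exact hxy ▸ hxS
        · exact hN y (Finset.mem_union_left _ hy) (h1 x h y hy hxy)
      have : (A1 \ S).card = 0 := by rw [Finset.sdiff_eq_empty_iff_subset.mpr this]; rfl
      omega
    · have : A2 ⊆ S := by
        intro y hy
        by_cases hxy : x = y
        · exact hxy ▸ hxS
        · exact hN y (Finset.mem_union_right _ hy) (h2 x h y hy hxy)
      have : (A2 \ S).card = 0 := by rw [Finset.sdiff_eq_empty_iff_subset.mpr this]; rfl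
      omega
  · intro S hZ
    have k1 := c1 S hZ
    have k2 := c2 S hZ
    rw [sdiff_union_card hd]
    omega

theorem isoS_of_edgeless (h : ∀ x ∈ A, ∀ y ∈ A, ¬ G.Adj x y) : isoS G A = A := by
  refine Finset.Subset.antisymm isoS_sub fun v hv => Finset.mem_filter.mpr ⟨hv, ?_⟩
  rintro ⟨y, hy, hvy⟩
  exact h v hv y hy hvy

theorem R_of_edgeless (hnd : ∀ y ∈ A, ∃ x ∈ A, x ≠ y ∧ ¬ G.Adj x y)
    (h : ∀ x ∈ A, ∀ y ∈ A, ¬ G.Adj x y) : R G A := by
  have c : ∀ S, Zm G A S → (A \ S).card ≤ 1 := by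
    intro S hZ
    have := hZ.2
    rwa [isoS_of_edgeless h] at this
  exact ⟨hnd, fun S hZ _ => c S hZ, fun S hZ => (c S hZ).trans (by norm_num)⟩

theorem two_le_of_nd (hne : A.Nonempty) (hnd : ∀ y ∈ A, ∃ x ∈ A, x ≠ y ∧ ¬ G.Adj x y) :
    2 ≤ A.card := by
  obtain ⟨y, hy⟩ := hne
  obtain ⟨x, hx, hxy, -⟩ := hnd y hy
  exact Finset.one_lt_card.mpr ⟨x, hx, y, hy, hxy⟩

/-- In a join, a vertex without dominating property keeps its non-neighbour in its own part. -/
theorem nd_left {A1 A2 : Finset V} (hj : ∀ x ∈ A1, ∀ y ∈ A2, G.Adj x y)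
    (hnd : ∀ y ∈ A1 ∪ A2, ∃ x ∈ A1 ∪ A2, x ≠ y ∧ ¬ G.Adj x y) :
    ∀ y ∈ A1, ∃ x ∈ A1, x ≠ y ∧ ¬ G.Adj x y := by
  intro y hy
  obtain ⟨x, hx, hxy, hn⟩ := hnd y (Finset.mem_union_left _ hy)
  rcases Finset.mem_union.mp hx with h | h
  · exact ⟨x, h, hxy, hn⟩
  · exact absurd (hj y hy x h).symm hn

theorem R_of_XFree (hP : P4Free G) : ∀ (n : ℕ) (A : Finset V), A.card = n → A.Nonempty →
    (∀ y ∈ A, ∃ x ∈ A, x ≠ y ∧ ¬ G.Adj x y) → XFree G A → R G A := by
  intro n
  induction n using Nat.strong_induction_on with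
  | _ n ih =>
    intro A hA hne hnd hX
    have h2 := two_le_of_nd hne hnd
    rcases dichotomy hP A.card A rfl h2 with h | h
    · obtain ⟨A1, A2, hn1, hn2, rfl, hd, hno⟩ := h
      by_cases hE : ∃ s ∈ A1 ∪ A2, ∃ t ∈ A1 ∪ A2, G.Adj s t
      · obtain ⟨s, hs, t, ht, hst⟩ := hE
        rcases Finset.mem_union.mp hs with hs1 | hs2
        · have ht1 : t ∈ A1 := by
            rcases Finset.mem_union.mp ht with h | h
            · exact h
            · exact absurd hst (hno s hs1 t h)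
          obtain ⟨c1, c2⟩ := two_cliques hn2 hd hno hX hs1 ht1 hst
          exact R_of_cliques hd hno hnd c1 c2
        · have ht2 : t ∈ A2 := by
            rcases Finset.mem_union.mp ht with h | h
            · exact absurd hst.symm (hno t h s hs2)
            · exact h
          have hX' : XFree G (A2 ∪ A1) := by rwa [Finset.union_comm]
          obtain ⟨c2, c1⟩ := two_cliques hn1 hd.symm
            (fun x hx y hy h => hno y hy x hx h.symm) hX' hs2 ht2 hst
          exact R_of_cliques hd hno hnd c1 c2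
      · push Not at hE
        exact R_of_edgeless hnd hE
    · obtain ⟨A1, A2, hn1, hn2, rfl, hd, hno⟩ := h
      have hj := join_of_compl hd hno
      have hj' : ∀ x ∈ A2, ∀ y ∈ A1, G.Adj x y := fun x hx y hy => (hj y hy x hx).symm
      have hnd' : ∀ y ∈ A2 ∪ A1, ∃ x ∈ A2 ∪ A1, x ≠ y ∧ ¬ G.Adj x y := by
        rwa [Finset.union_comm]
      have hcU := Finset.card_union_of_disjoint hd
      have hp1 := Finset.card_pos.mpr hn1
      have hp2 := Finset.card_pos.mpr hn2
      exact R_join hj hn1 hn2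
        (ih A1.card (by omega) A1 rfl hn1 (nd_left hj hnd) (hX.sub Finset.subset_union_left))
        (ih A2.card (by omega) A2 rfl hn2 (nd_left hj' hnd') (hX.sub Finset.subset_union_right))

/-! ### The cone case -/

theorem cone_of_dom {u : V} (hu : u ∈ A) (huniv : ∀ v ∈ A, v ≠ u → G.Adj u v)
    (hT : T G (nonIso G (A.erase u))) : T G A := by
  have huB : u ∉ A.erase u := Finset.notMem_erase _ _
  have hcone : Cone G u (isoS G (A.erase u)) (nonIso G (A.erase u)) := by
    refine ⟨fun h => huB (isoS_sub h), fun h => huB (nonIso_sub h), iso_disj, ?_, ?_,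
      nonIso_noiso⟩
    · intro v hv
      rw [iso_union, Finset.mem_erase] at hv
      exact huniv v hv.2 hv.1
    · intro i hi y hy
      rw [iso_union] at hy
      exact isoS_not hi hy
  have hAe : insert u (isoS G (A.erase u) ∪ nonIso G (A.erase u)) = A := by
    rw [iso_union, Finset.insert_erase hu]
  rw [← hAe]
  exact T_cone hcone hT

theorem T_of_EFree (hP : P4Free G) : ∀ (n : ℕ) (A : Finset V), A.card = n → EFree G A →
    T G A := by
  intro n
  induction n using Nat.strong_induction_on with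
  | _ n ih =>
    intro A hA hE
    rcases A.eq_empty_or_nonempty with rfl | hne
    · exact T_empty
    by_cases hdom : ∃ u ∈ A, ∀ v ∈ A, v ≠ u → G.Adj u v
    · obtain ⟨u, hu, huniv⟩ := hdom
      have h1 : (nonIso G (A.erase u)).card ≤ (A.erase u).card := Finset.card_le_card nonIso_sub
      have h2 : (A.erase u).card < A.card := Finset.card_erase_lt_of_mem hu
      exact cone_of_dom hu huniv (ih _ (by omega) _ rfl
        (hE.sub (nonIso_sub.trans (Finset.erase_subset _ _))))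
    · push Not at hdom
      have hnd : ∀ y ∈ A, ∃ x ∈ A, x ≠ y ∧ ¬ G.Adj x y := by
        intro y hy
        obtain ⟨x, hx, hxy, hn⟩ := hdom y hy
        exact ⟨x, hx, hxy, fun h => hn h.symm⟩
      have h2 := two_le_of_nd hne hnd
      rcases dichotomy hP A.card A rfl h2 with h | h
      · obtain ⟨A1, A2, hn1, hn2, rfl, hd, hno⟩ := h
        have hcU := Finset.card_union_of_disjoint hd
        have hp1 := Finset.card_pos.mpr hn1
        have hp2 := Finset.card_pos.mpr hn2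
        exact T_union hd hno (ih A1.card (by omega) A1 rfl (hE.sub Finset.subset_union_left))
          (ih A2.card (by omega) A2 rfl (hE.sub Finset.subset_union_right))
      · obtain ⟨A1, A2, hn1, hn2, rfl, hd, hno⟩ := h
        have hj := join_of_compl hd hno
        have hj' : ∀ x ∈ A2, ∀ y ∈ A1, G.Adj x y := fun x hx y hy => (hj y hy x hx).symm
        have hnd' : ∀ y ∈ A2 ∪ A1, ∃ x ∈ A2 ∪ A1, x ≠ y ∧ ¬ G.Adj x y := by
          rwa [Finset.union_comm]
        have hnd1 := nd_left hj hnd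
        have hnd2 := nd_left hj' hnd'
        have l : ∀ {x}, x ∈ A1 → x ∈ A1 ∪ A2 := fun h => Finset.mem_union_left _ h
        have r : ∀ {x}, x ∈ A2 → x ∈ A1 ∪ A2 := fun h => Finset.mem_union_right _ h
        have hX1 : XFree G A1 := by
          intro p hp q hq s hs t ht hX
          obtain ⟨c, hc⟩ := hn2
          obtain ⟨a, ha, hac, hn⟩ := hnd2 c hc
          exact hE a (r ha) c (r hc) hac hn p (l hp) q (l hq) s (l hs) t (l ht) hX
            ⟨hj' a ha p hp, hj' a ha q hq, hj' a ha s hs, hj' a ha t ht⟩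
            ⟨hj' c hc p hp, hj' c hc q hq, hj' c hc s hs, hj' c hc t ht⟩
        have hX2 : XFree G A2 := by
          intro p hp q hq s hs t ht hX
          obtain ⟨c, hc⟩ := hn1
          obtain ⟨a, ha, hac, hn⟩ := hnd1 c hc
          exact hE a (l ha) c (l hc) hac hn p (r hp) q (r hq) s (r hs) t (r ht) hX
            ⟨hj a ha p hp, hj a ha q hq, hj a ha s hs, hj a ha t ht⟩
            ⟨hj c hc p hp, hj c hc q hq, hj c hc s hs, hj c hc t ht⟩
        exact T_join hj hn1 hn2 (R_of_XFree hP _ A1 rfl hn1 hnd1 hX1)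
          (R_of_XFree hP _ A2 rfl hn2 hnd2 hX2)

/-! ### An edgeless graph joined to another graph -/

theorem Nb_iff : NbIn G A S ↔ (∃ i ∈ isoS G A, i ∈ S) ∨ NbIn G (nonIso G A) S := by
  constructor
  · rintro ⟨x, hx, hxS, hN⟩
    rcases mem_iso_or (G := G) hx with h | h
    · exact Or.inl ⟨x, h, hxS⟩
    · exact Or.inr ⟨x, h, hxS, fun y hy hxy => hN y (nonIso_sub hy) hxy⟩
  · rintro (⟨i, hi, hiS⟩ | ⟨x, hx, hxS, hN⟩)
    · exact ⟨i, isoS_sub hi, hiS, fun y hy hiy => absurd hiy (isoS_not hi hy)⟩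
    · exact ⟨x, nonIso_sub hx, hxS, fun y hy hxy =>
        hN y (mem_nonIso hy (nonIso_sub hx) hxy.symm) hxy⟩

theorem pick {z : ℕ} (hZ : Uni (ZF G (nonIso G A)) (nonIso G A) z)
    (hN : Uni (fun S => ZF G (nonIso G A) S ∧ NbIn G (nonIso G A) S) (nonIso G A) (z + 1))
    (h : Zm G A S) (hNb : NbIn G A S) :
    ∃ S0, S0 ⊆ S ∧ S0 ⊆ A ∧ Zm G A S0 ∧ NbIn G A S0 ∧
      S0.card = z + max 1 ((isoS G A).card - 1) := by
  obtain ⟨h1, h2⟩ := h
  have hcardI : (isoS G A ∩ S).card + (isoS G A \ S).card = (isoS G A).card :=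
    Finset.card_inter_add_card_sdiff _ _
  by_cases hI2 : 2 ≤ (isoS G A).card
  · obtain ⟨B, hBS, hBH, hB, hBc⟩ := hZ S h1
    obtain ⟨J, hJ, hJc⟩ := Finset.exists_subset_card_eq (s := isoS G A ∩ S)
      (n := (isoS G A).card - 1) (by omega)
    have hJI : J ⊆ isoS G A := hJ.trans Finset.inter_subset_left
    have hJS : J ⊆ S := hJ.trans Finset.inter_subset_right
    have hdisj : Disjoint J B := (iso_disj (G := G) (A := A)).mono hJI hBH
    have hJne : J.Nonempty := by rw [← Finset.card_pos]; omega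
    obtain ⟨j, hj⟩ := hJne
    refine ⟨J ∪ B, Finset.union_subset hJS hBS,
      Finset.union_subset (hJI.trans isoS_sub) (hBH.trans nonIso_sub),
      ⟨hB.mono Finset.subset_union_right, ?_⟩,
      Nb_iff.mpr (Or.inl ⟨j, hJI hj, Finset.mem_union_left _ hj⟩), ?_⟩
    · have e1 : (isoS G A \ J).card = (isoS G A).card - J.card := Finset.card_sdiff_of_subset hJI
      have e2 : (isoS G A \ (J ∪ B)).card ≤ (isoS G A \ J).card :=
        Finset.card_le_card (Finset.sdiff_subset_sdiff subset_rfl Finset.subset_union_left)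
      omega
    · rw [Finset.card_union_of_disjoint hdisj, hBc, hJc]
      omega
  · have hmax : max 1 ((isoS G A).card - 1) = 1 := by omega
    rw [hmax]
    rcases Nb_iff.mp hNb with ⟨i, hi, hiS⟩ | h3
    · obtain ⟨B, hBS, hBH, hB, hBc⟩ := hZ S h1
      have hiB : i ∉ B := fun h => Finset.disjoint_left.mp iso_disj hi (hBH h)
      refine ⟨insert i B, Finset.insert_subset hiS hBS,
        Finset.insert_subset (isoS_sub hi) (hBH.trans nonIso_sub),
        ⟨hB.mono (Finset.subset_insert _ _), ?_⟩,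
        Nb_iff.mpr (Or.inl ⟨i, hi, Finset.mem_insert_self _ _⟩), ?_⟩
      · have : (isoS G A \ insert i B).card ≤ (isoS G A).card :=
          Finset.card_le_card Finset.sdiff_subset
        omega
      · rw [Finset.card_insert_of_notMem hiB, hBc]
    · obtain ⟨B, hBS, hBH, hB, hBc⟩ := hN S ⟨h1, h3⟩
      refine ⟨B, hBS, hBH.trans nonIso_sub, ⟨hB.1, ?_⟩, Nb_iff.mpr (Or.inr hB.2), hBc⟩
      have : (isoS G A \ B).card ≤ (isoS G A).card := Finset.card_le_card Finset.sdiff_subset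
      omega

theorem W_edgeless {A1 A2 : Finset V} (hj : ∀ x ∈ A1, ∀ y ∈ A2, G.Adj x y)
    (hn1 : A1.Nonempty) (hn2 : A2.Nonempty) (hE : ∀ x ∈ A1, ∀ y ∈ A1, ¬ G.Adj x y)
    (hnd2 : ∀ y ∈ A2, ∃ x ∈ A2, x ≠ y ∧ ¬ G.Adj x y) (hT : T G (nonIso G A2)) :
    ∃ z, Uni (ZF G (A1 ∪ A2)) (A1 ∪ A2) z := by
  obtain ⟨z, hZ, hN0⟩ := hT
  have hN := hN0 nonIso_noiso
  have hd := join_disj hj
  have hj' : ∀ x ∈ A2, ∀ y ∈ A1, G.Adj x y := fun x hx y hy => (hj y hy x hx).symm
  have hp1 := Finset.card_pos.mpr hn1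
  refine ⟨A1.card - 1 + (z + max 1 ((isoS G A2).card - 1)), ?_⟩
  intro S hS
  have hZ1 := join_Zm hj hS
  have hZ2 : Zm G A2 S := join_Zm hj' (by rwa [Finset.union_comm])
  have hW1 : (A1 \ S).card ≤ 1 := by
    have := hZ1.2
    rwa [isoS_of_edgeless hE] at this
  have hor : A1 ⊆ S ∨ NbIn G A2 S := by
    rcases join_nec hj hS with h | h | ⟨h, -⟩ | ⟨-, h⟩
    · obtain ⟨x, hx⟩ := hn2
      exact Or.inr ⟨x, hx, h hx, fun y hy _ => h hy⟩
    · exact Or.inl h
    · right
      rcases (A2 \ S).eq_empty_or_nonempty with he | ⟨y, hy⟩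
      · rw [Finset.sdiff_eq_empty_iff_subset] at he
        obtain ⟨x, hx⟩ := hn2
        exact ⟨x, hx, he hx, fun y hy _ => he hy⟩
      · have hyA := (Finset.mem_sdiff.mp hy).1
        obtain ⟨x, hx, hxy, hnxy⟩ := hnd2 y hyA
        have hin : ∀ t ∈ A2, t ≠ y → t ∈ S := by
          intro t ht hty
          by_contra htS
          exact hty (Finset.card_le_one.mp h t (Finset.mem_sdiff.mpr ⟨ht, htS⟩) y hy)
        refine ⟨x, hx, hin x hx hxy, fun t ht hxt => hin t ht ?_⟩
        rintro rfl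
        exact hnxy hxt
    · exact Or.inr h
  by_cases hNb : NbIn G A2 S
  · obtain ⟨B, hBS, hBA, hBZ, hBN, hBc⟩ := pick hZ hN hZ2 hNb
    have hcard := Finset.card_inter_add_card_sdiff A1 S
    obtain ⟨J, hJ, hJc⟩ := Finset.exists_subset_card_eq (s := A1 ∩ S)
      (n := A1.card - 1) (by omega)
    have hJ1 : J ⊆ A1 := hJ.trans Finset.inter_subset_left
    have hJS : J ⊆ S := hJ.trans Finset.inter_subset_right
    have e1 : (A1 \ J).card = A1.card - J.card := Finset.card_sdiff_of_subset hJ1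
    have e2 : (A1 \ (J ∪ B)).card ≤ 1 := by
      have e3 : (A1 \ (J ∪ B)).card ≤ (A1 \ J).card :=
        Finset.card_le_card (Finset.sdiff_subset_sdiff subset_rfl Finset.subset_union_left)
      omega
    refine ⟨J ∪ B, Finset.union_subset hJS hBS, Finset.union_subset_union hJ1 hBA, ?_, ?_⟩
    · rw [Finset.union_comm A1 A2]
      exact join_suff hj' hn1 (hBZ.mono Finset.subset_union_right)
        (Or.inr ⟨e2, hBN.mono Finset.subset_union_right⟩)
    · rw [Finset.card_union_of_disjoint (hd.mono hJ1 hBA), hJc, hBc]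
  · have hA1 : A1 ⊆ S := hor.resolve_right hNb
    have hI : isoS G A2 \ S = isoS G A2 := by
      rw [Finset.sdiff_eq_self_iff_disjoint, Finset.disjoint_left]
      intro i hi hiS
      exact hNb (Nb_iff.mpr (Or.inl ⟨i, hi, hiS⟩))
    have hI1 : (isoS G A2).card ≤ 1 := by
      have := hZ2.2
      rwa [hI] at this
    obtain ⟨B, hBS, hBH, hB, hBc⟩ := hZ S hZ2.1
    have hBA : B ⊆ A2 := hBH.trans nonIso_sub
    refine ⟨A1 ∪ B, Finset.union_subset hA1 hBS, Finset.union_subset_union subset_rfl hBA, ?_, ?_⟩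
    · rw [Finset.union_comm A1 A2]
      refine join_suff hj' hn1 ⟨hB.mono Finset.subset_union_right, ?_⟩
        (Or.inl Finset.subset_union_left)
      exact (Finset.card_le_card Finset.sdiff_subset).trans hI1
    · rw [Finset.card_union_of_disjoint (hd.mono subset_rfl hBA), hBc]
      omega

theorem Uni_union {A1 A2 : Finset V} (hd : Disjoint A1 A2)
    (hno : ∀ x ∈ A1, ∀ y ∈ A2, ¬ G.Adj x y) {z1 z2 : ℕ}
    (h1 : Uni (ZF G A1) A1 z1) (h2 : Uni (ZF G A2) A2 z2) :
    Uni (ZF G (A1 ∪ A2)) (A1 ∪ A2) (z1 + z2) := by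
  intro S hS
  rw [ZF_union hno] at hS
  obtain ⟨B1, hB1S, hB1A, hB1, hc1⟩ := h1 S hS.1
  obtain ⟨B2, hB2S, hB2A, hB2, hc2⟩ := h2 S hS.2
  refine ⟨B1 ∪ B2, Finset.union_subset hB1S hB2S, Finset.union_subset_union hB1A hB2A, ?_, ?_⟩
  · rw [ZF_union hno]
    exact ⟨hB1.mono Finset.subset_union_left, hB2.mono Finset.subset_union_right⟩
  · rw [Finset.card_union_of_disjoint (hd.mono hB1A hB2A), hc1, hc2]

/-- A part of a join facing a part that contains the pattern `X`. -/
theorem W_join_aux (hP : P4Free G) {A1 A2 : Finset V} (hj : ∀ x ∈ A1, ∀ y ∈ A2, G.Adj x y)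
    (hn1 : A1.Nonempty) (hn2 : A2.Nonempty) (hF : FFree G (A1 ∪ A2))
    (hnd1 : ∀ y ∈ A1, ∃ x ∈ A1, x ≠ y ∧ ¬ G.Adj x y)
    (hnd2 : ∀ y ∈ A2, ∃ x ∈ A2, x ≠ y ∧ ¬ G.Adj x y) (hX : ¬ XFree G A2) :
    ∃ z, Uni (ZF G (A1 ∪ A2)) (A1 ∪ A2) z := by
  have l : ∀ {x}, x ∈ A1 → x ∈ A1 ∪ A2 := fun h => Finset.mem_union_left _ h
  have r : ∀ {x}, x ∈ A2 → x ∈ A1 ∪ A2 := fun h => Finset.mem_union_right _ h
  have hE : ∀ x ∈ A1, ∀ y ∈ A1, ¬ G.Adj x y := by
    intro a ha b hb hab
    unfold XFree at hX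
    push Not at hX
    obtain ⟨p, hp, q, hq, s, hs, t, ht, hX⟩ := hX
    obtain ⟨c, hc, hca, hn⟩ := hnd1 a ha
    have J : ∀ x ∈ A1, JX G x p q s t := fun x hx =>
      ⟨hj x hx p hp, hj x hx q hq, hj x hx s hs, hj x hx t ht⟩
    exact hF a (l ha) b (l hb) c (l hc) (Ne.symm hca) hab (fun h => hn h.symm)
      p (r hp) q (r hq) s (r hs) t (r ht) hX (J a ha) (J b hb) (J c hc)
  have hE2 : EFree G A2 := by
    intro a ha c hc hac hn p hp q hq s hs t ht hXp h1 h2
    obtain ⟨b, hb⟩ := hn1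
    exact hF a (r ha) b (l hb) c (r hc) hac (hj b hb a ha).symm hn
      p (r hp) q (r hq) s (r hs) t (r ht) hXp h1
      ⟨hj b hb p hp, hj b hb q hq, hj b hb s hs, hj b hb t ht⟩ h2
  exact W_edgeless hj hn1 hn2 hE hnd2 (T_of_EFree hP _ _ rfl (hE2.sub nonIso_sub))

theorem W_of_FFree (hP : P4Free G) : ∀ (n : ℕ) (A : Finset V), A.card = n → FFree G A →
    ∃ z, Uni (ZF G A) A z := by
  intro n
  induction n using Nat.strong_induction_on with
  | _ n ih =>
    intro A hA hF
    rcases A.eq_empty_or_nonempty with rfl | hne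
    · obtain ⟨z, h, -⟩ := T_empty (G := G)
      exact ⟨z, h⟩
    by_cases hdom : ∃ u ∈ A, ∀ v ∈ A, v ≠ u → G.Adj u v
    · obtain ⟨u, hu, huniv⟩ := hdom
      have hE : EFree G (A.erase u) := by
        intro a ha c hc hac hn p hp q hq s hs t ht hX h1 h2
        have m : ∀ {x}, x ∈ A.erase u → x ∈ A := fun h => Finset.mem_of_mem_erase h
        have ad : ∀ {x}, x ∈ A.erase u → G.Adj u x := fun h =>
          huniv _ (m h) (Finset.ne_of_mem_erase h)
        exact hF a (m ha) u hu c (m hc) hac (ad ha).symm hn p (m hp) q (m hq) s (m hs) t (m ht)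
          hX h1 ⟨ad hp, ad hq, ad hs, ad ht⟩ h2
      obtain ⟨z, h, -⟩ := cone_of_dom hu huniv (T_of_EFree hP _ _ rfl (hE.sub nonIso_sub))
      exact ⟨z, h⟩
    · push Not at hdom
      have hnd : ∀ y ∈ A, ∃ x ∈ A, x ≠ y ∧ ¬ G.Adj x y := by
        intro y hy
        obtain ⟨x, hx, hxy, hn⟩ := hdom y hy
        exact ⟨x, hx, hxy, fun h => hn h.symm⟩
      have h2 := two_le_of_nd hne hnd
      rcases dichotomy hP A.card A rfl h2 with h | h
      · obtain ⟨A1, A2, hn1, hn2, rfl, hd, hno⟩ := h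
        have hcU := Finset.card_union_of_disjoint hd
        have hp1 := Finset.card_pos.mpr hn1
        have hp2 := Finset.card_pos.mpr hn2
        obtain ⟨z1, hz1⟩ := ih A1.card (by omega) A1 rfl (hF.sub Finset.subset_union_left)
        obtain ⟨z2, hz2⟩ := ih A2.card (by omega) A2 rfl (hF.sub Finset.subset_union_right)
        exact ⟨z1 + z2, Uni_union hd hno hz1 hz2⟩
      · obtain ⟨A1, A2, hn1, hn2, rfl, hd, hno⟩ := h
        have hj := join_of_compl hd hno
        have hj' : ∀ x ∈ A2, ∀ y ∈ A1, G.Adj x y := fun x hx y hy => (hj y hy x hx).symm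
        have hnd' : ∀ y ∈ A2 ∪ A1, ∃ x ∈ A2 ∪ A1, x ≠ y ∧ ¬ G.Adj x y := by
          rwa [Finset.union_comm]
        have hnd1 := nd_left hj hnd
        have hnd2 := nd_left hj' hnd'
        by_cases hX2 : XFree G A2
        · by_cases hX1 : XFree G A1
          · obtain ⟨z, h, -⟩ := T_join hj hn1 hn2 (R_of_XFree hP _ A1 rfl hn1 hnd1 hX1)
              (R_of_XFree hP _ A2 rfl hn2 hnd2 hX2)
            exact ⟨z, h⟩
          · rw [Finset.union_comm]
            exact W_join_aux hP hj' hn2 hn1 (by rwa [Finset.union_comm]) hnd2 hnd1 hX1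
        · exact W_join_aux hP hj hn1 hn2 hF hnd1 hnd2 hX2

end Pool.Agent.H81.WF
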