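import Pool.Agent.H81.WellForced

/-!
# Zero forcing sets of joins
-/

namespace Pool.Agent.H81.WF

open Classical

variable {V : Type*} {G : SimpleGraph V} {A S S' : Finset V}

/-- The isolated vertices of `G[A]`. -/
noncomputable def isoS (G : SimpleGraph V) (A : Finset V) : Finset V :=
  A.filter (fun v => ¬ ∃ y ∈ A, G.Adj v y)

/-- The other vertices of `G[A]`. -/
noncomputable def nonIso (G : SimpleGraph V) (A : Finset V) : Finset V :=
  A.filter (fun v => ∃ y ∈ A, G.Adj v y)

/-- `S` forces `G[A]` except for at most one isolated vertex. -/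
def Zm (G : SimpleGraph V) (A S : Finset V) : Prop :=
  ZF G (nonIso G A) S ∧ (isoS G A \ S).card ≤ 1

theorem iso_union : isoS G A ∪ nonIso G A = A := by
  rw [Finset.union_comm]
  exact Finset.filter_union_filter_not_eq _ _

theorem iso_disj : Disjoint (isoS G A) (nonIso G A) := by
  rw [Finset.disjoint_left]
  intro v hv hv2
  exact (Finset.mem_filter.mp hv).2 (Finset.mem_filter.mp hv2).2

theorem isoS_sub : isoS G A ⊆ A := Finset.filter_subset _ _
theorem nonIso_sub : nonIso G A ⊆ A := Finset.filter_subset _ _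

theorem mem_iso_or {v : V} (hv : v ∈ A) : v ∈ isoS G A ∨ v ∈ nonIso G A := by
  have := iso_union (G := G) (A := A)
  rw [← this] at hv
  exact Finset.mem_union.mp hv

theorem isoS_not {v y : V} (hv : v ∈ isoS G A) (hy : y ∈ A) : ¬ G.Adj v y := fun h =>
  (Finset.mem_filter.mp hv).2 ⟨y, hy, h⟩

theorem mem_nonIso {v y : V} (hv : v ∈ A) (hy : y ∈ A) (h : G.Adj v y) : v ∈ nonIso G A :=
  Finset.mem_filter.mpr ⟨hv, y, hy, h⟩

theorem nonIso_noiso : ∀ v ∈ nonIso G A, ∃ y ∈ nonIso G A, G.Adj v y := by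
  intro v hv
  obtain ⟨hvA, y, hy, hvy⟩ := Finset.mem_filter.mp hv
  exact ⟨y, mem_nonIso hy hvA hvy.symm, hvy⟩

theorem Zm.mono (h : Zm G A S) (hS : S ⊆ S') : Zm G A S' :=
  ⟨h.1.mono hS, (Finset.card_le_card (Finset.sdiff_subset_sdiff subset_rfl hS)).trans h.2⟩

/-- A set that misses at most one vertex of `A` forces all but at most one isolated vertex. -/
theorem Zm_of_card (h : (A \ S).card ≤ 1) : Zm G A S := by
  refine ⟨?_, (Finset.card_le_card (Finset.sdiff_subset_sdiff isoS_sub subset_rfl)).trans h⟩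
  intro v hv
  by_cases hvS : v ∈ S
  · exact .init hv hvS
  · obtain ⟨y, hy, hvy⟩ := nonIso_noiso v hv
    have hin : ∀ x ∈ nonIso G A, x ≠ v → x ∈ S := by
      intro x hx hxv
      by_contra hxS
      exact hxv (Finset.card_le_one.mp h x (Finset.mem_sdiff.mpr ⟨nonIso_sub hx, hxS⟩) v
        (Finset.mem_sdiff.mpr ⟨nonIso_sub hv, hvS⟩))
    exact .force (.init hy (hin y hy hvy.ne')) hv hvy.symm fun x hx _ hxv =>
      .init hx (hin x hx hxv)

/-- The forcing only depends on `S ∩ A`. -/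
theorem BlueIn.inter {v : V} (h : BlueIn G A S v) : BlueIn G A (S ∩ A) v := by
  induction h with
  | init hA hS => exact .init hA (Finset.mem_inter.mpr ⟨hS, hA⟩)
  | force hu hw huw h ihu ih => exact .force ihu hw huw ih

theorem ZF.inter (h : ZF G A S) : ZF G A (S ∩ A) := fun v hv => (h v hv).inter

theorem NbIn.inter (h : NbIn G A S) : NbIn G A (S ∩ A) := by
  obtain ⟨x, hx, hxS, hN⟩ := h
  exact ⟨x, hx, Finset.mem_inter.mpr ⟨hxS, hx⟩, fun y hy hxy =>
    Finset.mem_inter.mpr ⟨hN y hy hxy, hy⟩⟩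

section join

variable {A1 A2 : Finset V}

theorem join_Zm (hj : ∀ x ∈ A1, ∀ y ∈ A2, G.Adj x y) (h : ZF G (A1 ∪ A2) S) : Zm G A1 S := by
  have hin1 : ∀ x ∈ A1, x ∈ A1 ∪ A2 := fun x hx => Finset.mem_union_left _ hx
  constructor
  · have key : ∀ v, BlueIn G (A1 ∪ A2) S v → v ∈ nonIso G A1 → BlueIn G (nonIso G A1) S v := by
      intro v hv
      induction hv with
      | init hA hS => exact fun hv => .init hv hS
      | @force a w ha hw haw h ihu ih =>
        intro hwH
        rcases Finset.mem_union.mp ha.mem with ha1 | ha2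
        · exact .force (ihu (mem_nonIso ha1 (nonIso_sub hwH) haw)) hwH haw fun x hx hax hxw =>
            ih x (hin1 x (nonIso_sub hx)) hax hxw hx
        · obtain ⟨y, hy, hwy⟩ := nonIso_noiso w hwH
          have hall : ∀ x ∈ nonIso G A1, x ≠ w → BlueIn G (nonIso G A1) S x := fun x hx hxw =>
            ih x (hin1 x (nonIso_sub hx)) (hj x (nonIso_sub hx) a ha2).symm hxw hx
          exact .force (hall y hy hwy.ne') hwH hwy.symm fun x hx _ hxw => hall x hx hxw
    exact fun v hv => key v (h v (hin1 v (nonIso_sub hv))) hv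
  · rw [Finset.card_le_one]
    intro i hi j hj2
    by_contra hij
    rw [Finset.mem_sdiff] at hi hj2
    have hi1 := isoS_sub hi.1
    have hj1 := isoS_sub hj2.1
    have key : ∀ v, BlueIn G (A1 ∪ A2) S v → v ≠ i ∧ v ≠ j := by
      intro v hv
      induction hv with
      | init hA hS =>
        constructor
        · rintro rfl; exact hi.2 hS
        · rintro rfl; exact hj2.2 hS
      | @force a w ha hw haw h ihu ih =>
        have hau : ∀ t ∈ isoS G A1, G.Adj a t → a ∈ A2 := by
          intro t ht hat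
          rcases Finset.mem_union.mp ha.mem with h1 | h1
          · exact absurd hat.symm (isoS_not ht h1)
          · exact h1
        constructor
        · rintro rfl
          have h1 := hau w hi.1 haw
          exact (ih j (hin1 j hj1) (hj j hj1 a h1).symm (Ne.symm hij)).2 rfl
        · rintro rfl
          have h1 := hau w hj2.1 haw
          exact (ih i (hin1 i hi1) (hj i hi1 a h1).symm hij).1 rfl
    exact (key i (h i (hin1 i hi1))).1 rfl

/-- If all of `A2` becomes blue, then `Zm` on `A1` suffices. -/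
theorem join_finish (hj : ∀ x ∈ A1, ∀ y ∈ A2, G.Adj x y) (hne : A2.Nonempty)
    (hA2 : ∀ v ∈ A2, BlueIn G (A1 ∪ A2) S v) (hZ : Zm G A1 S) : ZF G (A1 ∪ A2) S := by
  have hin1 : ∀ x ∈ A1, x ∈ A1 ∪ A2 := fun x hx => Finset.mem_union_left _ hx
  have hH : ∀ v, BlueIn G (nonIso G A1) S v → BlueIn G (A1 ∪ A2) S v := by
    intro v hv
    induction hv with
    | init hA hS => exact .init (hin1 _ (nonIso_sub hA)) hS
    | @force a w ha hw haw h ihu ih =>
      refine .force ihu (hin1 w (nonIso_sub hw)) haw ?_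
      intro x hx hax hxw
      rcases Finset.mem_union.mp hx with h1 | h1
      · exact ih x (mem_nonIso h1 (nonIso_sub ha.mem) hax.symm) hax hxw
      · exact hA2 x h1
  intro v hv
  rcases Finset.mem_union.mp hv with h1 | h1
  · rcases mem_iso_or (G := G) h1 with h2 | h2
    · by_cases hvS : v ∈ S
      · exact .init hv hvS
      · obtain ⟨a, ha⟩ := hne
        refine .force (hA2 a ha) hv (hj v h1 a ha).symm ?_
        intro x hx hax hxv
        rcases Finset.mem_union.mp hx with h3 | h3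
        · rcases mem_iso_or (G := G) h3 with h4 | h4
          · by_cases hxS : x ∈ S
            · exact .init hx hxS
            · exact absurd (Finset.card_le_one.mp hZ.2 x (Finset.mem_sdiff.mpr ⟨h4, hxS⟩) v
                (Finset.mem_sdiff.mpr ⟨h2, hvS⟩)) hxv
          · exact hH x (hZ.1 x h4)
        · exact hA2 x h3
    · exact hH v (hZ.1 v h2)
  · exact hA2 v h1

theorem join_suff (hj : ∀ x ∈ A1, ∀ y ∈ A2, G.Adj x y) (hne : A2.Nonempty)
    (hZ : Zm G A1 S) (h : A2 ⊆ S ∨ ((A2 \ S).card ≤ 1 ∧ NbIn G A1 S)) : ZF G (A1 ∪ A2) S := by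
  have hin2 : ∀ x ∈ A2, x ∈ A1 ∪ A2 := fun x hx => Finset.mem_union_right _ hx
  refine join_finish hj hne ?_ hZ
  rcases h with h | ⟨h, x, hx, hxS, hxN⟩
  · exact fun v hv => .init (hin2 v hv) (h hv)
  · intro v hv
    by_cases hvS : v ∈ S
    · exact .init (hin2 v hv) hvS
    · refine .force (.init (Finset.mem_union_left _ hx) hxS) (hin2 v hv) (hj x hx v hv) ?_
      intro y hy hxy hyv
      rcases Finset.mem_union.mp hy with h1 | h1
      · exact .init hy (hxN y h1 hxy)
      · by_cases hyS : y ∈ S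
        · exact .init hy hyS
        · exact absurd (Finset.card_le_one.mp h y (Finset.mem_sdiff.mpr ⟨h1, hyS⟩) v
            (Finset.mem_sdiff.mpr ⟨hv, hvS⟩)) hyv

/-- The alternatives for a zero forcing set of a join. -/
theorem join_nec (hj : ∀ x ∈ A1, ∀ y ∈ A2, G.Adj x y) (h : ZF G (A1 ∪ A2) S) :
    (A2 ⊆ S) ∨ (A1 ⊆ S) ∨ ((A2 \ S).card ≤ 1 ∧ NbIn G A1 S) ∨
      ((A1 \ S).card ≤ 1 ∧ NbIn G A2 S) := by
  by_contra hcon
  push Not at hcon
  obtain ⟨h2, h1, h3, h4⟩ := hcon
  have key : ∀ v, BlueIn G (A1 ∪ A2) S v → v ∈ S := by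
    intro v hv
    induction hv with
    | init hA hS => exact hS
    | @force a w ha hw haw h ihu ih =>
      exfalso
      rcases Finset.mem_union.mp ha.mem with ha1 | ha2
      · obtain ⟨t, ht, htS⟩ := Finset.not_subset.mp h2
        have hall : ∀ x ∈ A2, x ∉ S → x = w := by
          intro x hx hxS
          by_contra hxw
          exact hxS (ih x (Finset.mem_union_right _ hx) (hj a ha1 x hx) hxw)
        have htw : t = w := hall t ht htS
        refine h3 ?_ ⟨a, ha1, ihu, ?_⟩
        · rw [Finset.card_le_one]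
          intro x hx y hy
          rw [Finset.mem_sdiff] at hx hy
          rw [hall x hx.1 hx.2, hall y hy.1 hy.2]
        · intro y hy hay
          refine ih y (Finset.mem_union_left _ hy) hay ?_
          rintro rfl
          subst htw
          exact G.loopless.irrefl t (hj t hy t ht)
      · obtain ⟨t, ht, htS⟩ := Finset.not_subset.mp h1
        have hall : ∀ x ∈ A1, x ∉ S → x = w := by
          intro x hx hxS
          by_contra hxw
          exact hxS (ih x (Finset.mem_union_left _ hx) (hj x hx a ha2).symm hxw)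
        have htw : t = w := hall t ht htS
        refine h4 ?_ ⟨a, ha2, ihu, ?_⟩
        · rw [Finset.card_le_one]
          intro x hx y hy
          rw [Finset.mem_sdiff] at hx hy
          rw [hall x hx.1 hx.2, hall y hy.1 hy.2]
        · intro y hy hay
          refine ih y (Finset.mem_union_right _ hy) hay ?_
          rintro rfl
          subst htw
          exact G.loopless.irrefl t (hj t ht t hy)
  exact h1 fun v hv => key v (h v (Finset.mem_union_left _ hv))

theorem join_Nb_nec (hj : ∀ x ∈ A1, ∀ y ∈ A2, G.Adj x y) (h : NbIn G (A1 ∪ A2) S) :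
    (A2 ⊆ S ∧ NbIn G A1 S) ∨ (A1 ⊆ S ∧ NbIn G A2 S) := by
  obtain ⟨x, hx, hxS, hN⟩ := h
  rcases Finset.mem_union.mp hx with h1 | h1
  · exact Or.inl ⟨fun y hy => hN y (Finset.mem_union_right _ hy) (hj x h1 y hy),
      x, h1, hxS, fun y hy hxy => hN y (Finset.mem_union_left _ hy) hxy⟩
  · exact Or.inr ⟨fun y hy => hN y (Finset.mem_union_left _ hy) (hj y hy x h1).symm,
      x, h1, hxS, fun y hy hxy => hN y (Finset.mem_union_right _ hy) hxy⟩

theorem join_Nb_suff (h2 : A2 ⊆ S) (h : NbIn G A1 S) : NbIn G (A1 ∪ A2) S := by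
  obtain ⟨x, hx, hxS, hN⟩ := h
  refine ⟨x, Finset.mem_union_left _ hx, hxS, fun y hy hxy => ?_⟩
  rcases Finset.mem_union.mp hy with h1 | h1
  · exact hN y h1 hxy
  · exact h2 h1

/-- The property of a graph without dominating vertex that has few white vertices. -/
structure R (G : SimpleGraph V) (A : Finset V) : Prop where
  nd : ∀ y ∈ A, ∃ x ∈ A, x ≠ y ∧ ¬ G.Adj x y
  r1 : ∀ S, Zm G A S → NbIn G A S → (A \ S).card ≤ 1
  r2 : ∀ S, Zm G A S → (A \ S).card ≤ 2

theorem sdiff_union_card (hd : Disjoint A1 A2) :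
    ((A1 ∪ A2) \ S).card = (A1 \ S).card + (A2 \ S).card := by
  rw [Finset.union_sdiff_distrib, Finset.card_union_of_disjoint]
  exact hd.mono Finset.sdiff_subset Finset.sdiff_subset

theorem join_disj (hj : ∀ x ∈ A1, ∀ y ∈ A2, G.Adj x y) : Disjoint A1 A2 := by
  rw [Finset.disjoint_left]
  intro v h1 h2
  exact G.loopless.irrefl v (hj v h1 v h2)

theorem join_card2 (hj : ∀ x ∈ A1, ∀ y ∈ A2, G.Adj x y)
    (h1 : R G A1) (h2 : R G A2) (h : ZF G (A1 ∪ A2) S) : ((A1 ∪ A2) \ S).card ≤ 2 := by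
  have hj' : ∀ x ∈ A2, ∀ y ∈ A1, G.Adj x y := fun x hx y hy => (hj y hy x hx).symm
  have hZ1 := join_Zm hj h
  have hZ2 : Zm G A2 S := join_Zm hj' (by rwa [Finset.union_comm])
  rw [sdiff_union_card (join_disj hj)]
  rcases join_nec hj h with h3 | h3 | ⟨h3, h4⟩ | ⟨h3, h4⟩
  · have := h1.r2 S hZ1
    have : (A2 \ S).card = 0 := by rw [Finset.sdiff_eq_empty_iff_subset.mpr h3]; rfl
    omega
  · have := h2.r2 S hZ2
    have : (A1 \ S).card = 0 := by rw [Finset.sdiff_eq_empty_iff_subset.mpr h3]; rfl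
    omega
  · have := h1.r1 S hZ1 h4
    omega
  · have := h2.r1 S hZ2 h4
    omega

theorem join_card1 (hj : ∀ x ∈ A1, ∀ y ∈ A2, G.Adj x y)
    (h1 : R G A1) (h2 : R G A2) (h : ZF G (A1 ∪ A2) S) (hN : NbIn G (A1 ∪ A2) S) :
    ((A1 ∪ A2) \ S).card ≤ 1 := by
  have hj' : ∀ x ∈ A2, ∀ y ∈ A1, G.Adj x y := fun x hx y hy => (hj y hy x hx).symm
  have hZ1 := join_Zm hj h
  have hZ2 : Zm G A2 S := join_Zm hj' (by rwa [Finset.union_comm])
  rw [sdiff_union_card (join_disj hj)]
  rcases join_Nb_nec hj hN with ⟨h3, h4⟩ | ⟨h3, h4⟩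
  · have := h1.r1 S hZ1 h4
    have : (A2 \ S).card = 0 := by rw [Finset.sdiff_eq_empty_iff_subset.mpr h3]; rfl
    omega
  · have := h2.r1 S hZ2 h4
    have : (A1 \ S).card = 0 := by rw [Finset.sdiff_eq_empty_iff_subset.mpr h3]; rfl
    omega

theorem join_nonIso (hj : ∀ x ∈ A1, ∀ y ∈ A2, G.Adj x y) (hn1 : A1.Nonempty)
    (hn2 : A2.Nonempty) : nonIso G (A1 ∪ A2) = A1 ∪ A2 := by
  refine Finset.Subset.antisymm nonIso_sub ?_
  intro v hv
  rcases Finset.mem_union.mp hv with h | h
  · obtain ⟨y, hy⟩ := hn2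
    exact mem_nonIso hv (Finset.mem_union_right _ hy) (hj v h y hy)
  · obtain ⟨y, hy⟩ := hn1
    exact mem_nonIso hv (Finset.mem_union_left _ hy) (hj y hy v h).symm

theorem R_join (hj : ∀ x ∈ A1, ∀ y ∈ A2, G.Adj x y) (hn1 : A1.Nonempty) (hn2 : A2.Nonempty)
    (h1 : R G A1) (h2 : R G A2) : R G (A1 ∪ A2) := by
  have hni := join_nonIso hj hn1 hn2
  refine ⟨?_, ?_, ?_⟩
  · intro y hy
    rcases Finset.mem_union.mp hy with h | h
    · obtain ⟨x, hx, hxy⟩ := h1.nd y h
      exact ⟨x, Finset.mem_union_left _ hx, hxy⟩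
    · obtain ⟨x, hx, hxy⟩ := h2.nd y h
      exact ⟨x, Finset.mem_union_right _ hx, hxy⟩
  · intro S hZ hN
    have := hZ.1
    rw [hni] at this
    exact join_card1 hj h1 h2 this hN
  · intro S hZ
    have := hZ.1
    rw [hni] at this
    exact join_card2 hj h1 h2 this

/-- Two missing vertices, one on each side of the join. -/
theorem two_missing (hj : ∀ x ∈ A1, ∀ y ∈ A2, G.Adj x y) (hnd : ∀ y ∈ A1, ∃ x ∈ A1, x ≠ y ∧
    ¬ G.Adj x y) {y1 y2 : V} (hy1 : y1 ∈ A1) (hy2 : y2 ∈ A2) :
    ZF G (A1 ∪ A2) ((A1 ∪ A2) \ {y1, y2}) := by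
  have hd := join_disj hj
  have e1 : (A1 \ ((A1 ∪ A2) \ {y1, y2})).card ≤ 1 := by
    rw [Finset.card_le_one]
    intro x hx y hy
    simp only [Finset.mem_sdiff, Finset.mem_union, Finset.mem_insert, Finset.mem_singleton,
      not_and, not_not] at hx hy
    rcases hx.2 (Or.inl hx.1) with h | h
    · rcases hy.2 (Or.inl hy.1) with h' | h'
      · rw [h, h']
      · exact absurd (h' ▸ hy.1) (fun h3 => Finset.disjoint_left.mp hd h3 hy2)
    · exact absurd (h ▸ hx.1) (fun h3 => Finset.disjoint_left.mp hd h3 hy2)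
  have e2 : (A2 \ ((A1 ∪ A2) \ {y1, y2})).card ≤ 1 := by
    rw [Finset.card_le_one]
    intro x hx y hy
    simp only [Finset.mem_sdiff, Finset.mem_union, Finset.mem_insert, Finset.mem_singleton,
      not_and, not_not] at hx hy
    rcases hx.2 (Or.inr hx.1) with h | h
    · exact absurd (h ▸ hx.1) (fun h3 => Finset.disjoint_left.mp hd hy1 h3)
    · rcases hy.2 (Or.inr hy.1) with h' | h'
      · exact absurd (h' ▸ hy.1) (fun h3 => Finset.disjoint_left.mp hd hy1 h3)
      · rw [h, h']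
  refine join_suff hj ⟨y2, hy2⟩ (Zm_of_card e1) (Or.inr ⟨e2, ?_⟩)
  obtain ⟨x, hx, hxy, hnxy⟩ := hnd y1 hy1
  have hmem : ∀ t ∈ A1, t ≠ y1 → t ∈ (A1 ∪ A2) \ {y1, y2} := by
    intro t ht hty
    simp only [Finset.mem_sdiff, Finset.mem_union, Finset.mem_insert, Finset.mem_singleton,
      not_or]
    refine ⟨Or.inl ht, hty, ?_⟩
    rintro rfl
    exact Finset.disjoint_left.mp hd ht hy2
  refine ⟨x, hx, hmem x hx hxy, fun t ht hxt => hmem t ht ?_⟩
  rintro rfl
  exact hnxy hxt

theorem T_join (hj : ∀ x ∈ A1, ∀ y ∈ A2, G.Adj x y) (hn1 : A1.Nonempty) (hn2 : A2.Nonempty)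
    (h1 : R G A1) (h2 : R G A2) : T G (A1 ∪ A2) := by
  have hd := join_disj hj
  have hj' : ∀ x ∈ A2, ∀ y ∈ A1, G.Adj x y := fun x hx y hy => (hj y hy x hx).symm
  obtain ⟨u1, hu1⟩ := hn1
  obtain ⟨u2, hu2⟩ := hn2
  have hcard2 : 2 ≤ (A1 ∪ A2).card := by
    have : ({u1, u2} : Finset V) ⊆ A1 ∪ A2 := by
      intro x hx
      rcases Finset.mem_insert.mp hx with h | h
      · exact h ▸ Finset.mem_union_left _ hu1
      · exact (Finset.mem_singleton.mp h) ▸ Finset.mem_union_right _ hu2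
    have h3 := Finset.card_le_card this
    rwa [Finset.card_pair (hj u1 hu1 u2 hu2).ne] at h3
  refine ⟨(A1 ∪ A2).card - 2, ?_, ?_⟩
  · intro S hS
    have hle := join_card2 hj h1 h2 hS
    by_cases hc : ((A1 ∪ A2) \ S).card = 2
    · refine ⟨S ∩ (A1 ∪ A2), Finset.inter_subset_left, Finset.inter_subset_right, hS.inter, ?_⟩
      have := Finset.card_inter_add_card_sdiff (A1 ∪ A2) S
      rw [Finset.inter_comm]
      omega
    · -- one vertex `y` with `A \ S ⊆ {y}`
      have hle1 : ((A1 ∪ A2) \ S).card ≤ 1 := by omega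
      obtain ⟨y, hyA, hyS⟩ : ∃ y ∈ A1 ∪ A2, (A1 ∪ A2) \ S ⊆ {y} := by
        rcases ((A1 ∪ A2) \ S).eq_empty_or_nonempty with he | ⟨y, hy⟩
        · exact ⟨u1, Finset.mem_union_left _ hu1, by rw [he]; exact Finset.empty_subset _⟩
        · refine ⟨y, (Finset.mem_sdiff.mp hy).1, fun x hx => ?_⟩
          rw [Finset.mem_singleton]
          exact Finset.card_le_one.mp hle1 x hx y hy
      have key : ∀ y1 y2, y1 ∈ A1 → y2 ∈ A2 → (y = y1 ∨ y = y2) →
          ∃ S0, S0 ⊆ S ∧ S0 ⊆ A1 ∪ A2 ∧ ZF G (A1 ∪ A2) S0 ∧ S0.card = (A1 ∪ A2).card - 2 := by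
        intro y1 y2 hy1 hy2 hor
        refine ⟨(A1 ∪ A2) \ {y1, y2}, ?_, Finset.sdiff_subset, two_missing hj h1.nd hy1 hy2, ?_⟩
        · intro x hx
          rw [Finset.mem_sdiff, Finset.mem_insert, Finset.mem_singleton] at hx
          by_contra hxS
          have := Finset.mem_singleton.mp (hyS (Finset.mem_sdiff.mpr ⟨hx.1, hxS⟩))
          apply hx.2
          rcases hor with h | h
          · exact Or.inl (this.trans h)
          · exact Or.inr (this.trans h)
        · rw [Finset.card_sdiff_of_subset, Finset.card_pair (hj y1 hy1 y2 hy2).ne]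
          intro x hx
          rcases Finset.mem_insert.mp hx with h | h
          · exact h ▸ Finset.mem_union_left _ hy1
          · exact (Finset.mem_singleton.mp h) ▸ Finset.mem_union_right _ hy2
      rcases Finset.mem_union.mp hyA with h | h
      · exact key y u2 h hu2 (Or.inl rfl)
      · exact key u1 y hu1 h (Or.inr rfl)
  · rintro - S ⟨hS, hN⟩
    have hle := join_card1 hj h1 h2 hS hN
    by_cases hc : ((A1 ∪ A2) \ S).card = 1
    · refine ⟨S ∩ (A1 ∪ A2), Finset.inter_subset_left, Finset.inter_subset_right,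
        ⟨hS.inter, hN.inter⟩, ?_⟩
      have := Finset.card_inter_add_card_sdiff (A1 ∪ A2) S
      rw [Finset.inter_comm]
      omega
    · have he : (A1 ∪ A2) ⊆ S := by
        rw [← Finset.sdiff_eq_empty_iff_subset, ← Finset.card_eq_zero]
        omega
      have hs1 : A2 ⊆ (A1 ∪ A2).erase u1 := by
        intro x hx
        refine Finset.mem_erase.mpr ⟨?_, Finset.mem_union_right _ hx⟩
        rintro rfl
        exact Finset.disjoint_left.mp hd hu1 hx
      have hNb : NbIn G A1 ((A1 ∪ A2).erase u1) := by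
        obtain ⟨x, hx, hxu, hnx⟩ := h1.nd u1 hu1
        refine ⟨x, hx, Finset.mem_erase.mpr ⟨hxu, Finset.mem_union_left _ hx⟩, ?_⟩
        intro t ht hxt
        refine Finset.mem_erase.mpr ⟨?_, Finset.mem_union_left _ ht⟩
        rintro rfl
        exact hnx hxt
      refine ⟨(A1 ∪ A2).erase u1, (Finset.erase_subset _ _).trans he, Finset.erase_subset _ _,
        ⟨join_suff hj ⟨u2, hu2⟩ (Zm_of_card ?_) (Or.inl hs1), join_Nb_suff hs1 hNb⟩, ?_⟩
      · rw [Finset.card_le_one]
        intro x hx y hy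
        rw [Finset.mem_sdiff, Finset.mem_erase] at hx hy
        have hx' : x = u1 := by
          by_contra h; exact hx.2 ⟨h, Finset.mem_union_left _ hx.1⟩
        have hy' : y = u1 := by
          by_contra h; exact hy.2 ⟨h, Finset.mem_union_left _ hy.1⟩
        rw [hx', hy']
      · rw [Finset.card_erase_of_mem (Finset.mem_union_left _ hu1)]
        omega

end join

end Pool.Agent.H81.WF
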